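import Mathlib

set_option autoImplicit false

namespace Pool.Agent.H519DM

/-- An abstract quasicyclic `q`-group: divisible, `q`-primary, uniserial, nontrivial. -/
structure QC (q : ℕ) (T : Type) [AddCommGroup T] : Prop where
  baer : Module.Baer ℤ T
  tors : ∀ x : T, ∃ n : ℕ, q ^ n • x = 0
  uni : ∀ (a b : T) (m : ℕ), q ^ (m + 1) • a = 0 → q ^ m • b ≠ 0 → ∃ c : ℤ, a = c • b
  soc : ∃ e : T, e ≠ 0 ∧ q • e = 0

section FE

variable {q : ℕ} {T : Type} [AddCommGroup T]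

/-- Factorisation and extension. -/
lemma QC.fe (hT : QC q T) {M N : Type*} [AddCommGroup M] [AddCommGroup N] (α : M →+ N)
    (β : M →+ T) (h : ∀ m, α m = 0 → β m = 0) : ∃ γ : N →+ T, ∀ m, γ (α m) = β m := by
  obtain ⟨γ, hγ⟩ := hT.baer.extension_property_addMonoidHom (QuotientAddGroup.kerLift α)
    (QuotientAddGroup.kerLift_injective α) (QuotientAddGroup.lift α.ker β (fun m hm => h m hm))
  refine ⟨γ, fun m => ?_⟩
  have := DFunLike.congr_fun hγ (QuotientAddGroup.mk m)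
  exact this

lemma QC.exists_ne (hT : QC q T) (hq : q.Prime) {A : Type*} [AddCommGroup A] (a : A)
    (h1 : q • a = 0) (h0 : a ≠ 0) : ∃ φ : A →+ T, φ a ≠ 0 := by
  obtain ⟨e, he0, he⟩ := hT.soc
  obtain ⟨γ, hγ⟩ := hT.fe (zmultiplesHom A a) (zmultiplesHom T e) (by
    intro m hm
    have hm' : m • a = 0 := hm
    haveI : Fact q.Prime := ⟨hq⟩
    have hord : addOrderOf a = q := addOrderOf_eq_prime h1 h0
    have hdvd : (q : ℤ) ∣ m := by
      rw [← hord]
      exact addOrderOf_dvd_iff_zsmul_eq_zero.mpr hm'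
    obtain ⟨c, rfl⟩ := hdvd
    show ((q : ℤ) * c) • e = 0
    rw [mul_comm, mul_smul, natCast_zsmul, he, smul_zero])
  refine ⟨γ, ?_⟩
  have := hγ 1
  simp only [zmultiplesHom_apply, one_smul] at this
  rw [this]
  exact he0

lemma QC.exists_ne' (hT : QC q T) {A : Type*} [AddCommGroup A] (a : A)
    (h1 : ∀ n : ℤ, n • a = 0 → n = 0) : ∃ φ : A →+ T, φ a ≠ 0 := by
  obtain ⟨e, he0, he⟩ := hT.soc
  obtain ⟨γ, hγ⟩ := hT.fe (zmultiplesHom A a) (zmultiplesHom T e) (by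
    intro m hm
    have hm' : m • a = 0 := hm
    rw [h1 m hm']
    simp)
  refine ⟨γ, ?_⟩
  have := hγ 1
  simp only [zmultiplesHom_apply, one_smul] at this
  rw [this]
  exact he0

lemma nsmul_eq_zero_of_coprime {q n : ℕ} {A : Type*} [AddCommGroup A] (x : A) (m : ℕ)
    (h1 : q ^ m • x = 0) (h2 : n • x = 0) (hc : Nat.Coprime n q) : x = 0 := by
  have h3 : addOrderOf x ∣ q ^ m := addOrderOf_dvd_of_nsmul_eq_zero h1
  have h4 : addOrderOf x ∣ n := addOrderOf_dvd_of_nsmul_eq_zero h2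
  have h5 : addOrderOf x ∣ 1 := by
    have : Nat.Coprime n (q ^ m) := Nat.Coprime.pow_right m hc
    rw [← this]
    exact Nat.dvd_gcd h4 h3
  exact AddMonoid.addOrderOf_eq_one_iff.mp (Nat.dvd_one.mp h5)

/-- Bounding exponents. -/
lemma QC.bound (hT : QC q T) (hq : q.Prime) (M : ℕ) (hM : M ≠ 0) :
    ∃ e : ℕ, ∀ x : T, M • x = 0 → q ^ e • x = 0 := by
  obtain ⟨e, m', hm', hM'⟩ := Nat.exists_eq_pow_mul_and_not_dvd hM q hq.ne_one
  refine ⟨e, fun x hx => ?_⟩
  obtain ⟨n, hn⟩ := hT.tors x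
  apply nsmul_eq_zero_of_coprime (q := q) (n := m') (q ^ e • x) n
  · rw [smul_comm, hn, smul_zero]
  · rw [← mul_smul, mul_comm, ← hM', hx]
  · exact ((Nat.Prime.coprime_iff_not_dvd hq).mpr hm').symm

end FE

end Pool.Agent.H519DM
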