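import Pool.Agent.H519_DM.A1

set_option autoImplicit false

namespace Pool.Agent.H519DM

/-- Hypothesis: `G` is dense in `K` and each dense subgroup of `K` inside `G` meets every nonzero
closed subgroup of `K` nontrivially. -/
structure HDM {K : Type*} [AddCommGroup K] [TopologicalSpace K] (G : AddSubgroup K) : Prop where
  dense : Dense (G : Set K)
  ess : ∀ D : AddSubgroup K, D ≤ G → Dense (D : Set K) → ∀ N : AddSubgroup K,
    IsClosed (N : Set K) → (∃ y ∈ N, y ≠ 0) → ∃ x ∈ D, x ∈ N ∧ x ≠ 0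

/-- Continuity of a homomorphism to a discrete group. -/
def Cont {K : Type*} [AddCommGroup K] [TopologicalSpace K] {G : AddSubgroup K} {T : Type}
    [AddCommGroup T] (f : G →+ T) : Prop :=
  ∃ U : AddSubgroup K, IsOpen (U : Set K) ∧ ∀ g : G, (g : K) ∈ U → f g = 0

section CC

variable {K : Type*} [AddCommGroup K] [TopologicalSpace K] {G : AddSubgroup K}
  {q : ℕ} {T : Type} [AddCommGroup T]

lemma Cont.add {f g : G →+ T} (hf : Cont f) (hg : Cont g) : Cont (f + g) := by
  obtain ⟨U, hU, hf⟩ := hf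
  obtain ⟨V, hV, hg⟩ := hg
  refine ⟨U ⊓ V, ?_, fun x hx => ?_⟩
  · rw [AddSubgroup.coe_inf]
    exact hU.inter hV
  · rw [AddMonoidHom.add_apply, hf x hx.1, hg x hx.2, add_zero]

end CC

section Main

variable {K : Type*} [AddCommGroup K] [TopologicalSpace K] [NonarchimedeanAddGroup K]
  [CompactSpace K] [T2Space K] {G : AddSubgroup K} {q : ℕ} {T : Type} [AddCommGroup T]

lemma HDM.mem_of_prime (h : HDM G) (hq : q.Prime) {z : K} (hz : q • z = 0)
    (D : AddSubgroup K) (hD : D ≤ G) (hDd : Dense (D : Set K)) : z ∈ D := by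
  by_cases h0 : z = 0
  · subst h0; exact D.zero_mem
  have hof : IsOfFinAddOrder z := isOfFinAddOrder_iff_nsmul_eq_zero.mpr ⟨q, hq.pos, hz⟩
  have hfin : (AddSubgroup.zmultiples z : Set K).Finite := by
    exact hof.finite_zmultiples
  obtain ⟨x, hxD, hxN, hx0⟩ := h.ess D hD hDd (AddSubgroup.zmultiples z) hfin.isClosed
    ⟨z, AddSubgroup.mem_zmultiples z, h0⟩
  obtain ⟨c, rfl⟩ := AddSubgroup.mem_zmultiples_iff.mp hxN
  have hc : ¬ (q : ℤ) ∣ c := by
    rintro ⟨d, rfl⟩
    apply hx0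
    rw [mul_comm, mul_smul, natCast_zsmul, hz, smul_zero]
  have hcop : IsCoprime (q : ℤ) c :=
    (Nat.prime_iff_prime_int.mp hq).coprime_iff_not_dvd.mpr hc
  obtain ⟨a, b, hab⟩ := hcop
  have hzz : z = b • c • z := by
    calc z = (1 : ℤ) • z := (one_smul ℤ z).symm
      _ = (a * q + b * c) • z := by rw [hab]
      _ = b • c • z := by
        rw [add_smul, mul_smul, natCast_zsmul, hz, smul_zero, zero_add, mul_smul]
  rw [hzz]
  exact D.zsmul_mem hxD b

omit [CompactSpace K] [T2Space K] in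
lemma exists_open_above (D : AddSubgroup K) (hD : ¬ Dense (D : Set K)) :
    ∃ W : AddSubgroup K, IsOpen (W : Set K) ∧ D ≤ W ∧ ∃ y, y ∉ W := by
  obtain ⟨y, hy⟩ : ∃ y, y ∉ closure (D : Set K) := by
    by_contra hcon
    push Not at hcon
    exact hD hcon
  have hnb : (fun x => y + x) ⁻¹' (closure (D : Set K))ᶜ ∈ nhds (0 : K) := by
    apply (continuous_const.add continuous_id).continuousAt.preimage_mem_nhds
    have : (closure (D : Set K))ᶜ ∈ nhds y := isClosed_closure.isOpen_compl.mem_nhds hy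
    simpa using this
  obtain ⟨U, hU⟩ := NonarchimedeanAddGroup.is_nonarchimedean _ hnb
  refine ⟨D ⊔ U.toAddSubgroup, ?_, le_sup_left, y, ?_⟩
  · exact AddSubgroup.isOpen_mono le_sup_right U.isOpen'
  · intro hy'
    obtain ⟨d, hd, u, hu, hdu⟩ := AddSubgroup.mem_sup.mp hy'
    have h1 : (-u) ∈ (U : Set K) := neg_mem hu
    have h2 := hU h1
    apply h2
    show y + -u ∈ closure (D : Set K)
    rw [← hdu, add_neg_cancel_right]
    exact subset_closure hd

lemma HDM.P1 (h : HDM G) (hT : QC q T) (hq : q.Prime) (f : G →+ T) (s : G) (hs : q • s = 0)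
    (hfs : f s ≠ 0) :
    ∃ (j : ℕ) (W : AddSubgroup K), IsOpen (W : Set K) ∧ (∃ g, q ^ j • f g ≠ 0) ∧
      ∀ g : G, (g : K) ∈ W → q ^ j • f g = 0 := by
  have hnd : ¬ Dense ((f.ker.map G.subtype : AddSubgroup K) : Set K) := by
    intro hd
    have hsK : q • (s : K) = 0 := by
      have := congrArg (fun x : G => (x : K)) hs
      simpa using this
    have hmem : (s : K) ∈ f.ker.map G.subtype := h.mem_of_prime hq hsK _
      (by rintro _ ⟨x, _, rfl⟩; exact x.2) hd
    obtain ⟨x, hx, hxs⟩ := hmem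
    have hxs' : x = s := Subtype.ext hxs
    subst hxs'
    exact hfs hx
  obtain ⟨W, hWo, hDW, y, hy⟩ := exists_open_above _ hnd
  have hWc : IsClosed (W : Set K) := AddSubgroup.isClosed_of_isOpen W hWo
  obtain ⟨g0, hg0W, hg0G⟩ := h.dense.inter_open_nonempty (W : Set K)ᶜ hWc.isOpen_compl ⟨y, hy⟩
  have hker : ∀ g : G, f g = 0 → (g : K) ∈ W := fun g hg => hDW ⟨g, hg, rfl⟩
  classical
  have hex : ∃ n, q ^ n • f ⟨g0, hg0G⟩ = 0 := hT.tors _
  have hn0 : Nat.find hex ≠ 0 := by
    intro h0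
    have h1 := Nat.find_spec hex
    rw [h0, pow_zero, one_smul] at h1
    exact hg0W (hker _ h1)
  obtain ⟨j, hj⟩ := Nat.exists_eq_succ_of_ne_zero hn0
  have hj1 : q ^ (j + 1) • f ⟨g0, hg0G⟩ = 0 := by
    have h1 := Nat.find_spec hex
    rw [hj] at h1
    exact h1
  have hj0 : q ^ j • f ⟨g0, hg0G⟩ ≠ 0 := Nat.find_min hex (by omega)
  refine ⟨j, W, hWo, ⟨_, hj0⟩, fun g hg => ?_⟩
  by_contra hgne
  obtain ⟨c, hc⟩ := hT.uni (f ⟨g0, hg0G⟩) (f g) j hj1 hgne
  have h2 : f (⟨g0, hg0G⟩ - c • g) = 0 := by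
    rw [map_sub, map_zsmul, ← hc, sub_self]
  have h3 := hker _ h2
  have h4 : (g0 : K) - c • (g : K) ∈ W := by simpa using h3
  have h5 : (g0 : K) ∈ W := by
    have := W.add_mem h4 (W.zsmul_mem hg c)
    simpa using this
  exact hg0W h5

lemma HDM.P1b (h : HDM G) (hT : QC q T) (hq : q.Prime) (f : G →+ T) (s : G) (hs : q • s = 0)
    (hfs : f s ≠ 0) : ∃ e : ℕ, ∀ g, q ^ e • f g = 0 := by
  obtain ⟨j, W, hW, -, hj⟩ := h.P1 hT hq f s hs hfs
  haveI : Finite (K ⧸ W) := AddSubgroup.quotient_finite_of_isOpen W hW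
  obtain ⟨e, he⟩ := hT.bound hq (Nat.card (K ⧸ W)) Nat.card_pos.ne'
  refine ⟨e + j, fun g => ?_⟩
  rw [pow_add, mul_smul]
  apply he
  rw [smul_comm, ← map_nsmul]
  apply hj
  have h1 : Nat.card (K ⧸ W) • (QuotientAddGroup.mk (g : K) : K ⧸ W) = 0 := card_nsmul_eq_zero'
  have h2 : (QuotientAddGroup.mk (Nat.card (K ⧸ W) • (g : K)) : K ⧸ W) = 0 := h1
  have h3 := (QuotientAddGroup.eq_zero_iff _).mp h2
  simpa using h3

lemma HDM.P1c (h : HDM G) (hT : QC q T) (hq : q.Prime) (f : G →+ T) (s : G) (hs : q • s = 0)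
    (hfs : f s ≠ 0) (k : ℕ) (hk1 : q ^ (k + 1) • f = 0) : Cont (q ^ k • f) := by
  obtain ⟨j, W, hW, ⟨g, hg⟩, hj⟩ := h.P1 hT hq f s hs hfs
  have hjk : j ≤ k := by
    by_contra hcon
    push Not at hcon
    apply hg
    obtain ⟨d, rfl⟩ := Nat.exists_eq_add_of_le (Nat.succ_le_of_lt hcon)
    have h1 : q ^ (k + 1) • f g = 0 := by
      have := DFunLike.congr_fun hk1 g
      simpa using this
    rw [Nat.succ_eq_add_one, pow_add _ (k + 1) d, mul_comm, mul_smul, h1, smul_zero]
  obtain ⟨d, rfl⟩ := Nat.exists_eq_add_of_le hjk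
  refine ⟨W, hW, fun x hx => ?_⟩
  rw [AddMonoidHom.nsmul_apply, add_comm, pow_add, mul_smul, hj x hx, smul_zero]

omit [CompactSpace K] [T2Space K] in
lemma HDM.approx (h : HDM G) (z : K) (U : AddSubgroup K) (hU : IsOpen (U : Set K)) :
    ∃ g : G, z - g ∈ U := by
  have hcont : Continuous (fun x : K => z - x) := continuous_const.sub continuous_id
  obtain ⟨g, hg, hgG⟩ := h.dense.inter_open_nonempty _ (hU.preimage hcont) ⟨z, by
    show z - z ∈ U
    rw [sub_self]; exact U.zero_mem⟩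
  exact ⟨⟨g, hgG⟩, hg⟩

lemma HDM.P2 (h : HDM G) (hT : QC q T) (hq : q.Prime) :
    ∀ (n : ℕ) (z : K), q ^ n • z = 0 → z ∈ G := by
  intro n
  induction n with
  | zero =>
    intro z hz
    rw [pow_zero, one_smul] at hz
    rw [hz]; exact G.zero_mem
  | succ n ih =>
    intro z hz
    have hs1 : q • (q ^ n • z) = 0 := by rw [← mul_smul, ← pow_succ', hz]
    have hs : q ^ n • z ∈ G := h.mem_of_prime hq hs1 G le_rfl h.dense
    by_cases hex : ∃ g : G, q ^ n • z = q ^ n • (g : K)
    · obtain ⟨g, hg⟩ := hex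
      have h1 : z - g ∈ G := ih _ (by rw [smul_sub, hg, sub_self])
      have h2 := G.add_mem h1 g.2
      simpa using h2
    · exfalso
      have hn : n ≠ 0 := by
        rintro rfl
        apply hex
        rw [pow_zero, one_smul] at hs
        exact ⟨⟨z, hs⟩, rfl⟩
      obtain ⟨m, rfl⟩ := Nat.exists_eq_succ_of_ne_zero hn
      have hqz : q • z ∈ G := ih _ (by rw [← mul_smul, ← pow_succ, hz])
      let s : G := ⟨q ^ (m + 1) • z, hs⟩
      let H : AddSubgroup G := (nsmulAddMonoidHom (α := G) (q ^ (m + 1))).range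
      obtain ⟨φ, hφ⟩ := hT.exists_ne hq (QuotientAddGroup.mk s : G ⧸ H)
        (by
          have : q • s = 0 := Subtype.ext (by simpa [s] using hs1)
          calc q • (QuotientAddGroup.mk s : G ⧸ H) = (QuotientAddGroup.mk (q • s) : G ⧸ H) := rfl
            _ = 0 := by rw [this]; rfl)
        (by
          intro h0
          obtain ⟨g, hg⟩ := (QuotientAddGroup.eq_zero_iff _).mp h0
          apply hex
          refine ⟨g, ?_⟩
          have := congrArg (fun x : G => (x : K)) hg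
          simp [s] at this
          exact this.symm)
      let f : G →+ T := φ.comp (QuotientAddGroup.mk' H)
      have hfs : f s ≠ 0 := hφ
      have hkill : q ^ (m + 1) • f = 0 := by
        ext g
        rw [AddMonoidHom.nsmul_apply, ← map_nsmul]
        show φ (QuotientAddGroup.mk (q ^ (m + 1) • g) : G ⧸ H) = 0
        have : (QuotientAddGroup.mk (q ^ (m + 1) • g) : G ⧸ H) = 0 :=
          (QuotientAddGroup.eq_zero_iff _).mpr ⟨g, rfl⟩
        rw [this, map_zero]
      have hqs : q • s = 0 := Subtype.ext (by simpa [s] using hs1)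
      obtain ⟨U, hU, hUf⟩ := h.P1c hT hq f s hqs hfs m hkill
      obtain ⟨g, hg⟩ := h.approx z U hU
      have h1 : (((⟨q • z, hqz⟩ : G) - q • g : G) : K) ∈ U := by
        have := U.nsmul_mem hg q
        simpa [smul_sub] using this
      have h2 := hUf _ h1
      have h3 : (q ^ m • f) (q • g) = 0 := by
        rw [map_nsmul, AddMonoidHom.nsmul_apply, ← mul_smul, ← pow_succ']
        exact DFunLike.congr_fun hkill g
      rw [map_sub, h3, sub_zero, AddMonoidHom.nsmul_apply, ← map_nsmul] at h2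
      apply hfs
      rw [← h2]
      congr 1
      apply Subtype.ext
      show q ^ (m + 1) • z = ((q ^ m • (⟨q • z, hqz⟩ : G) : G) : K)
      rw [AddSubgroup.coe_nsmul, ← mul_smul, pow_succ]

/-- Extension of a continuous homomorphism to the compact group. -/
lemma Cont.extend (h : HDM G) (hT : QC q T) {χ : G →+ T} (hχ : Cont χ) :
    ∃ (U : AddSubgroup K) (χ' : K →+ T), IsOpen (U : Set K) ∧ (∀ z ∈ U, χ' z = 0) ∧
      ∀ g : G, χ' g = χ g := by
  obtain ⟨U, hU, hUχ⟩ := hχ
  obtain ⟨γ, hγ⟩ := hT.fe ((QuotientAddGroup.mk' U).comp G.subtype) χ (by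
    intro g hg
    apply hUχ
    exact (QuotientAddGroup.eq_zero_iff _).mp hg)
  refine ⟨U, γ.comp (QuotientAddGroup.mk' U), hU, fun z hz => ?_, fun g => hγ g⟩
  have : (QuotientAddGroup.mk' U) z = 0 := (QuotientAddGroup.eq_zero_iff _).mpr hz
  rw [AddMonoidHom.comp_apply, this, map_zero]

lemma HDM.Div (h : HDM G) (hT : QC q T) (hq : q.Prime) (n : ℕ) (χ : G →+ T) (hχ : Cont χ)
    (hkill : ∀ g : G, q ^ n • g = 0 → χ g = 0) : ∃ χ' : G →+ T, Cont χ' ∧ q ^ n • χ' = χ := by
  obtain ⟨U, χt, hU, hUχ, hχt⟩ := Cont.extend h hT hχ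
  have hlc : ∀ z w : K, z - w ∈ U → χt z = χt w := by
    intro z w hzw
    have := hUχ _ hzw
    rwa [map_sub, sub_eq_zero] at this
  have hZc : IsClosed {z : K | χt z ≠ 0} := by
    rw [← isOpen_compl_iff, isOpen_iff_mem_nhds]
    intro z hz
    have hz' : χt z = 0 := by simpa using hz
    have hcont : Continuous (fun x : K => x - z) := continuous_id.sub continuous_const
    have : (fun x : K => x - z) ⁻¹' (U : Set K) ∈ nhds z := by
      apply (hU.preimage hcont).mem_nhds
      show z - z ∈ U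
      rw [sub_self]; exact U.zero_mem
    filter_upwards [this] with x hx
    have := hlc x z hx
    simp [this, hz']
  have hcontq : Continuous (fun x : K => q ^ n • x) := continuous_const_smul _
  have himg : IsClosed ((fun x : K => q ^ n • x) '' {z : K | χt z ≠ 0}) :=
    (hZc.isCompact.image hcontq).isClosed
  have h0 : (0 : K) ∈ ((fun x : K => q ^ n • x) '' {z : K | χt z ≠ 0})ᶜ := by
    rintro ⟨z, hz, hz0⟩
    have hzG : z ∈ G := h.P2 hT hq n z hz0
    apply hz
    have h1 := hχt ⟨z, hzG⟩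
    have h2 := hkill ⟨z, hzG⟩ (Subtype.ext (by simpa using hz0))
    rw [h2] at h1
    exact h1
  obtain ⟨V, hV⟩ := NonarchimedeanAddGroup.is_nonarchimedean _
    (himg.isOpen_compl.mem_nhds h0)
  obtain ⟨γ, hγ⟩ := hT.fe ((QuotientAddGroup.mk' V.toAddSubgroup).comp
    (nsmulAddMonoidHom (α := K) (q ^ n))) χt (by
    intro z hz
    have hz' : q ^ n • z ∈ V.toAddSubgroup := (QuotientAddGroup.eq_zero_iff _).mp hz
    by_contra hcon
    exact hV hz' ⟨z, hcon, rfl⟩)
  refine ⟨(γ.comp (QuotientAddGroup.mk' V.toAddSubgroup)).comp G.subtype,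
    ⟨V.toAddSubgroup, V.isOpen', fun g hg => ?_⟩, ?_⟩
  · have : (QuotientAddGroup.mk' V.toAddSubgroup) (g : K) = 0 :=
      (QuotientAddGroup.eq_zero_iff _).mpr hg
    show γ ((QuotientAddGroup.mk' V.toAddSubgroup) (g : K)) = 0
    rw [this, map_zero]
  · ext g
    rw [AddMonoidHom.nsmul_apply, ← map_nsmul, ← hχt g, ← hγ g]
    rfl

omit [TopologicalSpace K] [NonarchimedeanAddGroup K] [CompactSpace K] [T2Space K] in
lemma absDiv (hT : QC q T) (f : G →+ T) (hkill : ∀ g : G, q • g = 0 → f g = 0) :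
    ∃ f' : G →+ T, q • f' = f := by
  obtain ⟨γ, hγ⟩ := hT.fe (nsmulAddMonoidHom (α := G) q) f hkill
  refine ⟨γ, ?_⟩
  ext g
  rw [AddMonoidHom.nsmul_apply, ← map_nsmul]
  exact hγ g

/-- Every homomorphism is continuous when there is `q`-torsion. -/
lemma HDM.lemmaC (h : HDM G) (hT : QC q T) (hq : q.Prime) (s : K) (hs : q • s = 0)
    (hs0 : s ≠ 0) (f : G →+ T) : Cont f := by
  have hsG : s ∈ G := h.mem_of_prime hq hs G le_rfl h.dense
  have hqs : q • (⟨s, hsG⟩ : G) = 0 := Subtype.ext (by simpa using hs)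
  have hs0' : (⟨s, hsG⟩ : G) ≠ 0 := fun h0 => hs0 (congrArg Subtype.val h0)
  obtain ⟨f1, hf1⟩ := hT.exists_ne hq (⟨s, hsG⟩ : G) hqs hs0'
  obtain ⟨k1, hk1⟩ := h.P1b hT hq f1 _ hqs hf1
  -- the case of bounded exponent
  have key : ∀ (k : ℕ) (f : G →+ T), q ^ k • f = 0 → Cont f := by
    intro k
    induction k with
    | zero =>
      intro f hf
      rw [pow_zero, one_smul] at hf
      subst hf
      exact ⟨⊤, isOpen_univ, fun _ _ => rfl⟩
    | succ k ih =>
      intro f hf
      by_cases hc : Cont (q ^ k • f)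
      · obtain ⟨χ', hχ', hχe⟩ := h.Div hT hq k _ hc (by
          intro g hg
          rw [AddMonoidHom.nsmul_apply, ← map_nsmul, hg, map_zero])
        have h1 : Cont (f - χ') := ih _ (by rw [smul_sub, hχe, sub_self])
        have h2 := h1.add hχ'
        rwa [sub_add_cancel] at h2
      · exfalso
        have hroot : ∀ j : ℕ, ∃ F : G →+ T, q ^ (k + j) • F = q ^ k • f ∧
            ∀ g : G, q • g = 0 → F g = 0 := by
          have hks : ∀ (j : ℕ) (F : G →+ T), q ^ (k + j) • F = q ^ k • f →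
              ∀ g : G, q • g = 0 → F g = 0 := by
            intro j F hF g hg
            by_contra hne
            apply hc
            rw [← hF]
            refine h.P1c hT hq F g hg hne (k + j) ?_
            rw [pow_succ', mul_smul, hF, ← mul_smul, ← pow_succ', hf]
          intro j
          induction j with
          | zero => exact ⟨f, by rw [add_zero], hks 0 f (by rw [add_zero])⟩
          | succ j ihj =>
            obtain ⟨F, hF, hFk⟩ := ihj
            obtain ⟨F', hF'⟩ := absDiv hT F hFk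
            have h1 : q ^ (k + (j + 1)) • F' = q ^ k • f := by
              rw [← add_assoc, pow_succ, mul_smul, hF', hF]
            exact ⟨F', h1, hks _ F' h1⟩
        obtain ⟨F, hF, hFk⟩ := hroot k1
        have hk1' : q ^ (k + k1) • f1 = 0 := by
          ext g
          rw [AddMonoidHom.nsmul_apply, pow_add, mul_smul, hk1 g, smul_zero]
          rfl
        have hsum : q ^ (k + k1) • (F + f1) = q ^ k • f := by
          rw [smul_add, hF, hk1', add_zero]
        apply hc
        rw [← hsum]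
        refine h.P1c hT hq (F + f1) ⟨s, hsG⟩ hqs ?_ (k + k1) ?_
        · rw [AddMonoidHom.add_apply, hFk _ hqs, zero_add]
          exact hf1
        · rw [pow_succ', mul_smul, hsum, ← mul_smul, ← pow_succ', hf]
  by_cases hfs : f ⟨s, hsG⟩ = 0
  · obtain ⟨e, he⟩ := h.P1b hT hq (f + f1) _ hqs (by
      rw [AddMonoidHom.add_apply, hfs, zero_add]; exact hf1)
    have h1 : Cont (f + f1) := key e _ (by ext g; simpa using he g)
    have h2 : Cont (-f1) := key k1 _ (by
      ext g
      rw [AddMonoidHom.nsmul_apply, AddMonoidHom.neg_apply, smul_neg, hk1 g, neg_zero]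
      rfl)
    have h3 := h1.add h2
    rwa [add_neg_cancel_right] at h3
  · obtain ⟨e, he⟩ := h.P1b hT hq f _ hqs hfs
    exact key e _ (by ext g; simpa using he g)

lemma mem_open_of_closure {S : AddSubgroup K} {x : K} (hx : x ∈ closure (S : Set K))
    (U : AddSubgroup K) (hU : IsOpen (U : Set K)) : ∃ t ∈ S, x - t ∈ U := by
  have hcont : Continuous (fun y : K => x - y) := continuous_const.sub continuous_id
  obtain ⟨t, ht, htS⟩ := mem_closure_iff.mp hx _ (hU.preimage hcont) (by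
    show x - x ∈ U
    rw [sub_self]; exact U.zero_mem)
  exact ⟨t, htS, ht⟩

/-- A continuous homomorphism killing `S` kills the closure of `S`. -/
lemma Cont.closure {f : G →+ T} (hf : Cont f) (S : AddSubgroup K) (hS : S ≤ G)
    (hfS : ∀ x (hx : x ∈ S), f ⟨x, hS hx⟩ = 0) (x : G) (hx : (x : K) ∈ closure (S : Set K)) :
    f x = 0 := by
  obtain ⟨U, hU, hUf⟩ := hf
  obtain ⟨t, htS, ht⟩ := mem_open_of_closure hx U hU
  have h1 : f (x - ⟨t, hS htS⟩) = 0 := hUf _ ht
  rw [map_sub, hfS t htS, sub_zero] at h1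
  exact h1

/-- Core. -/
lemma HDM.core (h : HDM G) (hT : QC q T) (hq : q.Prime) (S : AddSubgroup K) (hS : S ≤ G)
    (s : K) (hs : q • s = 0) (hsc : s ∈ closure (S : Set K)) : s ∈ S := by
  by_cases hs0 : s = 0
  · rw [hs0]; exact S.zero_mem
  have hsG : s ∈ G := h.mem_of_prime hq hs G le_rfl h.dense
  by_contra hsS
  let H : AddSubgroup G := S.addSubgroupOf G
  obtain ⟨φ, hφ⟩ := hT.exists_ne hq (QuotientAddGroup.mk (⟨s, hsG⟩ : G) : G ⧸ H)
    (by
      have : q • (⟨s, hsG⟩ : G) = 0 := Subtype.ext (by simpa using hs)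
      calc q • (QuotientAddGroup.mk (⟨s, hsG⟩ : G) : G ⧸ H)
          = (QuotientAddGroup.mk (q • (⟨s, hsG⟩ : G)) : G ⧸ H) := rfl
        _ = 0 := by rw [this]; rfl)
    (by
      intro h0
      have h1 := (QuotientAddGroup.eq_zero_iff _).mp h0
      exact hsS (AddSubgroup.mem_addSubgroupOf.mp h1))
  have hcont : Cont (φ.comp (QuotientAddGroup.mk' H)) := h.lemmaC hT hq s hs hs0 _
  apply hφ
  refine hcont.closure S hS (fun x hx => ?_) ⟨s, hsG⟩ hsc
  have : (QuotientAddGroup.mk' H) ⟨x, hS hx⟩ = 0 :=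
    (QuotientAddGroup.eq_zero_iff _).mpr (AddSubgroup.mem_addSubgroupOf.mpr hx)
  rw [AddMonoidHom.comp_apply, this, map_zero]

end Main

end Pool.Agent.H519DM
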