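import Pool.Agent.H519_DM.A1

set_option autoImplicit false

namespace Pool.Agent.H519DM

section TQ

variable (q : ℕ)

/-- The `q`-primary part of `ℚ/ℤ`. -/
def TQ : AddSubgroup (AddCircle (1 : ℚ)) where
  carrier := {x | ∃ n : ℕ, q ^ n • x = 0}
  zero_mem' := ⟨0, smul_zero _⟩
  add_mem' := by
    rintro x y ⟨n, hn⟩ ⟨m, hm⟩
    refine ⟨n + m, ?_⟩
    rw [smul_add, pow_add, mul_smul (q ^ n) (q ^ m) y, hm, smul_zero, mul_comm, mul_smul, hn,
      smul_zero, add_zero]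
  neg_mem' := by
    rintro x ⟨n, hn⟩
    exact ⟨n, by rw [smul_neg, hn, neg_zero]⟩

variable {q}

lemma socle_rep (hq : q.Prime) (x : AddCircle (1 : ℚ)) (hx : q • x = 0) :
    ∃ n : ℤ, x = ((n / q : ℚ) : AddCircle (1 : ℚ)) := by
  obtain ⟨y, rfl⟩ := QuotientAddGroup.mk_surjective x
  have h1 : ((q • y : ℚ) : AddCircle (1 : ℚ)) = 0 := hx
  rw [AddCircle.coe_eq_zero_iff] at h1
  obtain ⟨n, hn⟩ := h1
  refine ⟨n, ?_⟩
  have hq0 : (q : ℚ) ≠ 0 := by exact_mod_cast hq.ne_zero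
  have : y = (n / q : ℚ) := by
    rw [eq_div_iff hq0]
    simp at hn
    rw [hn]; ring
  rw [this]

lemma socle_cyclic (hq : q.Prime) (x e : AddCircle (1 : ℚ)) (hx : q • x = 0) (he : q • e = 0)
    (he0 : e ≠ 0) : ∃ c : ℤ, x = c • e := by
  obtain ⟨n, rfl⟩ := socle_rep hq x hx
  obtain ⟨m, rfl⟩ := socle_rep hq e he
  have hq0 : (q : ℚ) ≠ 0 := by exact_mod_cast hq.ne_zero
  have hm : ¬ (q : ℤ) ∣ m := by
    rintro ⟨d, rfl⟩
    apply he0
    rw [AddCircle.coe_eq_zero_iff]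
    refine ⟨d, ?_⟩
    push_cast
    field_simp
    simp
  have hcop : IsCoprime (q : ℤ) m :=
    (Nat.prime_iff_prime_int.mp hq).coprime_iff_not_dvd.mpr hm
  obtain ⟨a, b, hab⟩ := hcop
  refine ⟨n * b, ?_⟩
  have h1 : (n * b) • ((m / q : ℚ) : AddCircle (1 : ℚ)) = (((n * b) • (m / q : ℚ) : ℚ) :
      AddCircle (1 : ℚ)) := rfl
  rw [h1]
  rw [← sub_eq_zero]
  have h2 : ((n / q : ℚ) : AddCircle (1 : ℚ)) - (((n * b) • (m / q : ℚ) : ℚ) :
      AddCircle (1 : ℚ)) = ((n / q - (n * b) • (m / q) : ℚ) : AddCircle (1 : ℚ)) := rfl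
  rw [h2, AddCircle.coe_eq_zero_iff]
  refine ⟨n * a, ?_⟩
  have hab' : (a : ℚ) * q + b * m = 1 := by exact_mod_cast hab
  simp only [zsmul_eq_mul, mul_one]
  push_cast
  field_simp
  linear_combination (n : ℚ) * hab'

lemma uni_aux (hq : q.Prime) : ∀ (m : ℕ) (a b : AddCircle (1 : ℚ)), q ^ (m + 1) • a = 0 →
    q ^ (m + 1) • b = 0 → q ^ m • b ≠ 0 → ∃ c : ℤ, a = c • b := by
  intro m
  induction m with
  | zero =>
    intro a b ha hb hb0
    rw [pow_zero, one_smul] at hb0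
    rw [zero_add, pow_one] at ha hb
    exact socle_cyclic hq a b ha hb hb0
  | succ m ih =>
    intro a b ha hb hb0
    obtain ⟨c, hc⟩ := ih (q • a) (q • b) (by rw [← mul_smul, ← pow_succ, ha])
      (by rw [← mul_smul, ← pow_succ, hb]) (by rw [← mul_smul, ← pow_succ]; exact hb0)
    obtain ⟨d, hd⟩ := socle_cyclic hq (a - c • b) (q ^ (m + 1) • b)
      (by rw [smul_sub, hc, smul_comm, sub_self])
      (by rw [← mul_smul, ← pow_succ', hb]) hb0
    refine ⟨d * (q ^ (m + 1) : ℕ) + c, ?_⟩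
    rw [add_smul, mul_smul, natCast_zsmul, ← hd, sub_add_cancel]

lemma uni_aux2 (hq : q.Prime) (m : ℕ) (a b : AddCircle (1 : ℚ)) (ha : q ^ (m + 1) • a = 0)
    (hb0 : q ^ m • b ≠ 0) (hb : ∃ n : ℕ, q ^ n • b = 0) : ∃ c : ℤ, a = c • b := by
  classical
  have hn0 : m < Nat.find hb := by
    by_contra hcon
    push Not at hcon
    apply hb0
    obtain ⟨d, hd⟩ := Nat.exists_eq_add_of_le hcon
    rw [hd, pow_add, mul_comm, mul_smul, Nat.find_spec hb, smul_zero]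
  obtain ⟨d, hd⟩ := Nat.exists_eq_add_of_lt hn0
  have h1 : q ^ (m + d + 1) • b = 0 := by rw [← hd]; exact Nat.find_spec hb
  have h2 : q ^ (m + d) • b ≠ 0 := Nat.find_min hb (by omega)
  refine uni_aux hq (m + d) a b ?_ h1 h2
  rw [show m + d + 1 = d + (m + 1) by ring, pow_add, mul_smul, ha, smul_zero]

lemma div_aux (hq : q.Prime) (n : ℤ) (hn : n ≠ 0) (x : TQ q) : ∃ y : TQ q, n • y = x := by
  obtain ⟨m, hm⟩ := x.2
  obtain ⟨y0, hy0⟩ : ∃ y0 : AddCircle (1 : ℚ), n • y0 = (x : AddCircle (1 : ℚ)) := by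
    obtain ⟨r, hr⟩ := QuotientAddGroup.mk_surjective (x : AddCircle (1 : ℚ))
    refine ⟨((r / n : ℚ) : AddCircle (1 : ℚ)), ?_⟩
    rw [← hr]
    have h1 : n • ((r / n : ℚ) : AddCircle (1 : ℚ)) = ((n • (r / n) : ℚ) :
      AddCircle (1 : ℚ)) := rfl
    rw [h1]
    have hn' : (n : ℚ) ≠ 0 := by exact_mod_cast hn
    have h2 : n • (r / n) = r := by
      rw [zsmul_eq_mul]; field_simp
    rw [h2]
  obtain ⟨e, n', hn', hnn⟩ := Nat.exists_eq_pow_mul_and_not_dvd (n := n.natAbs)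
    (by omega) q hq.ne_one
  have hcop : Nat.Coprime n' (q ^ (m + e)) :=
    Nat.Coprime.pow_right _ ((Nat.Prime.coprime_iff_not_dvd hq).mpr hn').symm
  have hcop' : IsCoprime (n' : ℤ) ((q ^ (m + e) : ℕ) : ℤ) := Nat.isCoprime_iff_coprime.mpr hcop
  obtain ⟨a, b, hab⟩ := hcop'
  have hkill : (n' * q ^ (m + e)) • y0 = 0 := by
    have h1 : (n.natAbs * q ^ m) • y0 = 0 := by
      rw [mul_comm, mul_smul]
      rcases Int.natAbs_eq n with h | h
      · have : n.natAbs • y0 = (x : AddCircle (1 : ℚ)) := by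
          rw [← hy0]; conv_rhs => rw [h]
          rw [natCast_zsmul]
        rw [this, hm]
      · have : n.natAbs • y0 = -(x : AddCircle (1 : ℚ)) := by
          rw [← hy0]; conv_rhs => rw [h]
          rw [neg_smul, natCast_zsmul, neg_neg]
        rw [this, smul_neg, hm, neg_zero]
    rw [hnn] at h1
    rw [← h1]
    congr 1
    ring
  have hmem : a • (n' : ℤ) • y0 ∈ TQ q := by
    refine ⟨m + e, ?_⟩
    rw [smul_comm, natCast_zsmul, ← mul_smul (q ^ (m + e)), mul_comm, hkill, smul_zero]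
  refine ⟨⟨_, hmem⟩, ?_⟩
  apply Subtype.ext
  show n • a • (n' : ℤ) • y0 = x
  rw [smul_comm n a, smul_comm n (n' : ℤ), hy0, ← mul_smul]
  have h3 : (a * (n' : ℤ)) • (x : AddCircle (1 : ℚ)) + (b * ((q ^ (m + e) : ℕ) : ℤ)) •
      (x : AddCircle (1 : ℚ)) = x := by
    rw [← add_smul, hab, one_smul]
  have h4 : (b * ((q ^ (m + e) : ℕ) : ℤ)) • (x : AddCircle (1 : ℚ)) = 0 := by
    rw [mul_smul, natCast_zsmul, pow_add, mul_comm, mul_smul, hm, smul_zero, smul_zero]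
  rw [h4, add_zero] at h3
  exact h3

theorem QC_TQ (hq : q.Prime) : QC q (TQ q) where
  baer := by
    letI : DivisibleBy (TQ q) ℤ :=
      divisibleByOfSMulRightSurj (TQ q) ℤ (fun {n} hn x => div_aux hq n hn x)
    exact Module.Baer.of_divisible (TQ q)
  tors := by
    rintro ⟨x, n, hn⟩
    exact ⟨n, Subtype.ext hn⟩
  uni := by
    intro a b m ha hb
    obtain ⟨c, hc⟩ := uni_aux2 hq m (a : AddCircle (1 : ℚ)) b
      (congrArg Subtype.val ha) (fun h => hb (Subtype.ext h)) b.2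
    exact ⟨c, Subtype.ext hc⟩
  soc := by
    have hq0 : (q : ℚ) ≠ 0 := by exact_mod_cast hq.ne_zero
    have hk : q • ((1 / q : ℚ) : AddCircle (1 : ℚ)) = 0 := by
      have h1 : q • ((1 / q : ℚ) : AddCircle (1 : ℚ)) = ((q • (1 / q) : ℚ) :
        AddCircle (1 : ℚ)) := rfl
      rw [h1, AddCircle.coe_eq_zero_iff]
      refine ⟨1, ?_⟩
      simp [hq0]
    refine ⟨⟨((1 / q : ℚ) : AddCircle (1 : ℚ)), 1, by rw [pow_one]; exact hk⟩, ?_,
      Subtype.ext hk⟩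
    intro h0
    have h1 : ((1 / q : ℚ) : AddCircle (1 : ℚ)) = 0 := congrArg Subtype.val h0
    rw [AddCircle.coe_eq_zero_iff] at h1
    obtain ⟨n, hn⟩ := h1
    simp only [zsmul_eq_mul, mul_one] at hn
    have h2 : (n : ℚ) * q = 1 := by rw [hn]; field_simp
    have h3 : n * (q : ℤ) = 1 := by exact_mod_cast h2
    have h4 : (q : ℤ) ∣ 1 := ⟨n, by rw [mul_comm]; exact h3.symm⟩
    have h5 : q ∣ 1 := by exact_mod_cast h4
    exact hq.one_lt.ne' (Nat.dvd_one.mp h5)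

end TQ

end Pool.Agent.H519DM
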