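import Pool.Agent.H519_DM.A2
import Pool.Agent.H519_DM.A3

set_option autoImplicit false

namespace Pool.Agent.H519DM

section Main

variable {K : Type*} [AddCommGroup K] [TopologicalSpace K] [NonarchimedeanAddGroup K]
  [CompactSpace K] [T2Space K] {G : AddSubgroup K}

/-- If there is torsion, every subgroup of `G` is essential in its closure. -/
lemma HDM.essential_of_torsion (h : HDM G) (q : ℕ) (hq : q.Prime) (s : K) (hs : q • s = 0)
    (hs0 : s ≠ 0) (S : AddSubgroup K) (hS : S ≤ G) (N : AddSubgroup K)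
    (hN : IsClosed (N : Set K)) (hNS : (N : Set K) ⊆ closure (S : Set K))
    (hdis : ∀ x ∈ S, x ∈ N → x = 0) : ∀ y ∈ N, y = 0 := by
  by_contra hcon
  push Not at hcon
  obtain ⟨x, hxG, hxN, hx0⟩ := h.ess G le_rfl h.dense N hN hcon
  by_cases hfin : IsOfFinAddOrder x
  · have hord : addOrderOf x ≠ 1 := by
      intro h1
      exact hx0 (AddMonoid.addOrderOf_eq_one_iff.mp h1)
    obtain ⟨p, hp, hpd⟩ := Nat.exists_prime_and_dvd hord
    obtain ⟨m, hm⟩ := hpd
    have hmpos : 0 < m := by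
      rcases Nat.eq_zero_or_pos m with h0 | h0
      · rw [h0, mul_zero] at hm
        exact absurd hm (addOrderOf_pos_iff.mpr hfin).ne'
      · exact h0
    have hpy : p • (m • x) = 0 := by
      rw [← mul_smul, ← hm, addOrderOf_nsmul_eq_zero]
    have hy0 : m • x ≠ 0 := by
      intro h0
      have h1 : addOrderOf x ∣ m := addOrderOf_dvd_of_nsmul_eq_zero h0
      have h2 := Nat.le_of_dvd hmpos h1
      have h3 : m * 2 ≤ p * m := by
        rw [mul_comm m 2]; exact Nat.mul_le_mul_right m hp.two_le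
      omega
    have hyN : m • x ∈ N := N.nsmul_mem hxN m
    have hyS : m • x ∈ S := h.core (QC_TQ hp) hp S hS _ hpy (hNS hyN)
    exact hy0 (hdis _ hyS hyN)
  · have hinf : ∀ n : ℤ, n • x ∈ S → n = 0 := by
      intro n hn
      have h1 := hdis _ hn (N.zsmul_mem hxN n)
      by_contra hn0
      exact hfin (isOfFinAddOrder_iff_zsmul_eq_zero.mpr ⟨n, hn0, h1⟩)
    let H : AddSubgroup G := S.addSubgroupOf G
    obtain ⟨φ, hφ⟩ := (QC_TQ hq).exists_ne' (QuotientAddGroup.mk (⟨x, hxG⟩ : G) : G ⧸ H) (by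
      intro n hn
      apply hinf
      have h1 : (QuotientAddGroup.mk (n • (⟨x, hxG⟩ : G)) : G ⧸ H) = 0 := hn
      have h2 := (QuotientAddGroup.eq_zero_iff _).mp h1
      exact AddSubgroup.mem_addSubgroupOf.mp h2)
    have hcont : Cont (φ.comp (QuotientAddGroup.mk' H)) := h.lemmaC (QC_TQ hq) hq s hs hs0 _
    apply hφ
    refine hcont.closure S hS (fun y hy => ?_) ⟨x, hxG⟩ (hNS hxN)
    have : (QuotientAddGroup.mk' H) ⟨y, hS hy⟩ = 0 :=
      (QuotientAddGroup.eq_zero_iff _).mpr (AddSubgroup.mem_addSubgroupOf.mpr hy)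
    rw [AddMonoidHom.comp_apply, this, map_zero]

end Main

section Quot

variable {K : Type*} [AddCommGroup K] [TopologicalSpace K] [NonarchimedeanAddGroup K]

instance nonarch_quotient (N : AddSubgroup K) : NonarchimedeanAddGroup (K ⧸ N) where
  is_nonarchimedean := by
    intro V hV
    have h1 : (QuotientAddGroup.mk : K → K ⧸ N) ⁻¹' V ∈ nhds (0 : K) :=
      (QuotientAddGroup.continuous_mk (N := N)).continuousAt.preimage_mem_nhds (by exact hV)
    obtain ⟨U, hU⟩ := NonarchimedeanAddGroup.is_nonarchimedean _ h1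
    refine ⟨⟨U.toAddSubgroup.map (QuotientAddGroup.mk' N), ?_⟩, ?_⟩
    · exact (QuotientAddGroup.isOpenMap_coe (N := N)) _ U.isOpen'
    · rintro _ ⟨u, hu, rfl⟩
      exact hU hu

end Quot

section Free

variable {K : Type*} [AddCommGroup K] [TopologicalSpace K] [NonarchimedeanAddGroup K]
  [CompactSpace K] [T2Space K] {G : AddSubgroup K}

/-- A nonzero compact nonarchimedean group is not divisible by some prime. -/
lemma exists_prime_not_div (N : AddSubgroup K) (hN : ∃ y ∈ N, y ≠ 0) :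
    ∃ p : ℕ, p.Prime ∧ ∃ y ∈ N, ∀ x ∈ N, y ≠ p • x := by
  obtain ⟨y, hyN, hy0⟩ := hN
  have hnb : ({y}ᶜ : Set K) ∈ nhds (0 : K) := isOpen_compl_singleton.mem_nhds (by
    intro h; exact hy0 h.symm)
  obtain ⟨U, hU⟩ := NonarchimedeanAddGroup.is_nonarchimedean _ hnb
  have hyU : y ∉ U.toAddSubgroup := fun h => hU h rfl
  haveI : Finite (K ⧸ U.toAddSubgroup) := AddSubgroup.quotient_finite_of_isOpen _ U.isOpen'
  let A : AddSubgroup (K ⧸ U.toAddSubgroup) := N.map (QuotientAddGroup.mk' U.toAddSubgroup)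
  haveI : Finite A := inferInstance
  have hcard : Nat.card A ≠ 1 := by
    intro h1
    haveI : Subsingleton A := (Nat.card_eq_one_iff_unique.mp h1).1
    have h2 : (⟨QuotientAddGroup.mk' _ y, ⟨y, hyN, rfl⟩⟩ : A) = 0 := Subsingleton.elim _ _
    have h3 : (QuotientAddGroup.mk' U.toAddSubgroup) y = 0 := congrArg Subtype.val h2
    exact hyU ((QuotientAddGroup.eq_zero_iff _).mp h3)
  obtain ⟨p, hp, hpd⟩ := Nat.exists_prime_and_dvd hcard
  refine ⟨p, hp, ?_⟩
  by_contra hcon
  push Not at hcon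
  haveI : Fact p.Prime := ⟨hp⟩
  -- multiplication by p on A is surjective hence injective
  have hsurj : Function.Surjective (fun a : A => p • a) := by
    rintro ⟨_, ⟨z, hz, rfl⟩⟩
    obtain ⟨x, hx, hzx⟩ := hcon z hz
    refine ⟨⟨QuotientAddGroup.mk' _ x, ⟨x, hx, rfl⟩⟩, ?_⟩
    apply Subtype.ext
    show p • (QuotientAddGroup.mk' U.toAddSubgroup) x = _
    rw [← map_nsmul, ← hzx]
  have hinj : Function.Injective (fun a : A => p • a) := Finite.injective_iff_surjective.mpr hsurj
  obtain ⟨a, ha⟩ := exists_prime_addOrderOf_dvd_card' p hpd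
  have ha0 : p • a = 0 := by rw [← ha]; exact addOrderOf_nsmul_eq_zero a
  have ha1 : a = 0 := hinj (by simpa using ha0)
  rw [ha1, addOrderOf_zero] at ha
  exact hp.one_lt.ne ha

end Free

end Pool.Agent.H519DM
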