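import Pool.Agent.H519_DM.A4

set_option autoImplicit false

namespace Pool.Agent.H519DM

open Topology

/-- Minimality. -/
def Minimal' (G : Type*) [AddCommGroup G] [t : TopologicalSpace G] : Prop :=
  T2Space G ∧ ∀ t' : TopologicalSpace G, @IsTopologicalAddGroup G t' _ → @T2Space G t' →
    t ≤ t' → t' = t

/-- A continuous injective homomorphism from a minimal group to a Hausdorff group is inducing. -/
lemma Minimal'.inducing {D K : Type*} [AddCommGroup D] [TopologicalSpace D]
    (hmin : Minimal' D) [AddCommGroup K] [TopologicalSpace K] [IsTopologicalAddGroup K]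
    [T2Space K] (j : D →+ K) (hc : Continuous j) (hinj : Function.Injective j) :
    IsInducing j := by
  constructor
  symm
  apply hmin.2
  · exact topologicalAddGroup_induced j
  · exact @T2Space.of_injective_continuous D K (TopologicalSpace.induced j inferInstance) _ _ j
      hinj continuous_induced_dom
  · exact continuous_iff_le_induced.mp hc

/-- Density criterion. -/
lemma F1 {D K : Type*} [AddCommGroup D] [TopologicalSpace D]
    (hmin : Minimal' D) [AddCommGroup K] [TopologicalSpace K] [NonarchimedeanAddGroup K]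
    [T2Space K] (j : D →+ K) (hc : Continuous j) (hinj : Function.Injective j)
    (hd : DenseRange j) (N : AddSubgroup K) (hN : IsClosed (N : Set K))
    (hdis : ∀ d, j d ∈ N → d = 0) : ∀ y ∈ N, y = 0 := by
  intro y hy
  by_contra hy0
  have hj := hmin.inducing j hc hinj
  haveI : T2Space (K ⧸ N) := by
    haveI := hN
    infer_instance
  have hj2 : IsInducing ((QuotientAddGroup.mk' N).comp j) := by
    apply hmin.inducing
    · exact (QuotientAddGroup.continuous_mk (N := N)).comp hc
    · rw [injective_iff_map_eq_zero]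
      intro d hd
      exact hdis d ((QuotientAddGroup.eq_zero_iff _).mp hd)
  have hnb : ({y}ᶜ : Set K) ∈ nhds (0 : K) := isOpen_compl_singleton.mem_nhds (by
    intro h; exact hy0 h.symm)
  obtain ⟨U, hU⟩ := NonarchimedeanAddGroup.is_nonarchimedean _ hnb
  have hyU : y ∉ U := fun h => hU h rfl
  have hopen : IsOpen (j ⁻¹' (U : Set K)) := U.isOpen.preimage hc
  obtain ⟨W, hW, hWe⟩ := hj2.isOpen_iff.mp hopen
  have h0W : (0 : K ⧸ N) ∈ W := by
    have : (0 : D) ∈ ((QuotientAddGroup.mk' N).comp j) ⁻¹' W := by
      rw [hWe]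
      show j 0 ∈ (U : Set K)
      rw [map_zero]
      exact U.zero_mem
    have h2 : ((QuotientAddGroup.mk' N).comp j) 0 ∈ W := this
    rwa [map_zero] at h2
  have hcont : Continuous (fun x : K => y - x) := continuous_const.sub continuous_id
  have hO : IsOpen (((fun x : K => y - x) ⁻¹' (U : Set K)) ∩
      ((QuotientAddGroup.mk : K → K ⧸ N) ⁻¹' W)) :=
    (U.isOpen.preimage hcont).inter (hW.preimage (QuotientAddGroup.continuous_mk (N := N)))
  have hyO : y ∈ (((fun x : K => y - x) ⁻¹' (U : Set K)) ∩
      ((QuotientAddGroup.mk : K → K ⧸ N) ⁻¹' W)) := by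
    refine ⟨?_, ?_⟩
    · show y - y ∈ (U : Set K)
      rw [sub_self]; exact U.zero_mem
    · show (QuotientAddGroup.mk y : K ⧸ N) ∈ W
      have : (QuotientAddGroup.mk y : K ⧸ N) = 0 := (QuotientAddGroup.eq_zero_iff _).mpr hy
      rw [this]; exact h0W
  obtain ⟨d, hd1, hd2⟩ := hd.exists_mem_open hO ⟨y, hyO⟩
  have h3 : d ∈ j ⁻¹' (U : Set K) := by
    rw [← hWe]
    exact hd2
  have h4 : y - j d ∈ U := hd1
  have h5 : y ∈ U := by
    have := add_mem h4 h3
    simpa using this
  exact hyU h5

/-- Minimality criterion. -/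
lemma F2 {S K : Type*} [AddCommGroup S] [t : TopologicalSpace S] [IsTopologicalAddGroup S]
    [AddCommGroup K] [TopologicalSpace K] [IsTopologicalAddGroup K] [CompactSpace K]
    [T2Space K] (j : S →+ K) (hj : IsInducing j) (hinj : Function.Injective j)
    (hess : ∀ N : AddSubgroup K, IsClosed (N : Set K) → (N : Set K) ⊆ closure (Set.range j) →
      (∀ s, j s ∈ N → s = 0) → ∀ y ∈ N, y = 0) : Minimal' S := by
  refine ⟨T2Space.of_injective_continuous hinj hj.continuous, ?_⟩
  have hmc : ∀ (B A : Set S) (s : S), j s ∈ closure (j '' B) → IsOpen A → s ∈ A →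
      ∃ x, x ∈ A ∧ x ∈ B := by
    intro B A s hs hA hsA
    have h2 : s ∈ closure B := by
      rw [hj.closure_eq_preimage_closure_image]
      exact hs
    obtain ⟨x, hxA, hxB⟩ := mem_closure_iff.mp h2 A hA hsA
    exact ⟨x, hxA, hxB⟩
  have hnh : nhds (0 : S) = Filter.comap j (nhds 0) := by
    rw [hj.nhds_eq_comap, map_zero]
  have hgr : IsTopologicalAddGroup S := inferInstance
  intro t' ht' hT2' hle
  have hhalf : ∀ V ∈ @nhds S t' 0, ∃ V' ∈ @nhds S t' 0, ∀ v ∈ V', ∀ w ∈ V', v + w ∈ V :=
    fun V hV => @exists_nhds_zero_half S t' _ (ht'.toContinuousAdd) V hV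
  have hneg : ∀ V ∈ @nhds S t' 0, ∃ V' ∈ @nhds S t' 0, ∀ v ∈ V', -v ∈ V := by
    intro V hV
    have hc : @Continuous S S t' t' (fun x => -x) := ht'.toContinuousNeg.continuous_neg
    have h1 : (fun x : S => -x) ⁻¹' V ∈ @nhds S t' 0 := by
      apply (@Continuous.continuousAt S S t' t' _ 0 hc)
      simpa using hV
    exact ⟨_, h1, fun v hv => hv⟩
  let N : AddSubgroup K :=
    { carrier := {x | ∀ V ∈ @nhds S t' 0, x ∈ closure (j '' V)}
      zero_mem' := by
        intro V hV
        apply subset_closure
        exact ⟨0, @mem_of_mem_nhds S t' 0 V hV, map_zero j⟩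
      add_mem' := by
        intro a b ha hb V hV
        obtain ⟨V', hV', h⟩ := hhalf V hV
        refine map_mem_closure₂ continuous_add (ha V' hV') (hb V' hV') ?_
        rintro _ ⟨v, hv, rfl⟩ _ ⟨w, hw, rfl⟩
        exact ⟨v + w, h v hv w hw, map_add j v w⟩
      neg_mem' := by
        intro a ha V hV
        obtain ⟨V', hV', h⟩ := hneg V hV
        refine map_mem_closure continuous_neg (ha V' hV') ?_
        rintro _ ⟨v, hv, rfl⟩
        exact ⟨-v, h v hv, map_neg j v⟩ }
  have hNclosed : IsClosed (N : Set K) := by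
    have : (N : Set K) = ⋂ V ∈ @nhds S t' 0, closure (j '' V) := by
      ext x
      simp only [Set.mem_iInter]
      exact Iff.rfl
    rw [this]
    exact isClosed_biInter (fun _ _ => isClosed_closure)
  have hNrange : (N : Set K) ⊆ closure (Set.range j) := by
    intro x hx
    exact closure_mono (Set.image_subset_range _ _) (hx Set.univ Filter.univ_mem)
  have hNdis : ∀ s, j s ∈ N → s = 0 := by
    intro s hs
    by_contra hs0
    obtain ⟨A, B, hA, hB, hsA, h0B, hdisj⟩ := @t2_separation S t' hT2' s 0 hs0
    have h1 : j s ∈ closure (j '' B) := hs B (@IsOpen.mem_nhds S t' 0 B hB h0B)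
    have hA' : @IsOpen S t A := hle A hA
    obtain ⟨x, hxA, hxB⟩ := hmc B A s h1 hA' hsA
    exact Set.disjoint_left.mp hdisj hxA hxB
  have hN0 := hess N hNclosed hNrange hNdis
  have hmap : Filter.map j (@nhds S t' 0) ≤ nhds (0 : K) := by
    apply le_nhds_of_unique_clusterPt
    intro x hx
    apply hN0
    intro V hV
    exact clusterPt_iff_forall_mem_closure.mp hx _ (Filter.image_mem_map hV)
  have h1 : @nhds S t' 0 ≤ @nhds S t 0 := by
    rw [hnh]
    exact Filter.map_le_iff_le_comap.mp hmap
  have h2 : @nhds S t 0 ≤ @nhds S t' 0 := nhds_mono hle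
  exact IsTopologicalAddGroup.ext ht' hgr (le_antisymm h1 h2)

/-- Transport of minimality. -/
lemma Minimal'.transport {A B : Type*} [AddCommGroup A] [TopologicalSpace A] [AddCommGroup B]
    [tB : TopologicalSpace B] (hA : Minimal' A) (e : A ≃+ B) (he : IsInducing e) :
    Minimal' B := by
  have hT2A := hA.1
  have hec : Continuous e := he.continuous
  have hopen : ∀ U : Set A, IsOpen U → IsOpen (e.symm ⁻¹' U) := by
    intro U hU
    obtain ⟨V, hV, hVU⟩ := he.isOpen_iff.mp hU
    have : e.symm ⁻¹' U = V := by
      rw [← hVU]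
      ext x
      simp
    rw [this]; exact hV
  have hsc : Continuous e.symm := ⟨fun U hU => hopen U hU⟩
  refine ⟨T2Space.of_injective_continuous e.symm.injective hsc, ?_⟩
  have hei := he.eq_induced
  intro t' ht' hT2' hle
  have h1 : TopologicalSpace.induced e t' = TopologicalSpace.induced e tB := by
    rw [← hei]
    apply hA.2
    · haveI := ht'
      exact topologicalAddGroup_induced e
    · exact @T2Space.of_injective_continuous A B (TopologicalSpace.induced e t') t' hT2' e
        e.injective (@continuous_induced_dom A B e t')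
    · rw [hei]
      exact induced_mono hle
  have h2 : ∀ s : TopologicalSpace B, TopologicalSpace.coinduced e
      (TopologicalSpace.induced e s) = s := by
    intro s
    ext U
    rw [isOpen_coinduced]
    constructor
    · intro h
      obtain ⟨V, hV, hVU⟩ := isOpen_induced_iff.mp h
      have : V = U := by
        have := congrArg (fun X => e '' X) hVU
        simpa [Set.image_preimage_eq _ e.surjective] using this
      rw [← this]; exact hV
    · intro h
      exact isOpen_induced_iff.mpr ⟨U, h, rfl⟩
  rw [← h2 t', h1, h2]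

end Pool.Agent.H519DM
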