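import Pool.Agent.H519_DM.A5

set_option autoImplicit false

namespace Pool.Agent.H519DM

open Topology

universe u

/-- The inclusion of `ℚ/ℤ` into `ℝ/ℤ`. -/
noncomputable def ratCircle : AddCircle (1 : ℚ) →+ AddCircle (1 : ℝ) :=
  QuotientAddGroup.map _ _ ((Rat.castHom ℝ : ℚ →+* ℝ) : ℚ →+ ℝ) (by
    rintro x ⟨n, hn⟩
    refine ⟨n, ?_⟩
    rw [← hn]
    simp)

lemma ratCircle_injective : Function.Injective ratCircle := by
  rw [injective_iff_map_eq_zero]
  intro x hx
  obtain ⟨r, rfl⟩ := QuotientAddGroup.mk_surjective x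
  have h1 : ((r : ℝ) : AddCircle (1 : ℝ)) = 0 := hx
  rw [AddCircle.coe_eq_zero_iff] at h1
  obtain ⟨n, hn⟩ := h1
  have h2 : (n : ℚ) = r := by
    have : ((n : ℚ) : ℝ) = (r : ℝ) := by
      rw [← hn]; simp
    exact_mod_cast this
  have : ((r : ℚ) : AddCircle (1 : ℚ)) = 0 := by
    rw [AddCircle.coe_eq_zero_iff]
    exact ⟨n, by rw [← h2]; simp⟩
  exact this

/-- In a minimal nonarchimedean abelian group every open subgroup has finite index. -/
lemma finite_index {G : Type*} [AddCommGroup G] [TopologicalSpace G] [NonarchimedeanAddGroup G]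
    (hmin : Minimal' G) (U : AddSubgroup G) (hU : IsOpen (U : Set G)) : Finite (G ⧸ U) := by
  haveI := hmin.1
  let Ch := {χ : G →+ AddCircle (1 : ℝ) // ∃ V : AddSubgroup G, IsOpen (V : Set G) ∧
    ∀ g ∈ V, χ g = 0}
  let e : G →+ (Ch → AddCircle (1 : ℝ)) :=
    { toFun := fun g χ => χ.1 g
      map_zero' := by ext χ; simp
      map_add' := by intro a b; ext χ; simp }
  have hec : Continuous e := by
    apply continuous_pi
    rintro ⟨χ, V, hV, hχ⟩
    show Continuous χ
    apply continuous_of_continuousAt_zero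
    have h1 : (V : Set G) ∈ nhds (0 : G) := hV.mem_nhds V.zero_mem
    have h2 : ∀ᶠ g in nhds (0 : G), χ g = 0 := by
      filter_upwards [h1] with g hg using hχ g hg
    have h3 : Filter.Tendsto χ (nhds 0) (nhds 0) :=
      tendsto_const_nhds.congr' (h2.mono (fun g hg => hg.symm))
    show Filter.Tendsto χ (nhds 0) (nhds (χ 0))
    rw [map_zero]
    exact h3
  have heinj : Function.Injective e := by
    rw [injective_iff_map_eq_zero]
    intro g hg
    by_contra hg0
    have hnb : ({g}ᶜ : Set G) ∈ nhds (0 : G) := isOpen_compl_singleton.mem_nhds (by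
      intro h; exact hg0 h.symm)
    obtain ⟨V, hV⟩ := NonarchimedeanAddGroup.is_nonarchimedean _ hnb
    have hgV : g ∉ V.toAddSubgroup := fun h => hV h rfl
    have hne : (QuotientAddGroup.mk g : G ⧸ V.toAddSubgroup) ≠ 0 := by
      intro h
      exact hgV ((QuotientAddGroup.eq_zero_iff _).mp h)
    obtain ⟨c, hc⟩ := CharacterModule.exists_character_apply_ne_zero_of_ne_zero hne
    let χ : G →+ AddCircle (1 : ℝ) :=
      (ratCircle.comp (c : (G ⧸ V.toAddSubgroup) →+ AddCircle (1 : ℚ))).comp
        (QuotientAddGroup.mk' V.toAddSubgroup)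
    have hχ : ∀ x ∈ V.toAddSubgroup, χ x = 0 := by
      intro x hx
      have : (QuotientAddGroup.mk' V.toAddSubgroup) x = 0 :=
        (QuotientAddGroup.eq_zero_iff _).mpr hx
      show (ratCircle.comp (c : (G ⧸ V.toAddSubgroup) →+ AddCircle (1 : ℚ)))
        ((QuotientAddGroup.mk' V.toAddSubgroup) x) = 0
      rw [this, map_zero]
    have h1 := congrFun hg ⟨χ, V.toAddSubgroup, V.isOpen', hχ⟩
    have h2 : χ g = 0 := h1
    apply hc
    apply ratCircle_injective
    rw [map_zero]
    exact h2
  have hind := hmin.inducing e hec heinj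
  have hUn : (U : Set G) ∈ nhds (0 : G) := hU.mem_nhds U.zero_mem
  rw [hind.nhds_eq_comap, map_zero] at hUn
  obtain ⟨V, hV, hVU⟩ := Filter.mem_comap.mp hUn
  -- half
  have hsub : Filter.Tendsto (fun p : (Ch → AddCircle (1 : ℝ)) × (Ch → AddCircle (1 : ℝ)) =>
      p.1 - p.2) (nhds (0, 0)) (nhds 0) := by
    have h1 : Continuous (fun p : (Ch → AddCircle (1 : ℝ)) × (Ch → AddCircle (1 : ℝ)) =>
      p.1 - p.2) := continuous_fst.sub continuous_snd
    have h2 := h1.tendsto (0, 0)
    simpa using h2
  have hmem := hsub hV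
  rw [nhds_prod_eq, Filter.mem_map, Filter.mem_prod_iff] at hmem
  obtain ⟨W1, hW1, W2, hW2, hW⟩ := hmem
  haveI : Fact ((0 : ℝ) < 1) := ⟨one_pos⟩
  obtain ⟨F, hF⟩ := CompactSpace.elim_nhds_subcover
    (fun x : (Ch → AddCircle (1 : ℝ)) => (fun y => y - x) ⁻¹' (W1 ∩ W2)) (by
      intro x
      have hc : Continuous (fun y : (Ch → AddCircle (1 : ℝ)) => y - x) :=
        continuous_id.sub continuous_const
      apply hc.continuousAt.preimage_mem_nhds
      rw [sub_self]
      exact Filter.inter_mem hW1 hW2)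
  have hcov : ∀ g : G, ∃ x : F, e g - x ∈ W1 ∩ W2 := by
    intro g
    have h1 : e g ∈ ⋃ x ∈ F, (fun y => y - x) ⁻¹' (W1 ∩ W2) := by
      rw [hF]; trivial
    simp only [Set.mem_iUnion] at h1
    obtain ⟨x, hx, hgx⟩ := h1
    exact ⟨⟨x, hx⟩, hgx⟩
  choose r hr using hcov
  apply Finite.of_injective (fun c : G ⧸ U => r c.out)
  intro c c' hcc
  have hcc' : r c.out = r c'.out := hcc
  have h1 := hr c.out
  have h2 := hr c'.out
  rw [← hcc'] at h2
  have h3 : (e c.out - r c.out, e c'.out - r c.out) ∈ W1 ×ˢ W2 := ⟨h1.1, h2.2⟩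
  have h4 := hW h3
  have h5 : e (c.out - c'.out) ∈ V := by
    have h6 : (e c.out - r c.out) - (e c'.out - r c.out) ∈ V := h4
    rw [map_sub]
    simpa using h6
  have h6 : c.out - c'.out ∈ U := hVU h5
  have h7 : (QuotientAddGroup.mk (c'.out) : G ⧸ U) = QuotientAddGroup.mk c.out := by
    rw [QuotientAddGroup.eq]
    rw [neg_add_eq_sub]; exact h6
  have h8 : (QuotientAddGroup.mk c.out : G ⧸ U) = c := Quotient.out_eq' c
  have h9 : (QuotientAddGroup.mk c'.out : G ⧸ U) = c' := Quotient.out_eq' c'
  rw [← h8, ← h9, h7]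

/-- A minimal nonarchimedean abelian group embeds densely in a compact one. -/
theorem exists_compact_embedding {G : Type u} [AddCommGroup G] [TopologicalSpace G]
    [NonarchimedeanAddGroup G] (hmin : Minimal' G) :
    ∃ (K : Type u) (_ : AddCommGroup K) (_ : TopologicalSpace K) (_ : NonarchimedeanAddGroup K)
      (_ : CompactSpace K) (_ : T2Space K) (j : G →+ K),
      IsInducing j ∧ Function.Injective j ∧ DenseRange j := by
  haveI := hmin.1
  letI : UniformSpace G := IsTopologicalAddGroup.rightUniformSpace G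
  haveI : IsUniformAddGroup G := isUniformAddGroup_of_addCommGroup
  have htb : TotallyBounded (Set.univ : Set G) := by
    intro d hd
    rw [uniformity_eq_comap_nhds_zero] at hd
    obtain ⟨V, hV, hVd⟩ := Filter.mem_comap.mp hd
    obtain ⟨U, hU⟩ := NonarchimedeanAddGroup.is_nonarchimedean _ hV
    haveI := finite_index hmin U.toAddSubgroup U.isOpen'
    refine ⟨Set.range (fun c : G ⧸ U.toAddSubgroup => c.out), Set.finite_range _, ?_⟩
    intro g _
    simp only [Set.mem_iUnion]
    refine ⟨(QuotientAddGroup.mk g : G ⧸ U.toAddSubgroup).out, ⟨_, rfl⟩, ?_⟩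
    apply hVd
    apply hU
    have h1 : (QuotientAddGroup.mk (QuotientAddGroup.mk g : G ⧸ U.toAddSubgroup).out :
        G ⧸ U.toAddSubgroup) = QuotientAddGroup.mk g := Quotient.out_eq' _
    have h2 := QuotientAddGroup.eq.mp h1.symm
    rw [neg_add_eq_sub] at h2
    exact h2
  have hcomp : CompactSpace (UniformSpace.Completion G) := by
    constructor
    have h1 : TotallyBounded (Set.range (UniformSpace.Completion.coe' : G →
        UniformSpace.Completion G)) := by
      rw [← Set.image_univ]
      exact htb.image (UniformSpace.Completion.uniformContinuous_coe G)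
    have h2 := h1.closure
    rw [UniformSpace.Completion.denseRange_coe.closure_range] at h2
    exact h2.isCompact_of_isClosed isClosed_univ
  refine ⟨UniformSpace.Completion G, inferInstance, inferInstance, inferInstance, hcomp,
    inferInstance, UniformSpace.Completion.toCompl, ?_, ?_, ?_⟩
  · exact (UniformSpace.Completion.isDenseInducing_coe (α := G)).isInducing
  · exact UniformSpace.Completion.coe_injective G
  · exact UniformSpace.Completion.denseRange_coe

end Pool.Agent.H519DM
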