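import Pool.Agent.H519_DM.A6

set_option autoImplicit false

namespace Pool.Agent.H519DM

open Topology

universe u

def HMinimal (G : Type*) [AddCommGroup G] [TopologicalSpace G] : Prop :=
  ∀ S : AddSubgroup G, Minimal' S

def DMinimal (G : Type*) [AddCommGroup G] [TopologicalSpace G] : Prop :=
  ∀ S : AddSubgroup G, Dense (S : Set G) → Minimal' S

def TMinimal (G : Type*) [AddCommGroup G] [TopologicalSpace G] : Prop :=
  ∀ N : AddSubgroup G, IsClosed (N : Set G) → Minimal' (G ⧸ N)

def DTMinimal (G : Type*) [AddCommGroup G] [TopologicalSpace G] : Prop :=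
  ∀ S : AddSubgroup G, Dense (S : Set G) → TMinimal S

section Sub

variable {G : Type*} [AddCommGroup G] [TopologicalSpace G]

lemma DMinimal.minimal (h : DMinimal G) : Minimal' G := by
  have h1 := h ⊤ (by simp)
  refine h1.transport AddSubgroup.topEquiv ?_
  exact IsInducing.subtypeVal

lemma TMinimal.minimal [IsTopologicalAddGroup G] (h : TMinimal G) (hT : T2Space G) :
    Minimal' G := by
  have hb : IsClosed ((⊥ : AddSubgroup G) : Set G) := by
    rw [AddSubgroup.coe_bot]; exact isClosed_singleton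
  have h1 := h ⊥ hb
  refine h1.transport QuotientAddGroup.quotientBot ?_
  have hc : Continuous (QuotientAddGroup.quotientBot : G ⧸ (⊥ : AddSubgroup G) ≃+ G) :=
    (QuotientAddGroup.isQuotientMap_mk (N := (⊥ : AddSubgroup G))).continuous_iff.mpr
      continuous_id
  have hc' : Continuous (QuotientAddGroup.quotientBot : G ⧸ (⊥ : AddSubgroup G) ≃+ G).symm :=
    QuotientAddGroup.continuous_mk (N := (⊥ : AddSubgroup G))
  exact (Homeomorph.mk (QuotientAddGroup.quotientBot : G ⧸ (⊥ : AddSubgroup G) ≃+ G).toEquiv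
    hc hc').isInducing

lemma DTMinimal.dm [IsTopologicalAddGroup G] (h : DTMinimal G) (hT : T2Space G) :
    DMinimal G := fun S hS => (h S hS).minimal inferInstance

end Sub

section Ambient

variable {G : Type*} [AddCommGroup G] [TopologicalSpace G] [IsTopologicalAddGroup G]
  {K : Type*} [AddCommGroup K] [TopologicalSpace K] [NonarchimedeanAddGroup K]
  [CompactSpace K] [T2Space K]

omit [IsTopologicalAddGroup G] [CompactSpace K] [T2Space K] in
lemma dense_comap {j : G →+ K} (hj : IsInducing j) (D : AddSubgroup K) (hD : D ≤ j.range)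
    (hDd : Dense (D : Set K)) : Dense ((D.comap j : AddSubgroup G) : Set G) := by
  intro g
  rw [hj.closure_eq_preimage_closure_image]
  show j g ∈ closure (j '' _)
  have h1 : j '' ((D.comap j : AddSubgroup G) : Set G) = D := by
    ext x
    constructor
    · rintro ⟨g, hg, rfl⟩
      exact hg
    · intro hx
      obtain ⟨g, rfl⟩ := hD hx
      exact ⟨g, hx, rfl⟩
  rw [h1]
  exact hDd _

omit [CompactSpace K] [IsTopologicalAddGroup G] in
lemma hdm_of_dm {j : G →+ K} (hj : IsInducing j) (hinj : Function.Injective j)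
    (hd : DenseRange j) (h : DMinimal G) : HDM j.range := by
  refine ⟨by rw [AddMonoidHom.coe_range]; exact hd, fun D hD hDd N hN hN0 => ?_⟩
  by_contra hcon
  push Not at hcon
  obtain ⟨y, hy, hy0⟩ := hN0
  apply hy0
  refine F1 (h _ (dense_comap hj D hD hDd)) (j.comp (D.comap j).subtype)
    (hj.continuous.comp continuous_subtype_val)
    (hinj.comp Subtype.val_injective) ?_ N hN ?_ y hy
  · intro z
    refine closure_mono ?_ (hDd z)
    intro x hx
    obtain ⟨g, rfl⟩ := hD hx
    exact ⟨⟨g, hx⟩, rfl⟩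
  · intro d hdN
    have h1 : j d = 0 := hcon _ d.2 hdN
    apply Subtype.ext
    apply hinj
    rw [h1]
    exact (map_zero j).symm

omit [NonarchimedeanAddGroup K] in
lemma hm_of_ess [IsTopologicalAddGroup K] {j : G →+ K} (hj : IsInducing j)
    (hinj : Function.Injective j)
    (hess : ∀ S : AddSubgroup K, S ≤ j.range → ∀ N : AddSubgroup K, IsClosed (N : Set K) →
      (N : Set K) ⊆ closure (S : Set K) → (∀ x ∈ S, x ∈ N → x = 0) → ∀ y ∈ N, y = 0) :
    HMinimal G := by
  intro S
  refine F2 (j.comp S.subtype) (hj.comp IsInducing.subtypeVal)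
    (hinj.comp Subtype.val_injective) ?_
  intro N hN hNc hdis
  apply hess (S.map j) ?_ N hN
  · refine hNc.trans (closure_mono ?_)
    rintro _ ⟨s, rfl⟩
    exact ⟨s, s.2, rfl⟩
  · rintro _ ⟨s, hs, rfl⟩ hsN
    have := hdis ⟨s, hs⟩ hsN
    have h2 : s = 0 := congrArg Subtype.val this
    rw [h2, map_zero]
  · rintro _ ⟨s, hs, rfl⟩
    exact ⟨s, rfl⟩

end Ambient

/-- Q1 for nonarchimedean groups with torsion. -/
theorem q1_torsion {G : Type u} [AddCommGroup G] [TopologicalSpace G] [NonarchimedeanAddGroup G]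
    (x : G) (hx : x ≠ 0) (n : ℕ) (hn : n ≠ 0) (hnx : n • x = 0) (h : DMinimal G) :
    HMinimal G := by
  obtain ⟨K, _, _, _, _, _, j, hj, hinj, hd⟩ := exists_compact_embedding h.minimal
  have hH := hdm_of_dm hj hinj hd h
  have hord : addOrderOf (j x) ≠ 1 := by
    intro h1
    apply hx
    apply hinj
    rw [map_zero]
    exact AddMonoid.addOrderOf_eq_one_iff.mp h1
  obtain ⟨q, hq, m, hm⟩ := Nat.exists_prime_and_dvd hord
  have hpos : addOrderOf (j x) ≠ 0 := by
    intro h0
    have h1 : addOrderOf (j x) ∣ n := by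
      apply addOrderOf_dvd_of_nsmul_eq_zero
      rw [← map_nsmul, hnx, map_zero]
    rw [h0] at h1
    exact hn (Nat.eq_zero_of_zero_dvd h1)
  have hmpos : 0 < m := by
    rcases Nat.eq_zero_or_pos m with h0 | h0
    · exact absurd (by rw [hm, h0, mul_zero]) hpos
    · exact h0
  refine hm_of_ess hj hinj (fun S hS N hN hNc hdis =>
    hH.essential_of_torsion q hq (m • j x) ?_ ?_ S hS N hN hNc hdis)
  · rw [← mul_smul, ← hm, addOrderOf_nsmul_eq_zero]
  · intro h0
    have h1 : addOrderOf (j x) ∣ m := addOrderOf_dvd_of_nsmul_eq_zero h0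
    have h2 := Nat.le_of_dvd hmpos h1
    have h3 : m * 2 ≤ q * m := by
      rw [mul_comm m 2]; exact Nat.mul_le_mul_right m hq.two_le
    omega

/-- Q2 for nonarchimedean groups. -/
theorem q2_nonarch {G : Type u} [AddCommGroup G] [TopologicalSpace G]
    [NonarchimedeanAddGroup G] [T2Space G] (h : DTMinimal G) : HMinimal G := by
  have hdm := h.dm inferInstance
  obtain ⟨K, _, _, _, _, _, j, hj, hinj, hd⟩ := exists_compact_embedding hdm.minimal
  have hH := hdm_of_dm hj hinj hd hdm
  refine hm_of_ess hj hinj (fun S hS N hN hNc hdis => ?_)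
  by_contra hcon
  push Not at hcon
  -- replace N by the closure of its trace
  let N1 : AddSubgroup K := (j.range ⊓ N).topologicalClosure
  have hN1N : N1 ≤ N := by
    apply AddSubgroup.topologicalClosure_minimal _ inf_le_right hN
  have hN1ne : ∃ y ∈ N1, y ≠ 0 := by
    obtain ⟨x, hxG, hxN, hx0⟩ := hH.ess _ le_rfl hH.dense N hN hcon
    exact ⟨x, AddSubgroup.le_topologicalClosure _ ⟨hxG, hxN⟩, hx0⟩
  have hN1c : IsClosed (N1 : Set K) := AddSubgroup.isClosed_topologicalClosure _
  obtain ⟨p, hp, y, hyN1, hy⟩ := exists_prime_not_div N1 hN1ne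
  let M : AddSubgroup K := N1.map (nsmulAddMonoidHom (α := K) p)
  have hMN1 : M ≤ N1 := by
    rintro _ ⟨x, hx, rfl⟩
    exact N1.nsmul_mem hx p
  have hMc : IsClosed (M : Set K) := by
    have h1 : IsCompact ((fun x : K => p • x) '' (N1 : Set K)) :=
      hN1c.isCompact.image (continuous_const_smul p)
    exact h1.isClosed
  haveI : T2Space (K ⧸ M) := by
    haveI := hMc
    infer_instance
  let π : K →+ K ⧸ M := QuotientAddGroup.mk' M
  have hπc : Continuous π := QuotientAddGroup.continuous_mk (N := M)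
  have hπker : ∀ x, π x = 0 ↔ x ∈ M := fun x => QuotientAddGroup.eq_zero_iff x
  have hπsurj : Function.Surjective π := QuotientAddGroup.mk'_surjective M
  -- density in the quotient
  have hlift : ∀ D' : AddSubgroup (K ⧸ M), D' ≤ j.range.map π → Dense (D' : Set (K ⧸ M)) →
      Dense ((D'.comap (π.comp j) : AddSubgroup G) : Set G) := by
    intro D' hD' hD'd
    let DK : AddSubgroup K := (D'.comap (π.comp j)).map j
    have hDKd : Dense (DK : Set K) := by
      have hMcl : ∀ z ∈ M, z ∈ closure (DK : Set K) := by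
        rintro _ ⟨x, hx, rfl⟩
        have hx' : x ∈ closure ((j.range ⊓ N : AddSubgroup K) : Set K) := hx
        refine map_mem_closure (continuous_const_smul p) hx' ?_
        rintro _ ⟨⟨g, rfl⟩, hgN⟩
        refine ⟨p • g, ?_, map_nsmul j p g⟩
        show (π.comp j) (p • g) ∈ D'
        have h1 : j g ∈ N1 := AddSubgroup.le_topologicalClosure _ ⟨⟨g, rfl⟩, hgN⟩
        have h2 : (π.comp j) (p • g) = 0 := by
          show π (j (p • g)) = 0
          rw [hπker, map_nsmul]
          exact ⟨j g, h1, rfl⟩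
        rw [h2]; exact D'.zero_mem
      have hcl : IsClosed (π '' closure (DK : Set K)) :=
        (isClosed_closure.isCompact.image hπc).isClosed
      have hsub : (D' : Set (K ⧸ M)) ⊆ π '' closure (DK : Set K) := by
        intro d hd
        obtain ⟨_, ⟨g, rfl⟩, rfl⟩ := hD' hd
        exact ⟨j g, subset_closure ⟨g, hd, rfl⟩, rfl⟩
      intro z
      have h1 : π z ∈ π '' closure (DK : Set K) := by
        have := closure_minimal hsub hcl (hD'd (π z))
        exact this
      obtain ⟨c, hc, hcz⟩ := h1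
      have h2 : z - c ∈ M := by
        rw [← hπker, map_sub, hcz, sub_self]
      have h3 := hMcl _ h2
      have h4 : (z - c) + c ∈ DK.topologicalClosure :=
        AddSubgroup.add_mem _ h3 hc
      rw [sub_add_cancel] at h4
      exact h4
    have h1 := dense_comap hj DK (by rintro _ ⟨g, _, rfl⟩; exact ⟨g, rfl⟩) hDKd
    have h2 : DK.comap j = D'.comap (π.comp j) := by
      ext g
      constructor
      · rintro ⟨g', hg', hgg⟩
        have : g' = g := hinj hgg
        rw [← this]; exact hg'
      · intro hg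
        exact ⟨g, hg, rfl⟩
    rw [h2] at h1
    exact h1
  have hH' : HDM (j.range.map π) := by
    refine ⟨?_, fun D' hD' hD'd N' hN' hN'0 => ?_⟩
    · have h1 : DenseRange (π ∘ j) := hπsurj.denseRange.comp hd hπc
      intro z
      refine closure_mono ?_ (h1 z)
      rintro _ ⟨g, rfl⟩
      exact ⟨j g, ⟨g, rfl⟩, rfl⟩
    · by_contra hcon'
      push Not at hcon'
      obtain ⟨w, hw, hw0⟩ := hN'0
      apply hw0
      let D0 : AddSubgroup G := D'.comap (π.comp j)
      let k : D0 →+ K ⧸ M := (π.comp j).comp D0.subtype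
      have hkc : Continuous k := (hπc.comp hj.continuous).comp continuous_subtype_val
      have hkcl : IsClosed (k.ker : Set D0) := by
        have : (k.ker : Set D0) = k ⁻¹' {0} := rfl
        rw [this]
        exact isClosed_singleton.preimage hkc
      have hmin : Minimal' (D0 ⧸ k.ker) := h D0 (hlift D' hD' hD'd) k.ker hkcl
      let kb : D0 ⧸ k.ker →+ K ⧸ M := QuotientAddGroup.kerLift k
      have hkbc : Continuous kb :=
        (QuotientAddGroup.isQuotientMap_mk (N := k.ker)).continuous_iff.mpr hkc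
      refine F1 hmin kb hkbc (QuotientAddGroup.kerLift_injective k) ?_ N' hN' ?_ w hw
      · intro z
        refine closure_mono ?_ (hD'd z)
        intro x hx
        obtain ⟨_, ⟨g, rfl⟩, rfl⟩ := hD' hx
        exact ⟨QuotientAddGroup.mk (⟨g, hx⟩ : D0), rfl⟩
      · intro d hdN
        obtain ⟨d0, rfl⟩ := QuotientAddGroup.mk_surjective d
        have h1 : k d0 = 0 := hcon' _ d0.2 hdN
        exact (QuotientAddGroup.eq_zero_iff _).mpr h1
  -- apply the core in the quotient
  have hpy : p • π y = 0 := by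
    rw [← map_nsmul, hπker]
    exact ⟨y, hyN1, rfl⟩
  have hycl : π y ∈ closure ((S.map π : AddSubgroup (K ⧸ M)) : Set (K ⧸ M)) := by
    refine map_mem_closure hπc (hNc (hN1N hyN1)) ?_
    intro s hs
    exact ⟨s, hs, rfl⟩
  obtain ⟨t, htS, hty⟩ := hH'.core (QC_TQ hp) hp (S.map π) (AddSubgroup.map_mono hS) (π y) hpy hycl
  have h1 : y - t ∈ M := by
    rw [← hπker, map_sub, hty, sub_self]
  have h2 : t ∈ N := by
    have h3 := N.sub_mem (hN1N hyN1) (hN1N (hMN1 h1))
    simpa using h3
  have h3 : t = 0 := hdis t htS h2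
  rw [h3, sub_zero] at h1
  obtain ⟨x, hx, hxy⟩ := h1
  exact hy x hx hxy.symm

end Pool.Agent.H519DM
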