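import Pool.Agent.TH264.Bridge.PW
import Pool.Agent.R821.Duality

set_option autoImplicit false

namespace Pool.Agent.H519DM

open Topology

theorem pw (K : Type*) [AddCommGroup K] [TopologicalSpace K] [IsTopologicalAddGroup K]
    [CompactSpace K] [T2Space K] (k : K) (hk : k ≠ 0) :
    ∃ χ : K →+ UnitAddCircle, Continuous χ ∧ χ k ≠ 0 := by
  haveI : T2Space (Multiplicative K) := (inferInstance : T2Space K)
  obtain ⟨χ, hχ, hχk⟩ := Pool.Agent.TH264.Bridge.char_sep_mul (Multiplicative K)
    (Multiplicative.ofAdd k) (by simpa using hk)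
  let H := AddCircle.homeomorphCircle (one_ne_zero : (1 : ℝ) ≠ 0)
  have hH : ∀ x : UnitAddCircle, H x = AddCircle.toCircle x := fun x =>
    AddCircle.homeomorphCircle_apply (one_ne_zero : (1 : ℝ) ≠ 0) x
  have hinj : ∀ x y : UnitAddCircle, AddCircle.toCircle x = AddCircle.toCircle y → x = y :=
    fun x y h => AddCircle.injective_toCircle one_ne_zero h
  have hs : ∀ z : Circle, AddCircle.toCircle (H.symm z) = z := by
    intro z
    rw [← hH, H.apply_symm_apply]
  let χ' : K →+ UnitAddCircle :=
    { toFun := fun x => H.symm (χ (Multiplicative.ofAdd x))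
      map_zero' := by
        apply hinj
        rw [hs, ofAdd_zero, map_one, AddCircle.toCircle_zero]
      map_add' := by
        intro x y
        apply hinj
        rw [AddCircle.toCircle_add, hs, hs, hs, ofAdd_add, map_mul] }
  refine ⟨χ', H.symm.continuous.comp (hχ.comp continuous_ofAdd), ?_⟩
  intro h0
  apply hχk
  have h1 : H.symm (χ (Multiplicative.ofAdd k)) = 0 := h0
  rw [← hs (χ (Multiplicative.ofAdd k)), h1, AddCircle.toCircle_zero]

/-- The group of continuous characters. -/
def XX (K : Type*) [AddCommGroup K] [TopologicalSpace K] : AddSubgroup (K →+ UnitAddCircle) where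
  carrier := {χ | Continuous χ}
  zero_mem' := continuous_const
  add_mem' := by
    intro a b ha hb
    exact Continuous.add ha hb
  neg_mem' := by
    intro a ha
    exact Continuous.neg ha

section Dual

variable {K : Type*} [AddCommGroup K] [TopologicalSpace K] [IsTopologicalAddGroup K]
  [CompactSpace K] [T2Space K]

/-- Pontryagin duality, surjectivity. -/
theorem realize (h : XX K →+ UnitAddCircle) : ∃ k : K, ∀ χ : XX K, χ.1 k = h χ := by
  let ev : K →+ (XX K → UnitAddCircle) :=
    { toFun := fun k χ => χ.1 k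
      map_zero' := by ext χ; simp
      map_add' := by intro a b; ext χ; simp }
  have hc : Continuous ev := continuous_pi (fun χ => χ.2)
  have hcl : IsClosed (Set.range ev) := (isCompact_range hc).isClosed
  have h1 := Pool.Agent.R821.dense_hom (X := XX K) ev.range
    (by rintro _ ⟨k, rfl⟩ x y; rfl)
    (by
      intro χ hχ
      by_contra hcon
      push Not at hcon
      apply hχ
      apply Subtype.ext
      ext k
      exact hcon _ ⟨k, rfl⟩)
    (fun χ => h χ) (fun x y => map_add h x y)
  rw [AddMonoidHom.coe_range, hcl.closure_eq] at h1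
  obtain ⟨k, hk⟩ := h1
  exact ⟨k, fun χ => congrFun hk χ⟩

/-- Characters separate points from closed subgroups. -/
theorem exists_char_sep_closed (C : AddSubgroup K) (hC : IsClosed (C : Set K)) (k : K)
    (hk : k ∉ C) : ∃ χ : K →+ UnitAddCircle, Continuous χ ∧ (∀ c ∈ C, χ c = 0) ∧ χ k ≠ 0 := by
  haveI : T2Space (K ⧸ C) := by
    haveI := hC
    infer_instance
  obtain ⟨χ, hχ, hχk⟩ := pw (K ⧸ C) (QuotientAddGroup.mk k)
    (fun h => hk ((QuotientAddGroup.eq_zero_iff _).mp h))
  refine ⟨χ.comp (QuotientAddGroup.mk' C), hχ.comp (QuotientAddGroup.continuous_mk (N := C)),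
    fun c hc => ?_, hχk⟩
  have : (QuotientAddGroup.mk' C) c = 0 := (QuotientAddGroup.eq_zero_iff _).mpr hc
  rw [AddMonoidHom.comp_apply, this, map_zero]

/-- A nondense subgroup is killed by a nonzero character. -/
theorem exists_char_of_not_dense (D : AddSubgroup K) (hD : ¬ Dense (D : Set K)) :
    ∃ χ : K →+ UnitAddCircle, Continuous χ ∧ χ ≠ 0 ∧ ∀ c ∈ D, χ c = 0 := by
  obtain ⟨y, hy⟩ : ∃ y, y ∉ closure (D : Set K) := by
    by_contra hcon
    push Not at hcon
    exact hD hcon
  obtain ⟨χ, hχ, hχC, hχk⟩ := exists_char_sep_closed D.topologicalClosure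
    (AddSubgroup.isClosed_topologicalClosure D) y hy
  refine ⟨χ, hχ, ?_, fun c hc => hχC c (AddSubgroup.le_topologicalClosure D hc)⟩
  rintro rfl
  exact hχk rfl

end Dual

end Pool.Agent.H519DM
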