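import Pool.Agent.H519_DM.B1
import Pool.Agent.H519_DM.A7

set_option autoImplicit false

namespace Pool.Agent.H519DM

open Topology

section General

/-- Density criterion, general. -/
lemma F1g {D K : Type*} [AddCommGroup D] [TopologicalSpace D]
    (hmin : Minimal' D) [AddCommGroup K] [TopologicalSpace K] [IsTopologicalAddGroup K]
    [T2Space K] (j : D →+ K) (hc : Continuous j) (hinj : Function.Injective j)
    (hd : DenseRange j) (N : AddSubgroup K) (hN : IsClosed (N : Set K))
    (hdis : ∀ d, j d ∈ N → d = 0) : ∀ y ∈ N, y = 0 := by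
  intro y hy
  by_contra hy0
  haveI : T2Space (K ⧸ N) := by
    haveI := hN
    infer_instance
  have hj2 : IsInducing ((QuotientAddGroup.mk' N).comp j) := by
    apply hmin.inducing
    · exact (QuotientAddGroup.continuous_mk (N := N)).comp hc
    · rw [injective_iff_map_eq_zero]
      intro d hd
      exact hdis d ((QuotientAddGroup.eq_zero_iff _).mp hd)
  have hnb : ({y}ᶜ : Set K) ∈ nhds (0 : K) := isOpen_compl_singleton.mem_nhds (by
    intro h; exact hy0 h.symm)
  have hcs : Filter.Tendsto (fun p : K × K => p.1 - p.2) (nhds 0 ×ˢ nhds 0) (nhds (0 : K)) := by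
    have h1 : Continuous (fun p : K × K => p.1 - p.2) := continuous_fst.sub continuous_snd
    have h2 := h1.tendsto (0, 0)
    rw [nhds_prod_eq] at h2
    simpa using h2
  obtain ⟨V1, hV1, V2, hV2, hV⟩ := Filter.mem_prod_iff.mp (hcs hnb)
  obtain ⟨V, hVsub, hVo, h0V⟩ := mem_nhds_iff.mp (Filter.inter_mem hV1 hV2)
  have hopen : IsOpen (j ⁻¹' V) := hVo.preimage hc
  obtain ⟨W, hW, hWe⟩ := hj2.isOpen_iff.mp hopen
  have h0W : (0 : K ⧸ N) ∈ W := by
    have : (0 : D) ∈ ((QuotientAddGroup.mk' N).comp j) ⁻¹' W := by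
      rw [hWe]
      show j 0 ∈ V
      rw [map_zero]
      exact h0V
    have h2 : ((QuotientAddGroup.mk' N).comp j) 0 ∈ W := this
    rwa [map_zero] at h2
  have hcont : Continuous (fun x : K => x - y) := continuous_id.sub continuous_const
  have hO : IsOpen (((fun x : K => x - y) ⁻¹' V) ∩
      ((QuotientAddGroup.mk : K → K ⧸ N) ⁻¹' W)) :=
    (hVo.preimage hcont).inter (hW.preimage (QuotientAddGroup.continuous_mk (N := N)))
  have hyO : y ∈ (((fun x : K => x - y) ⁻¹' V) ∩
      ((QuotientAddGroup.mk : K → K ⧸ N) ⁻¹' W)) := by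
    refine ⟨?_, ?_⟩
    · show y - y ∈ V
      rw [sub_self]; exact h0V
    · show (QuotientAddGroup.mk y : K ⧸ N) ∈ W
      have : (QuotientAddGroup.mk y : K ⧸ N) = 0 := (QuotientAddGroup.eq_zero_iff _).mpr hy
      rw [this]; exact h0W
  obtain ⟨d, hd1, hd2⟩ := hd.exists_mem_open hO ⟨y, hyO⟩
  have h3 : d ∈ j ⁻¹' V := by
    rw [← hWe]
    exact hd2
  have h4 : j d - y ∈ V := hd1
  have h5 := hV (Set.mk_mem_prod (hVsub h3).1 (hVsub h4).2)
  apply h5
  show j d - (j d - y) = y
  abel

lemma hdm_of_dm' {G : Type*} [AddCommGroup G] [TopologicalSpace G]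
    {K : Type*} [AddCommGroup K] [TopologicalSpace K] [IsTopologicalAddGroup K]
    [T2Space K] {j : G →+ K} (hj : IsInducing j) (hinj : Function.Injective j)
    (hd : DenseRange j) (h : DMinimal G) : HDM j.range := by
  refine ⟨by rw [AddMonoidHom.coe_range]; exact hd, fun D hD hDd N hN hN0 => ?_⟩
  by_contra hcon
  push Not at hcon
  obtain ⟨y, hy, hy0⟩ := hN0
  apply hy0
  have hdc : Dense ((D.comap j : AddSubgroup G) : Set G) := by
    intro g
    rw [hj.closure_eq_preimage_closure_image]
    show j g ∈ closure (j '' _)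
    have h1 : j '' ((D.comap j : AddSubgroup G) : Set G) = D := by
      ext x
      constructor
      · rintro ⟨g, hg, rfl⟩
        exact hg
      · intro hx
        obtain ⟨g, rfl⟩ := hD hx
        exact ⟨g, hx, rfl⟩
    rw [h1]
    exact hDd _
  refine F1g (h _ hdc) (j.comp (D.comap j).subtype)
    (hj.continuous.comp continuous_subtype_val)
    (hinj.comp Subtype.val_injective) ?_ N hN ?_ y hy
  · intro z
    refine closure_mono ?_ (hDd z)
    intro x hx
    obtain ⟨g, rfl⟩ := hD hx
    exact ⟨⟨g, hx⟩, rfl⟩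
  · intro d hdN
    have h1 : j d = 0 := hcon _ d.2 hdN
    apply Subtype.ext
    apply hinj
    rw [h1]
    exact (map_zero j).symm

end General

section P2g

variable {K : Type*} [AddCommGroup K] [TopologicalSpace K] [IsTopologicalAddGroup K]
  [CompactSpace K] [T2Space K] {G : AddSubgroup K}

omit [IsTopologicalAddGroup K] [CompactSpace K] in
lemma HDM.mem_of_prime' (h : HDM G) {q : ℕ} (hq : q.Prime) {z : K} (hz : q • z = 0)
    (D : AddSubgroup K) (hD : D ≤ G) (hDd : Dense (D : Set K)) : z ∈ D := by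
  by_cases h0 : z = 0
  · subst h0; exact D.zero_mem
  have hof : IsOfFinAddOrder z := isOfFinAddOrder_iff_nsmul_eq_zero.mpr ⟨q, hq.pos, hz⟩
  have hfin : (AddSubgroup.zmultiples z : Set K).Finite := by
    exact hof.finite_zmultiples
  obtain ⟨x, hxD, hxN, hx0⟩ := h.ess D hD hDd (AddSubgroup.zmultiples z) hfin.isClosed
    ⟨z, AddSubgroup.mem_zmultiples z, h0⟩
  obtain ⟨c, rfl⟩ := AddSubgroup.mem_zmultiples_iff.mp hxN
  have hc : ¬ (q : ℤ) ∣ c := by
    rintro ⟨d, rfl⟩
    apply hx0
    rw [mul_comm, mul_smul, natCast_zsmul, hz, smul_zero]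
  have hcop : IsCoprime (q : ℤ) c :=
    (Nat.prime_iff_prime_int.mp hq).coprime_iff_not_dvd.mpr hc
  obtain ⟨a, b, hab⟩ := hcop
  have hzz : z = b • c • z := by
    calc z = (1 : ℤ) • z := (one_smul ℤ z).symm
      _ = (a * q + b * c) • z := by rw [hab]
      _ = b • c • z := by
        rw [add_smul, mul_smul, natCast_zsmul, hz, smul_zero, zero_add, mul_smul]
  rw [hzz]
  exact D.zsmul_mem hxD b

/-- Divisible target: factor and extend, for the circle. -/
lemma feT {M N : Type*} [AddCommGroup M] [AddCommGroup N] (α : M →+ N)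
    (β : M →+ UnitAddCircle) (h : ∀ m, α m = 0 → β m = 0) :
    ∃ γ : N →+ UnitAddCircle, ∀ m, γ (α m) = β m := by
  have hb : Module.Baer ℤ UnitAddCircle := Module.Baer.of_divisible UnitAddCircle
  obtain ⟨γ, hγ⟩ := hb.extension_property_addMonoidHom (QuotientAddGroup.kerLift α)
    (QuotientAddGroup.kerLift_injective α) (QuotientAddGroup.lift α.ker β (fun m hm => h m hm))
  refine ⟨γ, fun m => ?_⟩
  have := DFunLike.congr_fun hγ (QuotientAddGroup.mk m)
  exact this

omit [CompactSpace K] [IsTopologicalAddGroup K] [T2Space K] in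
/-- A continuous character vanishing on the dense subgroup vanishes. -/
lemma char_eq_zero (hd : Dense (G : Set K)) (θ : K →+ UnitAddCircle) (hθ : Continuous θ)
    (h : ∀ g ∈ G, θ g = 0) : ∀ x, θ x = 0 := by
  intro x
  have hcl : IsClosed {x : K | θ x = 0} := isClosed_singleton.preimage hθ
  have h1 : (G : Set K) ⊆ {x : K | θ x = 0} := fun g hg => h g hg
  exact closure_minimal h1 hcl (hd x)

/-- If `f : G → T` does not kill an element of prime order then some nonzero continuous character
factors through `f`. -/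
lemma HDM.char_through (h : HDM G) {q : ℕ} (hq : q.Prime) {A : Type*} [AddCommGroup A]
    (f : G →+ A) (s : G) (hs : q • s = 0) (hfs : f s ≠ 0) :
    ∃ θ : K →+ UnitAddCircle, Continuous θ ∧ (∃ g : G, θ g ≠ 0) ∧
      ∀ g : G, f g = 0 → θ g = 0 := by
  have hnd : ¬ Dense ((f.ker.map G.subtype : AddSubgroup K) : Set K) := by
    intro hd
    have hsK : q • (s : K) = 0 := by
      have := congrArg (fun x : G => (x : K)) hs
      simpa using this
    have hmem : (s : K) ∈ f.ker.map G.subtype := h.mem_of_prime' hq hsK _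
      (by rintro _ ⟨x, _, rfl⟩; exact x.2) hd
    obtain ⟨x, hx, hxs⟩ := hmem
    have hxs' : x = s := Subtype.ext hxs
    subst hxs'
    exact hfs hx
  obtain ⟨θ, hθ, hθ0, hθk⟩ := exists_char_of_not_dense _ hnd
  refine ⟨θ, hθ, ?_, fun g hg => hθk g ⟨g, hg, rfl⟩⟩
  by_contra hcon
  push Not at hcon
  apply hθ0
  ext x
  exact char_eq_zero h.dense θ hθ (fun g hg => hcon ⟨g, hg⟩) x

lemma HDM.P2g (h : HDM G) {q : ℕ} (hq : q.Prime) :
    ∀ (n : ℕ) (z : K), q ^ n • z = 0 → z ∈ G := by
  have hT := QC_TQ hq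
  intro n
  induction n with
  | zero =>
    intro z hz
    rw [pow_zero, one_smul] at hz
    rw [hz]; exact G.zero_mem
  | succ n ih =>
    intro z hz
    have hs1 : q • (q ^ n • z) = 0 := by rw [← mul_smul, ← pow_succ', hz]
    have hs : q ^ n • z ∈ G := h.mem_of_prime' hq hs1 G le_rfl h.dense
    by_cases hex : ∃ g : G, q ^ n • z = q ^ n • (g : K)
    · obtain ⟨g, hg⟩ := hex
      have h1 : z - g ∈ G := ih _ (by rw [smul_sub, hg, sub_self])
      have h2 := G.add_mem h1 g.2
      simpa using h2
    · exfalso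
      have hn : n ≠ 0 := by
        rintro rfl
        apply hex
        rw [pow_zero, one_smul] at hs
        exact ⟨⟨z, hs⟩, rfl⟩
      obtain ⟨m, rfl⟩ := Nat.exists_eq_succ_of_ne_zero hn
      have hqz : q • z ∈ G := ih _ (by rw [← mul_smul, ← pow_succ, hz])
      let s : G := ⟨q ^ (m + 1) • z, hs⟩
      let H : AddSubgroup G := (nsmulAddMonoidHom (α := G) (q ^ (m + 1))).range
      obtain ⟨φ, hφ⟩ := hT.exists_ne hq (QuotientAddGroup.mk s : G ⧸ H)
        (by
          have : q • s = 0 := Subtype.ext (by simpa [s] using hs1)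
          calc q • (QuotientAddGroup.mk s : G ⧸ H) = (QuotientAddGroup.mk (q • s) : G ⧸ H) := rfl
            _ = 0 := by rw [this]; rfl)
        (by
          intro h0
          obtain ⟨g, hg⟩ := (QuotientAddGroup.eq_zero_iff _).mp h0
          apply hex
          refine ⟨g, ?_⟩
          have := congrArg (fun x : G => (x : K)) hg
          simp [s] at this
          exact this.symm)
      let f : G →+ TQ q := φ.comp (QuotientAddGroup.mk' H)
      have hfs : f s ≠ 0 := hφ
      have hkill : ∀ g : G, q ^ (m + 1) • f g = 0 := by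
        intro g
        rw [← map_nsmul]
        show φ (QuotientAddGroup.mk (q ^ (m + 1) • g) : G ⧸ H) = 0
        have : (QuotientAddGroup.mk (q ^ (m + 1) • g) : G ⧸ H) = 0 :=
          (QuotientAddGroup.eq_zero_iff _).mpr ⟨g, rfl⟩
        rw [this, map_zero]
      have hqs : q • s = 0 := Subtype.ext (by simpa [s] using hs1)
      obtain ⟨θ, hθ, ⟨g0, hg0⟩, hθf⟩ := h.char_through hq f s hqs hfs
      let y : G := ⟨q • z, hqz⟩
      have hys : q ^ m • y = s := by
        apply Subtype.ext
        show q ^ m • (q • z) = q ^ (m + 1) • z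
        rw [← mul_smul, pow_succ]
      have hyne : q ^ m • f y ≠ 0 := by
        rw [← map_nsmul, hys]; exact hfs
      have hmul : ∀ g : G, ∃ c : ℤ, θ g = c • θ y := by
        intro g
        obtain ⟨c, hc⟩ := hT.uni (f g) (f y) m (hkill g) hyne
        refine ⟨c, ?_⟩
        have h1 : f (g - c • y) = 0 := by rw [map_sub, map_zsmul, ← hc, sub_self]
        have h2 := hθf _ h1
        have h3 : ((g - c • y : G) : K) = (g : K) - c • (y : K) := by simp
        rw [h3, map_sub, map_zsmul, sub_eq_zero] at h2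
        exact h2
      have hy0 : θ y ≠ 0 := by
        intro h0
        obtain ⟨c, hc⟩ := hmul g0
        apply hg0
        rw [hc, h0, smul_zero]
      have hyk : ∃ i : ℕ, q ^ i • θ y = 0 := by
        refine ⟨m + 1, ?_⟩
        rw [← map_nsmul]
        have h1 : f (q ^ (m + 1) • y) = 0 := by rw [map_nsmul]; exact hkill y
        have h2 := hθf _ h1
        simpa using h2
      classical
      have hi0 : Nat.find hyk ≠ 0 := by
        intro h0
        have h1 := Nat.find_spec hyk
        rw [h0, pow_zero, one_smul] at h1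
        exact hy0 h1
      obtain ⟨i, hi⟩ := Nat.exists_eq_succ_of_ne_zero hi0
      have hi1 : q ^ (i + 1) • θ y = 0 := by
        have h1 := Nat.find_spec hyk
        rw [hi] at h1
        exact h1
      have hi2 : q ^ i • θ y ≠ 0 := Nat.find_min hyk (by omega)
      -- `q ^ (i + 1) • θ` vanishes on `G`
      have hv : ∀ g ∈ G, (q ^ (i + 1) • θ) g = 0 := by
        intro g hg
        obtain ⟨c, hc⟩ := hmul ⟨g, hg⟩
        rw [AddMonoidHom.nsmul_apply]
        have hc' : θ g = c • θ y := hc
        rw [hc', smul_comm, hi1, smul_zero]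
      have hvc : Continuous (q ^ (i + 1) • θ) := by
        have : (⇑(q ^ (i + 1) • θ) : K → UnitAddCircle) = fun x => q ^ (i + 1) • θ x := rfl
        rw [this]
        exact (continuous_nsmul (q ^ (i + 1))).comp hθ
      have hall := char_eq_zero h.dense _ hvc hv z
      apply hi2
      show q ^ i • θ (q • z) = 0
      rw [map_nsmul, ← mul_smul, ← pow_succ]
      exact hall

end P2g

end Pool.Agent.H519DM
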