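import Pool.Agent.H519_DM.B2

set_option autoImplicit false

namespace Pool.Agent.H519DM

open Topology

section PTSec

variable {K : Type*} [AddCommGroup K] [TopologicalSpace K] [IsTopologicalAddGroup K]
  [CompactSpace K] [T2Space K]

/-- Topologically `r`-torsion elements. -/
def PTS (K : Type*) [AddCommGroup K] [TopologicalSpace K] (r : ℕ) : AddSubgroup K where
  carrier := {x | ∀ θ : K →+ UnitAddCircle, Continuous θ → ∃ n : ℕ, r ^ n • θ x = 0}
  zero_mem' := by
    intro θ _
    exact ⟨0, by simp⟩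
  add_mem' := by
    intro a b ha hb θ hθ
    obtain ⟨n, hn⟩ := ha θ hθ
    obtain ⟨m, hm⟩ := hb θ hθ
    refine ⟨n + m, ?_⟩
    rw [map_add, smul_add, pow_add, mul_smul (r ^ n) (r ^ m) (θ b), hm, smul_zero, mul_comm,
      mul_smul, hn, smul_zero, add_zero]
  neg_mem' := by
    intro a ha θ hθ
    obtain ⟨n, hn⟩ := ha θ hθ
    exact ⟨n, by rw [map_neg, smul_neg, hn, neg_zero]⟩

lemma indep {ι : Type*} (R : ι → ℕ) (hR : ∀ i, (R i).Prime) (hinj : Function.Injective R)
    (F : Finset ι) (x : ι → K) (hx : ∀ i, x i ∈ PTS K (R i)) (h0 : ∑ i ∈ F, x i = 0) :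
    ∀ i ∈ F, x i = 0 := by
  classical
  intro i hi
  by_contra hne
  obtain ⟨θ, hθ, hθi⟩ := pw K (x i) hne
  have hex : ∀ j, ∃ n : ℕ, (R j) ^ n • θ (x j) = 0 := fun j => hx j θ hθ
  choose n hn using hex
  let m : ℕ := ∏ j ∈ F.erase i, (R j) ^ (n j)
  have hm : ∀ j ∈ F.erase i, m • θ (x j) = 0 := by
    intro j hj
    obtain ⟨d, hd⟩ : (R j) ^ (n j) ∣ m := Finset.dvd_prod_of_mem _ hj
    rw [hd, mul_comm, mul_smul, hn j, smul_zero]
  have hsum : m • θ (x i) = 0 := by
    have h1 : m • θ (∑ j ∈ F, x j) = 0 := by rw [h0, map_zero, smul_zero]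
    rw [map_sum, Finset.smul_sum, ← Finset.add_sum_erase F _ hi, Finset.sum_eq_zero hm,
      add_zero] at h1
    exact h1
  apply hθi
  refine nsmul_eq_zero_of_coprime (q := R i) (n := m) (θ (x i)) (n i) (hn i) hsum ?_
  apply Nat.Coprime.prod_left
  intro j hj
  apply Nat.Coprime.pow_left
  rw [Nat.coprime_primes (hR j) (hR i)]
  intro hji
  exact (Finset.ne_of_mem_erase hj) (hinj hji)

end PTSec

section RatV

/-- A `ℚ`-vector space is an injective abelian group. -/
lemma feQ {V : Type*} [AddCommGroup V] [Module ℚ V] {M N : Type*} [AddCommGroup M]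
    [AddCommGroup N] (α : M →+ N) (β : M →+ V) (h : ∀ m, α m = 0 → β m = 0) :
    ∃ γ : N →+ V, ∀ m, γ (α m) = β m := by
  letI : DivisibleBy V ℤ := divisibleByOfSMulRightSurj V ℤ (fun {n} hn x => by
    refine ⟨((1 : ℚ) / n) • x, ?_⟩
    have hn' : (n : ℚ) ≠ 0 := by exact_mod_cast hn
    show n • (((1 : ℚ) / n) • x) = x
    rw [← Int.cast_smul_eq_zsmul ℚ n, smul_smul, mul_one_div_cancel hn', one_smul])
  have hb : Module.Baer ℤ V := Module.Baer.of_divisible V
  obtain ⟨γ, hγ⟩ := hb.extension_property_addMonoidHom (QuotientAddGroup.kerLift α)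
    (QuotientAddGroup.kerLift_injective α) (QuotientAddGroup.lift α.ker β (fun m hm => h m hm))
  refine ⟨γ, fun m => ?_⟩
  have := DFunLike.congr_fun hγ (QuotientAddGroup.mk m)
  exact this

end RatV

section NoInf

variable {K : Type*} [AddCommGroup K] [TopologicalSpace K] [IsTopologicalAddGroup K]
  [CompactSpace K] [T2Space K] {G : AddSubgroup K}

theorem HDM.noInf (h : HDM G) (P : Set ℕ) (hP : P.Infinite) (hprime : ∀ r ∈ P, r.Prime)
    (N : ℕ → AddSubgroup K) (hNc : ∀ r ∈ P, IsClosed (N r : Set K))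
    (hNPT : ∀ r ∈ P, N r ≤ PTS K r)
    (hNtf : ∀ r ∈ P, ∀ x ∈ N r, ∀ n : ℤ, n ≠ 0 → n • x = 0 → x = 0)
    (hN0 : ∀ r ∈ P, ∃ y ∈ N r, y ≠ 0) : False := by
  classical
  let A : ℕ → AddSubgroup G := fun r => (N r).comap G.subtype
  have hmax : ∀ r, ∃ s : Set (A r), LinearIndependent ℤ (fun i : s => (i : A r)) ∧
      ∀ x : A r, ∃ a : ℤ, a ≠ 0 ∧ a • x ∈ Submodule.span ℤ s := by
    intro r
    obtain ⟨s, hs, hs2⟩ := exists_maximal_linearIndepOn ℤ (fun x : A r => x)
    refine ⟨s, hs, fun x => ?_⟩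
    by_cases hx : x ∈ s
    · refine ⟨1, one_ne_zero, ?_⟩
      rw [one_smul]
      exact Submodule.subset_span hx
    · obtain ⟨a, ha, hax⟩ := hs2 x hx
      refine ⟨a, ha, ?_⟩
      simpa using hax
  choose s hsli hsmax using hmax
  -- the prime with the smallest rank
  haveI : Nonempty P := hP.nonempty.to_subtype
  let c : P → Cardinal := fun r => Cardinal.mk (s r.1)
  let p : P := Function.argmin c
  have hpmin : ∀ r : P, Nonempty (s p.1 ↪ s r.1) := by
    intro r
    have h1 : c p ≤ c r := Function.argmin_le c r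
    exact Cardinal.le_def _ _ |>.mp h1
  have hP' : (P \ {p.1}).Infinite := hP.sdiff (Set.finite_singleton p.1)
  let e : ℕ ↪ (P \ {p.1} : Set ℕ) := Set.Infinite.natEmbedding _ hP'
  let R : Option ℕ → ℕ := fun o => o.elim p.1 (fun j => (e j).1)
  have hRP : ∀ o, R o ∈ P := by
    rintro (_ | j)
    · exact p.2
    · exact (e j).2.1
  have hRprime : ∀ o, (R o).Prime := fun o => hprime _ (hRP o)
  have hRinj : Function.Injective R := by
    rintro (_ | i) (_ | j) hij
    · rfl
    · exact absurd hij.symm (e j).2.2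
    · exact absurd hij (e i).2.2
    · have : i = j := e.injective (Subtype.ext hij)
      rw [this]
  let u : ∀ o : Option ℕ, s p.1 ↪ s (R o) := fun o =>
    match o with
    | none => Function.Embedding.refl _
    | some j => (hpmin ⟨R (some j), hRP _⟩).some
  -- the homomorphisms from free groups
  let Φ0 : ∀ o : Option ℕ, (s p.1 →₀ ℤ) →ₗ[ℤ] A (R o) := fun o =>
    Finsupp.linearCombination ℤ (fun i => ((u o i : s (R o)) : A (R o)))
  have hΦ0inj : ∀ o, Function.Injective (Φ0 o) := by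
    intro o
    have h1 : LinearIndependent ℤ (fun i : s p.1 => ((u o i : s (R o)) : A (R o))) :=
      (hsli (R o)).comp (u o) (u o).injective
    exact h1
  let Φ : Option ℕ → ((s p.1 →₀ ℤ) →+ G) := fun o =>
    (A (R o)).subtype.comp (Φ0 o).toAddMonoidHom
  have hΦinj : ∀ o, Function.Injective (Φ o) := fun o =>
    Subtype.val_injective.comp (hΦ0inj o)
  have hΦN : ∀ o x, ((Φ o x : G) : K) ∈ N (R o) := fun o x => (Φ0 o x).2
  have hΦPT : ∀ o x, ((Φ o x : G) : K) ∈ PTS K (R o) := fun o x => hNPT _ (hRP o) (hΦN o x)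
  let V := s p.1 →₀ ℚ
  let β0 : (s p.1 →₀ ℤ) →+ V := Finsupp.mapRange.addMonoidHom (Int.castAddHom ℚ)
  have hβ0inj : Function.Injective β0 := by
    apply Finsupp.mapRange_injective
    · simp
    · exact Int.cast_injective
  let w : Option ℕ → ℚ := fun o => o.elim 1 (fun j => 1 / (Nat.factorial j : ℚ))
  let β : Option ℕ → ((s p.1 →₀ ℤ) →+ V) := fun o =>
    (DistribSMul.toAddMonoidHom V (w o)).comp β0
  let ΦΦ : (Option ℕ →₀ (s p.1 →₀ ℤ)) →+ G := Finsupp.liftAddHom Φ
  let ββ : (Option ℕ →₀ (s p.1 →₀ ℤ)) →+ V := Finsupp.liftAddHom β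
  obtain ⟨f, hf⟩ := feQ ΦΦ ββ (by
    intro a ha
    have h1 : ∑ o ∈ a.support, ((Φ o (a o) : G) : K) = 0 := by
      have h2 : ΦΦ a = ∑ o ∈ a.support, Φ o (a o) := rfl
      rw [h2] at ha
      have h3 := congrArg (fun x : G => (x : K)) ha
      simpa using h3
    have h2 := indep R hRprime hRinj a.support (fun o => ((Φ o (a o) : G) : K))
      (fun o => hΦPT o (a o)) h1
    have h3 : a = 0 := by
      ext1 o
      by_cases ho : o ∈ a.support
      · have h4 : Φ o (a o) = 0 := Subtype.ext (h2 o ho)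
        exact (injective_iff_map_eq_zero (Φ o)).mp (hΦinj o) _ h4
      · exact Finsupp.notMem_support_iff.mp ho
    rw [h3, map_zero])
  have hfo : ∀ o x, f (Φ o x) = β o x := by
    intro o x
    have h1 := hf (Finsupp.single o x)
    have h2 : ΦΦ (Finsupp.single o x) = Φ o x := by
      show Finsupp.liftAddHom Φ (Finsupp.single o x) = _
      rw [Finsupp.liftAddHom_apply_single]
    have h3 : ββ (Finsupp.single o x) = β o x := by
      show Finsupp.liftAddHom β (Finsupp.single o x) = _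
      rw [Finsupp.liftAddHom_apply_single]
    rw [h2, h3] at h1
    exact h1
  -- the kernel of `f` is dense
  have hdense : Dense ((f.ker.map G.subtype : AddSubgroup K) : Set K) := by
    by_contra hnd
    obtain ⟨θ, hθ, hθ0, hθk⟩ := exists_char_of_not_dense _ hnd
    obtain ⟨φ, hφ⟩ := feT f (θ.comp G.subtype) (fun g hg => hθk g ⟨g, hg, rfl⟩)
    have hkill : ∀ (i : s p.1) (m j : ℕ), 0 < m → m ≤ j →
        ∃ n : ℕ, (R (some j)) ^ n • φ (Finsupp.single i (1 / (m : ℚ))) = 0 := by
      intro i m j hm hmj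
      obtain ⟨n, hn⟩ := hΦPT (some j) (Finsupp.single i 1) θ hθ
      obtain ⟨d, hd⟩ : m ∣ Nat.factorial j := Nat.dvd_factorial hm hmj
      refine ⟨n, ?_⟩
      have h1 : φ (f (Φ (some j) (Finsupp.single i 1))) = θ (Φ (some j) (Finsupp.single i 1)) :=
        hφ _
      have h2 : f (Φ (some j) (Finsupp.single i 1)) =
          Finsupp.single i (1 / (Nat.factorial j : ℚ)) := by
        rw [hfo]
        show (1 / (Nat.factorial j : ℚ)) • β0 (Finsupp.single i 1) = _
        have h3 : β0 (Finsupp.single i 1) = Finsupp.single i (1 : ℚ) := by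
          have h4 : β0 (Finsupp.single i 1) = Finsupp.mapRange (Int.castAddHom ℚ)
            (map_zero (Int.castAddHom ℚ)) (Finsupp.single i (1 : ℤ)) := rfl
          rw [h4, Finsupp.mapRange_single]
          congr 1
        rw [h3, Finsupp.smul_single, smul_eq_mul, mul_one]
      have h3 : Finsupp.single i (1 / (m : ℚ)) =
          d • Finsupp.single i (1 / (Nat.factorial j : ℚ)) := by
        rw [Finsupp.smul_single]
        congr 1
        rw [hd, nsmul_eq_mul]
        have hm' : (m : ℚ) ≠ 0 := by exact_mod_cast hm.ne'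
        have hd' : (d : ℚ) ≠ 0 := by
          intro h0
          have h4 : d = 0 := by exact_mod_cast h0
          rw [h4, mul_zero] at hd
          exact (Nat.factorial_pos j).ne' hd
        push_cast
        field_simp
      rw [h3, map_nsmul, smul_comm, ← h2, h1, hn, smul_zero]
    have hzero : ∀ (i : s p.1) (m : ℕ), 0 < m → φ (Finsupp.single i (1 / (m : ℚ))) = 0 := by
      intro i m hm
      obtain ⟨n1, hn1⟩ := hkill i m m hm le_rfl
      obtain ⟨n2, hn2⟩ := hkill i m (m + 1) hm (Nat.le_succ m)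
      refine nsmul_eq_zero_of_coprime (q := R (some m)) (n := (R (some (m + 1))) ^ n2) _ n1 hn1
        hn2 ?_
      apply Nat.Coprime.pow_left
      rw [Nat.coprime_primes (hRprime _) (hRprime _)]
      intro hh
      have := hRinj hh
      simp at this
    have hφ0 : φ = 0 := by
      apply Finsupp.addHom_ext
      intro i q
      rw [AddMonoidHom.zero_apply]
      have h1 : Finsupp.single i q = q.num • Finsupp.single i (1 / (q.den : ℚ)) := by
        rw [Finsupp.smul_single]
        congr 1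
        rw [zsmul_eq_mul, mul_one_div]
        exact (Rat.num_div_den q).symm
      rw [h1, map_zsmul, hzero i q.den q.den_pos, smul_zero]
    apply hθ0
    ext x
    refine char_eq_zero h.dense θ hθ (fun g hg => ?_) x
    have h1 := hφ ⟨g, hg⟩
    rw [hφ0, AddMonoidHom.zero_apply] at h1
    exact h1.symm
  obtain ⟨x, hxD, hxN, hx0⟩ := h.ess _ (by rintro _ ⟨x, _, rfl⟩; exact x.2) hdense (N p.1)
    (hNc _ p.2) (hN0 _ p.2)
  obtain ⟨g, hg, rfl⟩ := hxD
  have hgf : f g = 0 := hg
  -- `f` is injective on the trace of `N p`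
  obtain ⟨a, ha, hspan⟩ := hsmax p.1 ⟨g, hxN⟩
  -- use the family of `none`
  have hnone : ∃ y : s p.1 →₀ ℤ, Finsupp.linearCombination ℤ (fun i : s p.1 => (i : A p.1)) y =
      a • (⟨g, hxN⟩ : A p.1) := by
    rw [← Subtype.range_coe (s := s p.1)] at hspan
    exact (Finsupp.mem_span_range_iff_exists_finsupp.mp hspan)
  obtain ⟨y, hy⟩ := hnone
  have h1 : Φ none y = a • g := by
    have h2 : Φ0 none y = a • (⟨g, hxN⟩ : A p.1) := hy
    exact congrArg (fun x : A p.1 => (x : G)) h2
  have h2 : β none y = 0 := by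
    rw [← hfo, h1, map_zsmul, hgf, smul_zero]
  have h3 : β0 y = 0 := by
    have h4 : (1 : ℚ) • β0 y = 0 := h2
    rwa [one_smul] at h4
  have h4 : y = 0 := (injective_iff_map_eq_zero β0).mp hβ0inj y h3
  rw [h4, map_zero] at h1
  apply hx0
  apply hNtf _ p.2 _ hxN a ha
  have h5 := congrArg (fun x : G => (x : K)) h1
  simpa using h5.symm

end NoInf

end Pool.Agent.H519DM
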