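import Pool.Agent.H519_DM.B3

set_option autoImplicit false

namespace Pool.Agent.H519DM

open Topology

section Tor

variable {K : Type*} [AddCommGroup K] [TopologicalSpace K] [IsTopologicalAddGroup K]
  [CompactSpace K] [T2Space K] {G : AddSubgroup K}

/-- The embedding of `TQ r` into the circle. -/
noncomputable def tqT (r : ℕ) : TQ r →+ UnitAddCircle :=
  Pool.Agent.R821.qToT.comp (TQ r).subtype

lemma tqT_injective (r : ℕ) : Function.Injective (tqT r) :=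
  Pool.Agent.R821.qToT_injective.comp Subtype.val_injective

/-- A topologically `r`-torsion point at which a given character of infinite order does not
vanish, and at which all characters of finite order vanish. -/
lemma exists_point {r : ℕ} (hr : r.Prime) (ψ : K →+ UnitAddCircle) (hψ : Continuous ψ)
    (hinf : ∀ n : ℤ, n • ψ = 0 → n = 0) :
    ∃ (k : K) (h : XX K →+ TQ r), (∀ χ : XX K, χ.1 k = tqT r (h χ)) ∧ ψ k ≠ 0 ∧
      ∀ θ : K →+ UnitAddCircle, Continuous θ → ∀ n : ℤ, n ≠ 0 → n • θ = 0 → θ k = 0 := by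
  let tX : AddSubgroup (XX K) :=
    { carrier := {χ | ∃ n : ℤ, n ≠ 0 ∧ n • χ = 0}
      zero_mem' := ⟨1, one_ne_zero, smul_zero _⟩
      add_mem' := by
        rintro a b ⟨n, hn, ha⟩ ⟨m, hm, hb⟩
        refine ⟨n * m, mul_ne_zero hn hm, ?_⟩
        rw [smul_add, mul_smul n m b, hb, smul_zero, mul_comm, mul_smul, ha, smul_zero,
          add_zero]
      neg_mem' := by
        rintro a ⟨n, hn, ha⟩
        exact ⟨n, hn, by rw [smul_neg, ha, neg_zero]⟩ }
  let ψ' : XX K := ⟨ψ, hψ⟩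
  obtain ⟨φ, hφ⟩ := (QC_TQ hr).exists_ne' (QuotientAddGroup.mk ψ' : XX K ⧸ tX) (by
    intro n hn
    have h1 : (QuotientAddGroup.mk (n • ψ') : XX K ⧸ tX) = 0 := hn
    obtain ⟨m, hm, hmn⟩ := (QuotientAddGroup.eq_zero_iff _).mp h1
    rw [← mul_smul] at hmn
    have h2 : (m * n) • ψ = 0 := congrArg Subtype.val hmn
    exact (mul_eq_zero.mp (hinf _ h2)).resolve_left hm)
  let h : XX K →+ TQ r := φ.comp (QuotientAddGroup.mk' tX)
  obtain ⟨k, hk⟩ := realize ((tqT r).comp h)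
  refine ⟨k, h, hk, ?_, ?_⟩
  · intro h0
    apply hφ
    apply tqT_injective r
    rw [map_zero]
    exact (hk ψ').symm.trans h0
  · intro θ hθ n hn hnθ
    have h1 : (QuotientAddGroup.mk' tX) ⟨θ, hθ⟩ = 0 :=
      (QuotientAddGroup.eq_zero_iff _).mpr ⟨n, hn, Subtype.ext hnθ⟩
    have h2 := hk ⟨θ, hθ⟩
    have h3 : h ⟨θ, hθ⟩ = 0 := by
      show φ ((QuotientAddGroup.mk' tX) ⟨θ, hθ⟩) = 0
      rw [h1, map_zero]
    rw [AddMonoidHom.comp_apply, h3, map_zero] at h2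
    exact h2

/-- the closed subgroup generated by an element -/
def clz (k : K) : AddSubgroup K := (AddSubgroup.zmultiples k).topologicalClosure

lemma isClosed_clz (k : K) : IsClosed (clz k : Set K) := AddSubgroup.isClosed_topologicalClosure _

lemma mem_clz (k : K) : k ∈ clz k :=
  AddSubgroup.le_topologicalClosure _ (AddSubgroup.mem_zmultiples k)

lemma clz_char {k x : K} (hx : x ∈ clz k) (θ : K →+ UnitAddCircle) (hθ : Continuous θ)
    (h0 : θ k = 0) : θ x = 0 := by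
  have hcl : IsClosed {x : K | θ x = 0} := isClosed_singleton.preimage hθ
  have h1 : ((AddSubgroup.zmultiples k : AddSubgroup K) : Set K) ⊆ {x : K | θ x = 0} := by
    intro y hy
    obtain ⟨c, rfl⟩ := AddSubgroup.mem_zmultiples_iff.mp hy
    show θ (c • k) = 0
    rw [map_zsmul, h0, smul_zero]
  exact closure_minimal h1 hcl hx

lemma clz_PTS {r : ℕ} {k : K} (h : XX K →+ TQ r) (hr : r.Prime)
    (hk : ∀ χ : XX K, χ.1 k = tqT r (h χ)) : clz k ≤ PTS K r := by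
  intro x hx θ hθ
  obtain ⟨n, hn⟩ := (QC_TQ hr).tors (h ⟨θ, hθ⟩)
  refine ⟨n, ?_⟩
  have h1 : (r ^ n • θ) k = 0 := by
    rw [AddMonoidHom.nsmul_apply]
    have h2 : θ k = tqT r (h ⟨θ, hθ⟩) := hk ⟨θ, hθ⟩
    rw [h2, ← map_nsmul, hn, map_zero]
  have h2 := clz_char hx (r ^ n • θ) ((continuous_nsmul (r ^ n)).comp hθ) h1
  exact h2

/-- If `k` is not torsion its closed span is torsion-free. -/
lemma clz_tf {r : ℕ} {k : K} (h : XX K →+ TQ r) (hr : r.Prime)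
    (hk : ∀ χ : XX K, χ.1 k = tqT r (h χ)) (hnt : ∀ e : ℕ, r ^ e • k ≠ 0) :
    ∀ x ∈ clz k, ∀ n : ℤ, n ≠ 0 → n • x = 0 → x = 0 := by
  intro x hx n hn hnx
  by_contra hx0
  obtain ⟨θ, hθ, hθx⟩ := pw K x hx0
  apply hθx
  have hT := QC_TQ hr
  obtain ⟨m, hm⟩ := hT.tors (h ⟨θ, hθ⟩)
  obtain ⟨a, n', hn', hnn⟩ := Nat.exists_eq_pow_mul_and_not_dvd (n := n.natAbs)
    (by omega) r hr.ne_one
  obtain ⟨θ', hθ', hθ'k⟩ := pw K _ (hnt (m + a))
  have hk' : θ' k = tqT r (h ⟨θ', hθ'⟩) := hk ⟨θ', hθ'⟩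
  have hkθ : θ k = tqT r (h ⟨θ, hθ⟩) := hk ⟨θ, hθ⟩
  have hne : r ^ m • (r ^ a • h ⟨θ', hθ'⟩) ≠ 0 := by
    intro h0
    apply hθ'k
    rw [map_nsmul, hk', ← map_nsmul, pow_add, mul_smul, h0, map_zero]
  obtain ⟨c, hc⟩ := hT.uni (h ⟨θ, hθ⟩) (r ^ a • h ⟨θ', hθ'⟩) m
    (by rw [pow_succ', mul_smul, hm, smul_zero]) hne
  have h1 : (θ - c • (r ^ a • θ')) k = 0 := by
    rw [AddMonoidHom.sub_apply, AddMonoidHom.zsmul_apply, AddMonoidHom.nsmul_apply, hk', hkθ, hc,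
      map_zsmul, map_nsmul, sub_self]
  have hcont : Continuous (θ - c • (r ^ a • θ')) := by
    have h2 : Continuous (fun x => θ x - c • (r ^ a • θ' x)) := by
      exact hθ.sub ((continuous_zsmul c).comp ((continuous_nsmul (r ^ a)).comp hθ'))
    exact h2
  have h2 := clz_char hx _ hcont h1
  have h3 : θ x = c • (θ' (r ^ a • x)) := by
    rw [AddMonoidHom.sub_apply, AddMonoidHom.zsmul_apply, AddMonoidHom.nsmul_apply,
      sub_eq_zero] at h2
    rw [h2, map_nsmul]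
  have h4 : θ' (r ^ a • x) = 0 := by
    obtain ⟨j, hj⟩ := clz_PTS h hr hk hx θ' hθ'
    refine nsmul_eq_zero_of_coprime (q := r) (n := n') _ j ?_ ?_ ?_
    · rw [map_nsmul, smul_comm, hj, smul_zero]
    · rw [← map_nsmul, ← mul_smul, mul_comm, ← hnn]
      have h5 : (n.natAbs) • x = 0 := by
        rcases Int.natAbs_eq n with h6 | h6
        · rw [h6, natCast_zsmul] at hnx
          exact hnx
        · rw [h6, neg_smul, natCast_zsmul, neg_eq_zero] at hnx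
          exact hnx
      rw [h5, map_zero]
    · exact ((Nat.Prime.coprime_iff_not_dvd hr).mpr hn').symm
  rw [h3, h4, smul_zero]

/-- For a character of infinite order, at almost all primes the point is torsion. -/
lemma HDM.exists_prime_tors (h : HDM G) (Q : Set ℕ) (hQ : Q.Infinite) (hQp : ∀ r ∈ Q, r.Prime)
    (ψ : K →+ UnitAddCircle) (hψ : Continuous ψ)
    (hinf : ∀ n : ℤ, n • ψ = 0 → n = 0) :
    ∃ r ∈ Q, ∃ k : K, (∃ e : ℕ, r ^ e • k = 0) ∧ ψ k ≠ 0 ∧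
      ∀ θ : K →+ UnitAddCircle, Continuous θ → ∀ n : ℤ, n ≠ 0 → n • θ = 0 → θ k = 0 := by
  classical
  by_contra hcon
  push Not at hcon
  have hex : ∀ r : ℕ, ∃ k : K, r ∈ Q → ∃ (hh : XX K →+ TQ r),
      (∀ χ : XX K, χ.1 k = tqT r (hh χ)) ∧ ψ k ≠ 0 ∧ (∀ e : ℕ, r ^ e • k ≠ 0) := by
    intro r
    by_cases hr : r ∈ Q
    · obtain ⟨k, hh, h1, h2, h3⟩ := exists_point (hQp r hr) ψ hψ hinf
      refine ⟨k, fun _ => ⟨hh, h1, h2, fun e he => ?_⟩⟩
      obtain ⟨θ, hθ, n, hn, hnθ, hne⟩ := hcon r hr k ⟨e, he⟩ h2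
      exact hne (h3 θ hθ n hn hnθ)
    · exact ⟨0, fun h => absurd h hr⟩
  choose k hk using hex
  refine h.noInf Q hQ hQp (fun r => clz (k r)) (fun r _ => isClosed_clz _) ?_ ?_ ?_
  · intro r hr
    obtain ⟨hh, h1, -, -⟩ := hk r hr
    exact clz_PTS hh (hQp r hr) h1
  · intro r hr
    obtain ⟨hh, h1, -, h3⟩ := hk r hr
    exact clz_tf hh (hQp r hr) h1 h3
  · intro r hr
    obtain ⟨hh, h1, h2, h3⟩ := hk r hr
    refine ⟨k r, mem_clz _, ?_⟩
    intro h0
    rw [h0, map_zero] at h2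
    exact h2 rfl

end Tor

end Pool.Agent.H519DM
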