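import Pool.Agent.H519_DM.B4

set_option autoImplicit false

namespace Pool.Agent.H519DM

open Topology

section Tor

variable {K : Type*} [AddCommGroup K] [TopologicalSpace K] [IsTopologicalAddGroup K]
  [CompactSpace K] [T2Space K] {G : AddSubgroup K}

/-- Divisibility inside the annihilator of the torsion characters. -/
lemma exists_div (s : K) (m : ℕ) (hm : m ≠ 0)
    (hs : ∀ θ : K →+ UnitAddCircle, Continuous θ → ∀ n : ℤ, n ≠ 0 → n • θ = 0 → θ s = 0) :
    ∃ k : K, m • k = s ∧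
      ∀ θ : K →+ UnitAddCircle, Continuous θ → ∀ n : ℤ, n ≠ 0 → n • θ = 0 → θ k = 0 := by
  let tX : AddSubgroup (XX K) :=
    { carrier := {χ | ∃ n : ℤ, n ≠ 0 ∧ n • χ = 0}
      zero_mem' := ⟨1, one_ne_zero, smul_zero _⟩
      add_mem' := by
        rintro a b ⟨n, hn, ha⟩ ⟨m, hm, hb⟩
        refine ⟨n * m, mul_ne_zero hn hm, ?_⟩
        rw [smul_add, mul_smul n m b, hb, smul_zero, mul_comm, mul_smul, ha, smul_zero,
          add_zero]
      neg_mem' := by
        rintro a ⟨n, hn, ha⟩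
        exact ⟨n, hn, by rw [smul_neg, ha, neg_zero]⟩ }
  let ev : XX K →+ UnitAddCircle :=
    { toFun := fun χ => χ.1 s
      map_zero' := rfl
      map_add' := fun _ _ => rfl }
  let β : XX K ⧸ tX →+ UnitAddCircle := QuotientAddGroup.lift tX ev (by
    rintro θ ⟨n, hn, hnθ⟩
    exact hs θ.1 θ.2 n hn (congrArg Subtype.val hnθ))
  obtain ⟨γ, hγ⟩ := feT (nsmulAddMonoidHom (α := XX K ⧸ tX) m) β (by
    intro x hx
    obtain ⟨χ, rfl⟩ := QuotientAddGroup.mk_surjective x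
    have h1 : (QuotientAddGroup.mk (m • χ) : XX K ⧸ tX) = 0 := hx
    obtain ⟨n, hn, hnχ⟩ := (QuotientAddGroup.eq_zero_iff _).mp h1
    have h2 : χ ∈ tX := by
      refine ⟨n * m, mul_ne_zero hn (by exact_mod_cast hm), ?_⟩
      rw [mul_smul, natCast_zsmul, hnχ]
    have h3 : (QuotientAddGroup.mk χ : XX K ⧸ tX) = 0 := (QuotientAddGroup.eq_zero_iff _).mpr h2
    rw [h3, map_zero])
  obtain ⟨k, hk⟩ := realize (γ.comp (QuotientAddGroup.mk' tX))
  refine ⟨k, ?_, ?_⟩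
  · by_contra hne
    obtain ⟨χ, hχ, hχk⟩ := pw K (m • k - s) (sub_ne_zero.mpr hne)
    apply hχk
    rw [map_sub, map_nsmul, sub_eq_zero]
    have h1 : χ k = γ ((QuotientAddGroup.mk' tX) ⟨χ, hχ⟩) := hk ⟨χ, hχ⟩
    rw [h1, ← map_nsmul]
    exact hγ ((QuotientAddGroup.mk' tX) ⟨χ, hχ⟩)
  · intro θ hθ n hn hnθ
    have h1 : (QuotientAddGroup.mk' tX) ⟨θ, hθ⟩ = 0 :=
      (QuotientAddGroup.eq_zero_iff _).mpr ⟨n, hn, Subtype.ext hnθ⟩
    have h2 := hk ⟨θ, hθ⟩
    rw [AddMonoidHom.comp_apply, h1, map_zero] at h2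
    exact h2

/-- All characters are torsion. -/
theorem HDM.char_torsion (h : HDM G) (χ : K →+ UnitAddCircle) (hχ : Continuous χ) :
    ∃ n : ℤ, n ≠ 0 ∧ n • χ = 0 := by
  classical
  by_contra hcon
  have hinf : ∀ n : ℤ, n • χ = 0 → n = 0 := by
    intro n hn
    by_contra h0
    exact hcon ⟨n, h0, hn⟩
  obtain ⟨p, hp, k, hke, hχk, hkt⟩ := h.exists_prime_tors {r | r.Prime} Nat.infinite_setOf_prime
    (fun r hr => hr) χ hχ hinf
  have hp' : p.Prime := hp
  have hi0 : Nat.find hke ≠ 0 := by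
    intro h0
    have h1 := Nat.find_spec hke
    rw [h0, pow_zero, one_smul] at h1
    rw [h1, map_zero] at hχk
    exact hχk rfl
  obtain ⟨i, hi⟩ := Nat.exists_eq_succ_of_ne_zero hi0
  have hi1 : p ^ (i + 1) • k = 0 := by
    have h1 := Nat.find_spec hke
    rw [hi] at h1
    exact h1
  have hs0 : p ^ i • k ≠ 0 := Nat.find_min hke (by omega)
  set s : K := p ^ i • k with hsdef
  have hps : p • s = 0 := by rw [hsdef, ← mul_smul, ← pow_succ', hi1]
  have hst : ∀ θ : K →+ UnitAddCircle, Continuous θ → ∀ n : ℤ, n ≠ 0 → n • θ = 0 → θ s = 0 := by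
    intro θ hθ n hn hnθ
    rw [hsdef, map_nsmul, hkt θ hθ n hn hnθ, smul_zero]
  have hsG : s ∈ G := h.mem_of_prime' hp' hps G le_rfl h.dense
  have hT := QC_TQ hp'
  have hps' : p • (⟨s, hsG⟩ : G) = 0 := Subtype.ext hps
  obtain ⟨f, hf⟩ := hT.exists_ne hp' (⟨s, hsG⟩ : G) hps'
    (fun h0 => hs0 (congrArg Subtype.val h0))
  obtain ⟨θ, hθ, ⟨g0, hg0⟩, hθf⟩ := h.char_through hp' f ⟨s, hsG⟩ hps' hf
  -- `θ` has finite order
  have hθt : ∃ n : ℤ, n ≠ 0 ∧ n • θ = 0 := by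
    by_contra hcon2
    have hinf2 : ∀ n : ℤ, n • θ = 0 → n = 0 := by
      intro n hn
      by_contra h0
      exact hcon2 ⟨n, h0, hn⟩
    obtain ⟨r, hr, k', ⟨e, hke'⟩, hθk', -⟩ := h.exists_prime_tors ({r | r.Prime} \ {p})
      (Nat.infinite_setOf_prime.sdiff (Set.finite_singleton p)) (fun r hr => hr.1) θ hθ hinf2
    have hrp : r.Prime := hr.1
    have hkG : k' ∈ G := h.P2g hrp e k' hke'
    apply hθk'
    refine hθf ⟨k', hkG⟩ ?_
    obtain ⟨n, hn⟩ := hT.tors (f ⟨k', hkG⟩)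
    refine nsmul_eq_zero_of_coprime (q := p) (n := r ^ e) _ n hn ?_ ?_
    · rw [← map_nsmul]
      have h1 : r ^ e • (⟨k', hkG⟩ : G) = 0 := Subtype.ext hke'
      rw [h1, map_zero]
    · apply Nat.Coprime.pow_left
      rw [Nat.coprime_primes hrp hp']
      exact hr.2
  obtain ⟨n, hn, hnθ⟩ := hθt
  apply hg0
  obtain ⟨m, hm⟩ := hT.tors (f g0)
  obtain ⟨km, hkm, hkmt⟩ := exists_div s (p ^ m) (pow_ne_zero m hp'.ne_zero) hst
  have hkmG : km ∈ G := h.P2g hp' (m + 1) km (by rw [pow_succ', mul_smul, hkm, hps])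
  have hfm : p ^ m • f ⟨km, hkmG⟩ ≠ 0 := by
    rw [← map_nsmul]
    have h1 : p ^ m • (⟨km, hkmG⟩ : G) = ⟨s, hsG⟩ := Subtype.ext hkm
    rw [h1]
    exact hf
  obtain ⟨c, hc⟩ := hT.uni (f g0) (f ⟨km, hkmG⟩) m (by rw [pow_succ', mul_smul, hm, smul_zero]) hfm
  have h1 : f (g0 - c • (⟨km, hkmG⟩ : G)) = 0 := by rw [map_sub, map_zsmul, ← hc, sub_self]
  have h2 := hθf _ h1
  have h3 : ((g0 - c • (⟨km, hkmG⟩ : G) : G) : K) = (g0 : K) - c • km := by simp
  rw [h3, map_sub, map_zsmul, hkmt θ hθ n hn hnθ, smul_zero, sub_zero] at h2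
  exact h2

omit [CompactSpace K] [T2Space K] in
/-- The kernel of a torsion character is open. -/
lemma isOpen_ker (θ : K →+ UnitAddCircle) (hθ : Continuous θ) (n : ℤ) (hn : n ≠ 0)
    (hnθ : n • θ = 0) : IsOpen (θ.ker : Set K) := by
  have hm : (0 : ℝ) < (n.natAbs : ℝ) := by
    exact_mod_cast Int.natAbs_pos.mpr hn
  have hnat : ∀ x, n.natAbs • θ x = 0 := by
    intro x
    have h1 : n • θ x = 0 := by
      have := DFunLike.congr_fun hnθ x
      exact this
    rcases Int.natAbs_eq n with h6 | h6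
    · rw [h6, natCast_zsmul] at h1
      exact h1
    · rw [h6, neg_smul, natCast_zsmul, neg_eq_zero] at h1
      exact h1
  apply AddSubgroup.isOpen_of_mem_nhds (g := 0)
  have hb : Metric.ball (0 : UnitAddCircle) (1 / (4 * n.natAbs)) ∈ nhds (θ 0) := by
    rw [map_zero]
    exact Metric.ball_mem_nhds _ (by positivity)
  filter_upwards [hθ.continuousAt.preimage_mem_nhds hb] with x hx
  have hx' : ‖θ x‖ < 1 / (4 * n.natAbs) := by
    have : dist (θ x) 0 < 1 / (4 * n.natAbs) := hx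
    rwa [dist_zero_right] at this
  show θ x = 0
  apply Pool.Agent.R821.eq_zero_of_small
  intro k
  have h1 : k • θ x = (k % n.natAbs) • θ x := by
    conv_lhs => rw [← Nat.mod_add_div k n.natAbs, add_smul, mul_comm, mul_smul, hnat, smul_zero,
      add_zero]
  have h2 : k % n.natAbs ≤ n.natAbs := (Nat.mod_lt _ (Int.natAbs_pos.mpr hn)).le
  calc ‖k • θ x‖ = ‖(k % n.natAbs) • θ x‖ := by rw [h1]
    _ ≤ (k % n.natAbs : ℕ) * ‖θ x‖ := norm_nsmul_le
    _ ≤ (n.natAbs : ℝ) * (1 / (4 * n.natAbs)) := by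
      apply mul_le_mul (by exact_mod_cast h2) hx'.le (norm_nonneg _) hm.le
    _ = 1 / 4 := by field_simp

/-- If all characters are torsion the group is nonarchimedean. -/
theorem nonarch_of_torsion
    (hK : ∀ χ : K →+ UnitAddCircle, Continuous χ → ∃ n : ℤ, n ≠ 0 ∧ n • χ = 0) :
    NonarchimedeanAddGroup K where
  is_nonarchimedean := by
    intro V hV
    obtain ⟨V', hV'V, hV'o, h0⟩ := mem_nhds_iff.mp hV
    have hc : IsCompact (V'ᶜ) := hV'o.isClosed_compl.isCompact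
    have hch : ∀ x : K, x ≠ 0 → ∃ U : AddSubgroup K, IsOpen (U : Set K) ∧ x ∉ U := by
      intro x hx
      obtain ⟨θ, hθ, hθx⟩ := pw K x hx
      obtain ⟨n, hn, hnθ⟩ := hK θ hθ
      exact ⟨θ.ker, isOpen_ker θ hθ n hn hnθ, hθx⟩
    classical
    have hch' : ∀ x : K, ∃ U : AddSubgroup K, IsOpen (U : Set K) ∧ (x ≠ 0 → x ∉ U) := by
      intro x
      by_cases hx : x = 0
      · exact ⟨⊤, isOpen_univ, fun h => absurd hx h⟩
      · obtain ⟨U, hU, hxU⟩ := hch x hx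
        exact ⟨U, hU, fun _ => hxU⟩
    choose U hU hxU using hch'
    obtain ⟨F, hF, hcov⟩ := hc.elim_nhds_subcover (fun x => (U x : Set K)ᶜ) (by
      intro x hx
      have hx0 : x ≠ 0 := by
        rintro rfl
        exact hx h0
      exact (AddSubgroup.isClosed_of_isOpen (U x) (hU x)).isOpen_compl.mem_nhds (hxU x hx0))
    refine ⟨⟨⨅ x ∈ F, U x, ?_⟩, ?_⟩
    · show IsOpen ((⨅ x ∈ F, U x : AddSubgroup K) : Set K)
      have h1 : ((⨅ x ∈ F, U x : AddSubgroup K) : Set K) = ⋂ x ∈ F, (U x : Set K) := by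
        simp [AddSubgroup.coe_iInf]
      rw [h1]
      exact isOpen_biInter_finset (fun x _ => hU x)
    · intro y hy
      apply hV'V
      by_contra hyV
      have h1 := hcov hyV
      simp only [Set.mem_iUnion] at h1
      obtain ⟨x, hx, hyx⟩ := h1
      have h2 : y ∈ (⨅ x ∈ F, U x : AddSubgroup K) := hy
      simp only [AddSubgroup.mem_iInf] at h2
      exact hyx (h2 x hx)

end Tor

end Pool.Agent.H519DM
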