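import Pool.Agent.H519_DM.B5

set_option autoImplicit false

namespace Pool.Agent.H519DM

open Topology

universe u

/-- Q2 for groups with a dense embedding in a compact nonarchimedean group. -/
theorem q2_core {G : Type*} [AddCommGroup G] [TopologicalSpace G]
    [IsTopologicalAddGroup G] [T2Space G] (h : DTMinimal G)
    {K : Type*} [AddCommGroup K] [TopologicalSpace K] [NonarchimedeanAddGroup K]
    [CompactSpace K] [T2Space K] (j : G →+ K) (hj : IsInducing j)
    (hinj : Function.Injective j) (hd : DenseRange j) : HMinimal G := by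
  have hdm := h.dm inferInstance
  have hH := hdm_of_dm hj hinj hd hdm
  refine hm_of_ess hj hinj (fun S hS N hN hNc hdis => ?_)
  by_contra hcon
  push Not at hcon
  -- replace N by the closure of its trace
  let N1 : AddSubgroup K := (j.range ⊓ N).topologicalClosure
  have hN1N : N1 ≤ N := by
    apply AddSubgroup.topologicalClosure_minimal _ inf_le_right hN
  have hN1ne : ∃ y ∈ N1, y ≠ 0 := by
    obtain ⟨x, hxG, hxN, hx0⟩ := hH.ess _ le_rfl hH.dense N hN hcon
    exact ⟨x, AddSubgroup.le_topologicalClosure _ ⟨hxG, hxN⟩, hx0⟩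
  have hN1c : IsClosed (N1 : Set K) := AddSubgroup.isClosed_topologicalClosure _
  obtain ⟨p, hp, y, hyN1, hy⟩ := exists_prime_not_div N1 hN1ne
  let M : AddSubgroup K := N1.map (nsmulAddMonoidHom (α := K) p)
  have hMN1 : M ≤ N1 := by
    rintro _ ⟨x, hx, rfl⟩
    exact N1.nsmul_mem hx p
  have hMc : IsClosed (M : Set K) := by
    have h1 : IsCompact ((fun x : K => p • x) '' (N1 : Set K)) :=
      hN1c.isCompact.image (continuous_const_smul p)
    exact h1.isClosed
  haveI : T2Space (K ⧸ M) := by
    haveI := hMc
    infer_instance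
  let π : K →+ K ⧸ M := QuotientAddGroup.mk' M
  have hπc : Continuous π := QuotientAddGroup.continuous_mk (N := M)
  have hπker : ∀ x, π x = 0 ↔ x ∈ M := fun x => QuotientAddGroup.eq_zero_iff x
  have hπsurj : Function.Surjective π := QuotientAddGroup.mk'_surjective M
  -- density in the quotient
  have hlift : ∀ D' : AddSubgroup (K ⧸ M), D' ≤ j.range.map π → Dense (D' : Set (K ⧸ M)) →
      Dense ((D'.comap (π.comp j) : AddSubgroup G) : Set G) := by
    intro D' hD' hD'd
    let DK : AddSubgroup K := (D'.comap (π.comp j)).map j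
    have hDKd : Dense (DK : Set K) := by
      have hMcl : ∀ z ∈ M, z ∈ closure (DK : Set K) := by
        rintro _ ⟨x, hx, rfl⟩
        have hx' : x ∈ closure ((j.range ⊓ N : AddSubgroup K) : Set K) := hx
        refine map_mem_closure (continuous_const_smul p) hx' ?_
        rintro _ ⟨⟨g, rfl⟩, hgN⟩
        refine ⟨p • g, ?_, map_nsmul j p g⟩
        show (π.comp j) (p • g) ∈ D'
        have h1 : j g ∈ N1 := AddSubgroup.le_topologicalClosure _ ⟨⟨g, rfl⟩, hgN⟩
        have h2 : (π.comp j) (p • g) = 0 := by
          show π (j (p • g)) = 0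
          rw [hπker, map_nsmul]
          exact ⟨j g, h1, rfl⟩
        rw [h2]; exact D'.zero_mem
      have hcl : IsClosed (π '' closure (DK : Set K)) :=
        (isClosed_closure.isCompact.image hπc).isClosed
      have hsub : (D' : Set (K ⧸ M)) ⊆ π '' closure (DK : Set K) := by
        intro d hd
        obtain ⟨_, ⟨g, rfl⟩, rfl⟩ := hD' hd
        exact ⟨j g, subset_closure ⟨g, hd, rfl⟩, rfl⟩
      intro z
      have h1 : π z ∈ π '' closure (DK : Set K) := by
        have := closure_minimal hsub hcl (hD'd (π z))
        exact this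
      obtain ⟨c, hc, hcz⟩ := h1
      have h2 : z - c ∈ M := by
        rw [← hπker, map_sub, hcz, sub_self]
      have h3 := hMcl _ h2
      have h4 : (z - c) + c ∈ DK.topologicalClosure :=
        AddSubgroup.add_mem _ h3 hc
      rw [sub_add_cancel] at h4
      exact h4
    have h1 := dense_comap hj DK (by rintro _ ⟨g, _, rfl⟩; exact ⟨g, rfl⟩) hDKd
    have h2 : DK.comap j = D'.comap (π.comp j) := by
      ext g
      constructor
      · rintro ⟨g', hg', hgg⟩
        have : g' = g := hinj hgg
        rw [← this]; exact hg'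
      · intro hg
        exact ⟨g, hg, rfl⟩
    rw [h2] at h1
    exact h1
  have hH' : HDM (j.range.map π) := by
    refine ⟨?_, fun D' hD' hD'd N' hN' hN'0 => ?_⟩
    · have h1 : DenseRange (π ∘ j) := hπsurj.denseRange.comp hd hπc
      intro z
      refine closure_mono ?_ (h1 z)
      rintro _ ⟨g, rfl⟩
      exact ⟨j g, ⟨g, rfl⟩, rfl⟩
    · by_contra hcon'
      push Not at hcon'
      obtain ⟨w, hw, hw0⟩ := hN'0
      apply hw0
      let D0 : AddSubgroup G := D'.comap (π.comp j)
      let k : D0 →+ K ⧸ M := (π.comp j).comp D0.subtype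
      have hkc : Continuous k := (hπc.comp hj.continuous).comp continuous_subtype_val
      have hkcl : IsClosed (k.ker : Set D0) := by
        have : (k.ker : Set D0) = k ⁻¹' {0} := rfl
        rw [this]
        exact isClosed_singleton.preimage hkc
      have hmin : Minimal' (D0 ⧸ k.ker) := h D0 (hlift D' hD' hD'd) k.ker hkcl
      let kb : D0 ⧸ k.ker →+ K ⧸ M := QuotientAddGroup.kerLift k
      have hkbc : Continuous kb :=
        (QuotientAddGroup.isQuotientMap_mk (N := k.ker)).continuous_iff.mpr hkc
      refine F1 hmin kb hkbc (QuotientAddGroup.kerLift_injective k) ?_ N' hN' ?_ w hw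
      · intro z
        refine closure_mono ?_ (hD'd z)
        intro x hx
        obtain ⟨_, ⟨g, rfl⟩, rfl⟩ := hD' hx
        exact ⟨QuotientAddGroup.mk (⟨g, hx⟩ : D0), rfl⟩
      · intro d hdN
        obtain ⟨d0, rfl⟩ := QuotientAddGroup.mk_surjective d
        have h1 : k d0 = 0 := hcon' _ d0.2 hdN
        exact (QuotientAddGroup.eq_zero_iff _).mpr h1
  -- apply the core in the quotient
  have hpy : p • π y = 0 := by
    rw [← map_nsmul, hπker]
    exact ⟨y, hyN1, rfl⟩
  have hycl : π y ∈ closure ((S.map π : AddSubgroup (K ⧸ M)) : Set (K ⧸ M)) := by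
    refine map_mem_closure hπc (hNc (hN1N hyN1)) ?_
    intro s hs
    exact ⟨s, hs, rfl⟩
  obtain ⟨t, htS, hty⟩ := hH'.core (QC_TQ hp) hp (S.map π) (AddSubgroup.map_mono hS) (π y) hpy hycl
  have h1 : y - t ∈ M := by
    rw [← hπker, map_sub, hty, sub_self]
  have h2 : t ∈ N := by
    have h3 := N.sub_mem (hN1N hyN1) (hN1N (hMN1 h1))
    simpa using h3
  have h3 : t = 0 := hdis t htS h2
  rw [h3, sub_zero] at h1
  obtain ⟨x, hx, hxy⟩ := h1
  exact hy x hx hxy.symm


/-- Precompactness. -/
def Precpt (G : Type*) [AddCommGroup G] [TopologicalSpace G] : Prop :=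
  ∀ V ∈ nhds (0 : G), ∃ F : Finset G, ∀ g : G, ∃ x ∈ F, g - x ∈ V

/-- A precompact group embeds densely in a compact one. -/
theorem exists_compact_embedding' {G : Type u} [AddCommGroup G] [TopologicalSpace G]
    [IsTopologicalAddGroup G] [T2Space G] (hp : Precpt G) :
    ∃ (K : Type u) (_ : AddCommGroup K) (_ : TopologicalSpace K) (_ : IsTopologicalAddGroup K)
      (_ : CompactSpace K) (_ : T2Space K) (j : G →+ K),
      IsInducing j ∧ Function.Injective j ∧ DenseRange j := by
  letI : UniformSpace G := IsTopologicalAddGroup.rightUniformSpace G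
  haveI : IsUniformAddGroup G := isUniformAddGroup_of_addCommGroup
  have htb : TotallyBounded (Set.univ : Set G) := by
    intro d hd
    rw [uniformity_eq_comap_nhds_zero] at hd
    obtain ⟨V, hV, hVd⟩ := Filter.mem_comap.mp hd
    have hV' : (fun x : G => -x) ⁻¹' V ∈ nhds (0 : G) := by
      apply continuous_neg.continuousAt.preimage_mem_nhds
      rw [neg_zero]; exact hV
    obtain ⟨F, hF⟩ := hp _ hV'
    refine ⟨F, F.finite_toSet, ?_⟩
    intro g _
    obtain ⟨x, hx, hgx⟩ := hF g
    simp only [Set.mem_iUnion]
    refine ⟨x, hx, ?_⟩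
    apply hVd
    have h1 : -(g - x) ∈ V := hgx
    rw [neg_sub] at h1
    exact h1
  have hcomp : CompactSpace (UniformSpace.Completion G) := by
    constructor
    have h1 : TotallyBounded (Set.range (UniformSpace.Completion.coe' : G →
        UniformSpace.Completion G)) := by
      rw [← Set.image_univ]
      exact htb.image (UniformSpace.Completion.uniformContinuous_coe G)
    have h2 := h1.closure
    rw [UniformSpace.Completion.denseRange_coe.closure_range] at h2
    exact h2.isCompact_of_isClosed isClosed_univ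
  refine ⟨UniformSpace.Completion G, inferInstance, inferInstance, inferInstance, hcomp,
    inferInstance, UniformSpace.Completion.toCompl, ?_, ?_, ?_⟩
  · exact (UniformSpace.Completion.isDenseInducing_coe (α := G)).isInducing
  · exact UniformSpace.Completion.coe_injective G
  · exact UniformSpace.Completion.denseRange_coe

/-- A densely minimal precompact abelian group embeds densely in a compact nonarchimedean one. -/
theorem exists_profinite_embedding {G : Type u} [AddCommGroup G] [TopologicalSpace G]
    [IsTopologicalAddGroup G] [T2Space G] (hp : Precpt G) (h : DMinimal G) :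
    ∃ (K : Type u) (_ : AddCommGroup K) (_ : TopologicalSpace K) (_ : NonarchimedeanAddGroup K)
      (_ : CompactSpace K) (_ : T2Space K) (j : G →+ K),
      IsInducing j ∧ Function.Injective j ∧ DenseRange j := by
  obtain ⟨K, _, _, _, _, _, j, hj, hinj, hd⟩ := exists_compact_embedding' hp
  have hH := hdm_of_dm' hj hinj hd h
  exact ⟨K, inferInstance, inferInstance, nonarch_of_torsion (fun χ hχ => hH.char_torsion χ hχ),
    inferInstance, inferInstance, j, hj, hinj, hd⟩

/-- Q2 for precompact groups. -/
theorem q2_precpt {G : Type u} [AddCommGroup G] [TopologicalSpace G]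
    [IsTopologicalAddGroup G] [T2Space G] (hp : Precpt G) (h : DTMinimal G) : HMinimal G := by
  obtain ⟨K, _, _, _, _, _, j, hj, hinj, hd⟩ := exists_profinite_embedding hp (h.dm inferInstance)
  exact q2_core h j hj hinj hd

/-- Q1 for precompact groups with torsion. -/
theorem q1_precpt {G : Type u} [AddCommGroup G] [TopologicalSpace G] [IsTopologicalAddGroup G]
    [T2Space G] (hp : Precpt G)
    (x : G) (hx : x ≠ 0) (n : ℕ) (hn : n ≠ 0) (hnx : n • x = 0) (h : DMinimal G) :
    HMinimal G := by
  obtain ⟨K, _, _, _, _, _, j, hj, hinj, hd⟩ := exists_profinite_embedding hp h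
  have hH := hdm_of_dm hj hinj hd h
  have hord : addOrderOf (j x) ≠ 1 := by
    intro h1
    apply hx
    apply hinj
    rw [map_zero]
    exact AddMonoid.addOrderOf_eq_one_iff.mp h1
  obtain ⟨q, hq, m, hm⟩ := Nat.exists_prime_and_dvd hord
  have hpos : addOrderOf (j x) ≠ 0 := by
    intro h0
    have h1 : addOrderOf (j x) ∣ n := by
      apply addOrderOf_dvd_of_nsmul_eq_zero
      rw [← map_nsmul, hnx, map_zero]
    rw [h0] at h1
    exact hn (Nat.eq_zero_of_zero_dvd h1)
  have hmpos : 0 < m := by
    rcases Nat.eq_zero_or_pos m with h0 | h0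
    · exact absurd (by rw [hm, h0, mul_zero]) hpos
    · exact h0
  refine hm_of_ess hj hinj (fun S hS N hN hNc hdis =>
    hH.essential_of_torsion q hq (m • j x) ?_ ?_ S hS N hN hNc hdis)
  · rw [← mul_smul, ← hm, addOrderOf_nsmul_eq_zero]
  · intro h0
    have h1 : addOrderOf (j x) ∣ m := addOrderOf_dvd_of_nsmul_eq_zero h0
    have h2 := Nat.le_of_dvd hmpos h1
    have h3 : m * 2 ≤ q * m := by
      rw [mul_comm m 2]; exact Nat.mul_le_mul_right m hq.two_le
    omega

end Pool.Agent.H519DM
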