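import Pool.Agent.H519_DM.B6

set_option autoImplicit false

namespace Pool.Agent.H519DM

open Topology

section CircleT

lemma tqT_surj {q : ℕ} (hq : q.Prime) (t : UnitAddCircle) (n : ℕ) (h : q ^ n • t = 0) :
    ∃ y : TQ q, tqT q y = t := by
  obtain ⟨r, rfl⟩ := QuotientAddGroup.mk_surjective t
  have h1 : ((q ^ n • r : ℝ) : UnitAddCircle) = 0 := h
  rw [AddCircle.coe_eq_zero_iff] at h1
  obtain ⟨k, hk⟩ := h1
  have hq0 : (q : ℝ) ≠ 0 := by exact_mod_cast hq.ne_zero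
  have hr : r = (((k / q ^ n : ℚ)) : ℝ) := by
    rw [nsmul_eq_mul, zsmul_eq_mul, mul_one] at hk
    push_cast at hk ⊢
    field_simp
    linarith
  have hy : ((k / q ^ n : ℚ) : AddCircle (1 : ℚ)) ∈ TQ q := by
    refine ⟨n, ?_⟩
    have h2 : q ^ n • ((k / q ^ n : ℚ) : AddCircle (1 : ℚ)) =
        ((q ^ n • (k / q ^ n) : ℚ) : AddCircle (1 : ℚ)) := rfl
    rw [h2, AddCircle.coe_eq_zero_iff]
    refine ⟨k, ?_⟩
    have hq0' : (q : ℚ) ≠ 0 := by exact_mod_cast hq.ne_zero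
    rw [nsmul_eq_mul, zsmul_eq_mul, mul_one]
    push_cast
    field_simp
  refine ⟨⟨_, hy⟩, ?_⟩
  show Pool.Agent.R821.qToT ((k / q ^ n : ℚ) : AddCircle (1 : ℚ)) = _
  rw [hr]
  rfl

lemma uniT {q : ℕ} (hq : q.Prime) (a b : UnitAddCircle) (m n : ℕ) (ha : q ^ (m + 1) • a = 0)
    (hb : q ^ m • b ≠ 0) (hb' : q ^ n • b = 0) : ∃ c : ℤ, a = c • b := by
  obtain ⟨a', rfl⟩ := tqT_surj hq a _ ha
  obtain ⟨b', rfl⟩ := tqT_surj hq b _ hb'
  obtain ⟨c, hc⟩ := (QC_TQ hq).uni a' b' m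
    (by apply tqT_injective q; rw [map_nsmul, map_zero]; exact ha)
    (by
      intro h0
      apply hb
      rw [← map_nsmul, h0, map_zero])
  exact ⟨c, by rw [hc, map_zsmul]⟩

end CircleT

section Tools

variable {K : Type*} [AddCommGroup K] [TopologicalSpace K] [IsTopologicalAddGroup K]
  [CompactSpace K] [T2Space K]

/-- All characters are torsion. -/
def TX (K : Type*) [AddCommGroup K] [TopologicalSpace K] : Prop :=
  ∀ χ : K →+ UnitAddCircle, Continuous χ → ∃ n : ℤ, n ≠ 0 ∧ n • χ = 0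

omit [IsTopologicalAddGroup K] [CompactSpace K] [T2Space K] in
lemma TX.nat (hX : TX K) (χ : K →+ UnitAddCircle) (hχ : Continuous χ) :
    ∃ n : ℕ, n ≠ 0 ∧ n • χ = 0 := by
  obtain ⟨n, hn, hnχ⟩ := hX χ hχ
  refine ⟨n.natAbs, by omega, ?_⟩
  rcases Int.natAbs_eq n with h | h
  · rw [h, natCast_zsmul] at hnχ
    exact hnχ
  · rw [h, neg_smul, natCast_zsmul, neg_eq_zero] at hnχ
    exact hnχ

lemma cont_nsmul (n : ℕ) {θ : K →+ UnitAddCircle} (hθ : Continuous θ) : Continuous (n • θ) :=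
  (continuous_nsmul n).comp hθ

lemma cont_zsmul (n : ℤ) {θ : K →+ UnitAddCircle} (hθ : Continuous θ) : Continuous (n • θ) :=
  (continuous_zsmul n).comp hθ

lemma cont_sub {θ η : K →+ UnitAddCircle} (hθ : Continuous θ) (hη : Continuous η) :
    Continuous (θ - η) := by
  have : Continuous (fun x => θ x - η x) := hθ.sub hη
  exact this

/-- Components. -/
lemma exists_comp (hX : TX K) {p : ℕ} (hp : p.Prime) (x : K) :
    ∃ k : K, k ∈ PTS K p ∧ k ∈ clz x ∧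
      ∀ θ : K →+ UnitAddCircle, Continuous θ → ∀ n : ℕ, p ^ n • θ = 0 → θ k = θ x := by
  let Xp : AddSubgroup (XX K) :=
    { carrier := {χ | ∃ n : ℕ, p ^ n • χ = 0}
      zero_mem' := ⟨0, smul_zero _⟩
      add_mem' := by
        rintro a b ⟨n, ha⟩ ⟨m, hb⟩
        refine ⟨n + m, ?_⟩
        rw [smul_add, pow_add, mul_smul (p ^ n) (p ^ m) b, hb, smul_zero, mul_comm, mul_smul, ha,
          smul_zero, add_zero]
      neg_mem' := by
        rintro a ⟨n, ha⟩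
        exact ⟨n, by rw [smul_neg, ha, neg_zero]⟩ }
  let Xq : AddSubgroup (XX K) :=
    { carrier := {χ | ∃ n : ℕ, n.Coprime p ∧ n • χ = 0}
      zero_mem' := ⟨1, Nat.coprime_one_left p, smul_zero _⟩
      add_mem' := by
        rintro a b ⟨n, hn, ha⟩ ⟨m, hm, hb⟩
        refine ⟨n * m, Nat.Coprime.mul_left hn hm, ?_⟩
        rw [smul_add, mul_smul n m b, hb, smul_zero, mul_comm, mul_smul, ha,
          smul_zero, add_zero]
      neg_mem' := by
        rintro a ⟨n, hn, ha⟩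
        exact ⟨n, hn, by rw [smul_neg, ha, neg_zero]⟩ }
  let ev : XX K →+ UnitAddCircle :=
    { toFun := fun χ => χ.1 x
      map_zero' := rfl
      map_add' := fun _ _ => rfl }
  obtain ⟨γ, hγ⟩ := feT (Xp.subtype.coprod Xq.subtype) ((ev.comp Xp.subtype).coprod 0) (by
    rintro ⟨a, b⟩ hab
    have h1 : (a : XX K) + b = 0 := hab
    obtain ⟨n, hn⟩ := a.2
    obtain ⟨m, hm, hb⟩ := b.2
    have h2 : (a : XX K) = -b := eq_neg_of_add_eq_zero_left h1
    have h3 : (a : XX K) = 0 := by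
      apply nsmul_eq_zero_of_coprime (q := p) (n := m) _ n hn _ hm
      rw [h2, smul_neg, hb, neg_zero]
    show ev (a : XX K) + 0 = 0
    rw [h3, map_zero, add_zero])
  obtain ⟨k, hk⟩ := realize γ
  have hA : ∀ a : XX K, a ∈ Xp → a.1 k = a.1 x := by
    intro a ha
    rw [hk]
    have h1 := hγ (⟨a, ha⟩, 0)
    have h2 : (Xp.subtype.coprod Xq.subtype) (⟨a, ha⟩, 0) = a := by
      simp [AddMonoidHom.coprod_apply]
    rw [h2] at h1
    rw [h1]
    show ev a + 0 = _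
    rw [add_zero]
    rfl
  have hB : ∀ b : XX K, b ∈ Xq → b.1 k = 0 := by
    intro b hb
    rw [hk]
    have h1 := hγ (0, ⟨b, hb⟩)
    have h2 : (Xp.subtype.coprod Xq.subtype) (0, ⟨b, hb⟩) = b := by
      simp [AddMonoidHom.coprod_apply]
    rw [h2] at h1
    rw [h1]
    show (ev.comp Xp.subtype) 0 + 0 = 0
    rw [map_zero, add_zero]
  refine ⟨k, ?_, ?_, ?_⟩
  · intro θ hθ
    obtain ⟨n, hn, hnθ⟩ := hX.nat θ hθ
    obtain ⟨e, n', hn', hnn⟩ := Nat.exists_eq_pow_mul_and_not_dvd hn p hp.ne_one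
    refine ⟨e, ?_⟩
    have h1 := hB (p ^ e • ⟨θ, hθ⟩) ⟨n', ((Nat.Prime.coprime_iff_not_dvd hp).mpr hn').symm, by
      rw [← mul_smul, mul_comm, ← hnn]
      exact Subtype.ext hnθ⟩
    exact h1
  · by_contra hkx
    obtain ⟨θ, hθ, hθx, hθk⟩ := exists_char_sep_closed (clz x) (isClosed_clz x) k hkx
    obtain ⟨n, hn, hnθ⟩ := hX.nat θ hθ
    obtain ⟨e, n', hn', hnn⟩ := Nat.exists_eq_pow_mul_and_not_dvd hn p hp.ne_one
    have hcop : Nat.Coprime n' (p ^ e) :=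
      Nat.Coprime.pow_right _ ((Nat.Prime.coprime_iff_not_dvd hp).mpr hn').symm
    apply hθk
    -- both `p ^ e • θ k = 0` and `n' • θ k = 0`
    refine nsmul_eq_zero_of_coprime (q := p) (n := n') _ e ?_ ?_
      ((Nat.Prime.coprime_iff_not_dvd hp).mpr hn').symm
    · have h1 := hB (p ^ e • ⟨θ, hθ⟩) ⟨n', ((Nat.Prime.coprime_iff_not_dvd hp).mpr hn').symm, by
        rw [← mul_smul, mul_comm, ← hnn]
        exact Subtype.ext hnθ⟩
      exact h1
    · have h1 := hA (n' • ⟨θ, hθ⟩) ⟨e, by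
        rw [← mul_smul, ← hnn]
        exact Subtype.ext hnθ⟩
      have h2 : n' • θ k = n' • θ x := h1
      rw [h2, hθx x (mem_clz x), smul_zero]
  · intro θ hθ n hnθ
    exact hA ⟨θ, hθ⟩ ⟨n, Subtype.ext hnθ⟩

/-- The primary component is closed. -/
lemma isClosed_PTS (hX : TX K) {p : ℕ} (hp : p.Prime) : IsClosed (PTS K p : Set K) := by
  have h1 : (PTS K p : Set K) = ⋂ θ : {θ : K →+ UnitAddCircle // Continuous θ ∧
      ∃ m : ℕ, m.Coprime p ∧ m • θ = 0}, {x : K | θ.1 x = 0} := by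
    ext x
    simp only [Set.mem_iInter]
    constructor
    · rintro hx ⟨θ, hθ, m, hm, hmθ⟩
      obtain ⟨n, hn⟩ := hx θ hθ
      have h2 : m • θ x = 0 := DFunLike.congr_fun hmθ x
      exact nsmul_eq_zero_of_coprime (q := p) (n := m) _ n hn h2 hm
    · intro hx θ hθ
      obtain ⟨n, hn, hnθ⟩ := hX.nat θ hθ
      obtain ⟨e, n', hn', hnn⟩ := Nat.exists_eq_pow_mul_and_not_dvd hn p hp.ne_one
      refine ⟨e, ?_⟩
      exact hx ⟨p ^ e • θ, cont_nsmul _ hθ, n', ((Nat.Prime.coprime_iff_not_dvd hp).mpr hn').symm,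
        by rw [← mul_smul, mul_comm, ← hnn, hnθ]⟩
  rw [h1]
  exact isClosed_iInter (fun θ => isClosed_singleton.preimage θ.2.1)

/-- `(F)` -/
lemma lemF {p : ℕ} (hp : p.Prime) {k g : K} (hk : k ∈ PTS K p) (hg : g ∈ clz k) (hg0 : g ≠ 0) :
    ∃ m : ℕ, p ^ m • k ∈ clz g := by
  obtain ⟨θ0, hθ0, hθ0g⟩ := pw K g hg0
  obtain ⟨m, hm⟩ := hk θ0 hθ0
  refine ⟨m, ?_⟩
  by_contra hcon
  obtain ⟨θ, hθ, hθg, hθk⟩ := exists_char_sep_closed (clz g) (isClosed_clz g) _ hcon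
  rw [map_nsmul] at hθk
  obtain ⟨n, hn⟩ := hk θ hθ
  obtain ⟨c, hc⟩ := uniT hp (θ0 k) (θ k) m n (by rw [pow_succ', mul_smul, hm, smul_zero]) hθk hn
  have h1 : (θ0 - c • θ) k = 0 := by
    rw [AddMonoidHom.sub_apply, AddMonoidHom.zsmul_apply, hc, sub_self]
  have h2 := clz_char hg _ (cont_sub hθ0 (cont_zsmul c hθ)) h1
  rw [AddMonoidHom.sub_apply, AddMonoidHom.zsmul_apply, hθg g (mem_clz g), smul_zero, sub_zero]
    at h2
  exact hθ0g h2

/-- `(BL)` -/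
lemma lemBL {p : ℕ} (hp : p.Prime) {y w : K} (hy : y ∈ PTS K p) (hw : w ∈ clz y)
    (hyw : y ∉ clz w) : ∃ w' ∈ clz y, w = p • w' := by
  classical
  obtain ⟨θ, hθ, hθw, hθy⟩ := exists_char_sep_closed (clz w) (isClosed_clz w) y hyw
  have hex : ∃ n : ℕ, p ^ n • θ y = 0 := hy θ hθ
  have hi0 : Nat.find hex ≠ 0 := by
    intro h0
    have h1 := Nat.find_spec hex
    rw [h0, pow_zero, one_smul] at h1
    exact hθy h1
  obtain ⟨i, hi⟩ := Nat.exists_eq_succ_of_ne_zero hi0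
  have hi1 : p ^ (i + 1) • θ y = 0 := by
    have h1 := Nat.find_spec hex
    rw [hi] at h1
    exact h1
  have hi2 : p ^ i • θ y ≠ 0 := Nat.find_min hex (by omega)
  let M : AddSubgroup K := (clz y).map (nsmulAddMonoidHom (α := K) p)
  have hMc : IsClosed (M : Set K) := by
    have h1 : IsCompact ((fun x : K => p • x) '' (clz y : Set K)) :=
      (isClosed_clz y).isCompact.image (continuous_nsmul p)
    exact h1.isClosed
  by_contra hcon
  have hwM : w ∉ M := by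
    rintro ⟨w', hw', hww⟩
    exact hcon ⟨w', hw', hww.symm⟩
  obtain ⟨η, hη, hηM, hηw⟩ := exists_char_sep_closed M hMc w hwM
  have h1 : p ^ (0 + 1) • η y = 0 := by
    rw [zero_add, pow_one, ← map_nsmul]
    exact hηM _ ⟨y, mem_clz y, rfl⟩
  obtain ⟨c, hc⟩ := uniT hp (η y) (p ^ i • θ y) 0 1 h1 (by rw [pow_zero, one_smul]; exact hi2)
    (by rw [pow_one, ← mul_smul, ← pow_succ', hi1])
  have h2 : (η - c • (p ^ i • θ)) y = 0 := by
    rw [AddMonoidHom.sub_apply, AddMonoidHom.zsmul_apply, AddMonoidHom.nsmul_apply, hc, sub_self]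
  have h3 := clz_char hw _ (cont_sub hη (cont_zsmul c (cont_nsmul _ hθ))) h2
  rw [AddMonoidHom.sub_apply, AddMonoidHom.zsmul_apply, AddMonoidHom.nsmul_apply,
    hθw w (mem_clz w), smul_zero, smul_zero, sub_zero] at h3
  exact hηw h3

end Tools

end Pool.Agent.H519DM
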