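import Pool.Agent.H519_DM.C1

set_option autoImplicit false

namespace Pool.Agent.H519DM

open Topology

section Tools

variable {K : Type*} [AddCommGroup K] [TopologicalSpace K] [IsTopologicalAddGroup K]
  [CompactSpace K] [T2Space K] {G : AddSubgroup K}

lemma clz_le {N : AddSubgroup K} (hN : IsClosed (N : Set K)) {x : K} (hx : x ∈ N) : clz x ≤ N := by
  apply AddSubgroup.topologicalClosure_minimal _ _ hN
  rw [AddSubgroup.zmultiples_le]
  exact hx

/-- Torsion-freeness. -/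
def TFK (K : Type*) [AddCommGroup K] : Prop := ∀ x : K, ∀ n : ℕ, n ≠ 0 → n • x = 0 → x = 0

/-- Pairwise intersection inside the primary component (by the Baire category theorem). -/
lemma HDM.baire (h : HDM G) (hX : TX K) (htf : TFK K) (hG : Countable G) {p : ℕ} (hp : p.Prime)
    (N1 N2 : AddSubgroup K) (hN1 : IsClosed (N1 : Set K)) (hN2 : IsClosed (N2 : Set K))
    (hP1 : N1 ≤ PTS K p) (hP2 : N2 ≤ PTS K p) (x1 x2 : K) (hx1 : x1 ∈ N1) (hx2 : x2 ∈ N2)
    (hx10 : x1 ≠ 0) (hx20 : x2 ≠ 0) : ∃ y, y ≠ 0 ∧ y ∈ N1 ∧ y ∈ N2 := by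
  haveI : NonarchimedeanAddGroup K := nonarch_of_torsion hX
  have hLc : IsClosed (PTS K p : Set K) := isClosed_PTS hX hp
  haveI : CompactSpace (PTS K p) := isCompact_iff_compactSpace.1 hLc.isCompact
  let f : Option G → Set (PTS K p) := fun o => o.elim {0}
    (fun g => {x | g ≠ 0 ∧ (g : K) ∈ clz (x : K)})
  have hopen : ∀ θ : K →+ UnitAddCircle, Continuous θ → IsOpen {x : K | θ x = 0} := by
    intro θ hθ
    obtain ⟨n, hn, hnθ⟩ := hX θ hθ
    exact isOpen_ker θ hθ n hn hnθ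
  have hfc : ∀ o, IsClosed (f o) := by
    rintro (_ | g)
    · exact isClosed_singleton
    · by_cases hg : g = 0
      · have : f (some g) = ∅ := by
          ext x
          simp only [Set.mem_empty_iff_false, iff_false]
          rintro ⟨h1, -⟩
          exact h1 hg
        rw [this]
        exact isClosed_empty
      · have : f (some g) = ⋂ θ : {θ : K →+ UnitAddCircle // Continuous θ ∧ θ g ≠ 0},
            {x : PTS K p | θ.1 (x : K) ≠ 0} := by
          ext x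
          simp only [Set.mem_iInter]
          constructor
          · rintro ⟨-, h1⟩ θ h0
            exact θ.2.2 (clz_char h1 θ.1 θ.2.1 h0)
          · intro hx
            refine ⟨hg, ?_⟩
            by_contra hcon
            obtain ⟨θ, hθ, hθx, hθg⟩ := exists_char_sep_closed (clz (x : K)) (isClosed_clz _) _ hcon
            exact hx ⟨θ, hθ, hθg⟩ (hθx _ (mem_clz _))
        rw [this]
        refine isClosed_iInter (fun θ => ?_)
        rw [← isOpen_compl_iff]
        have h2 : {x : PTS K p | θ.1 (x : K) ≠ 0}ᶜ =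
            (Subtype.val : PTS K p → K) ⁻¹' {x : K | θ.1 x = 0} := by
          ext x
          simp
        rw [h2]
        exact (hopen θ.1 θ.2.1).preimage continuous_subtype_val
  have hfU : ⋃ o, f o = Set.univ := by
    apply Set.eq_univ_of_forall
    intro x
    by_cases hx : x = 0
    · exact Set.mem_iUnion.mpr ⟨none, hx⟩
    · obtain ⟨g, hgG, hgc, hg0⟩ := h.ess G le_rfl h.dense (clz (x : K)) (isClosed_clz _)
        ⟨x, mem_clz _, fun h0 => hx (Subtype.ext h0)⟩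
      refine Set.mem_iUnion.mpr ⟨some ⟨g, hgG⟩, ?_, hgc⟩
      intro h0
      exact hg0 (congrArg Subtype.val h0)
  obtain ⟨o, x0, hx0⟩ := nonempty_interior_of_iUnion_of_closed hfc hfU
  -- an open subgroup `U` with `x0 + u` in `f o` for `u` in `U`
  obtain ⟨V, hV, hVe⟩ := isOpen_induced_iff.mp (isOpen_interior (s := f o))
  have hx0V : (x0 : K) ∈ V := by
    have : x0 ∈ Subtype.val ⁻¹' V := by rw [hVe]; exact hx0
    exact this
  have hnb : (fun y : K => (x0 : K) + y) ⁻¹' V ∈ nhds (0 : K) := by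
    apply (continuous_const.add continuous_id).continuousAt.preimage_mem_nhds
    apply hV.mem_nhds
    simpa using hx0V
  obtain ⟨U, hU⟩ := NonarchimedeanAddGroup.is_nonarchimedean _ hnb
  have hUf : ∀ u : PTS K p, (u : K) ∈ U → x0 + u ∈ f o := by
    intro u hu
    have h1 : ((x0 + u : PTS K p) : K) ∈ V := hU hu
    have h2 : x0 + u ∈ Subtype.val ⁻¹' V := h1
    rw [hVe] at h2
    exact interior_subset h2
  obtain ⟨n, hn0, hnU⟩ : ∃ n : ℕ, n ≠ 0 ∧ ∀ x : K, n • x ∈ U := by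
    haveI : Finite (K ⧸ U.toAddSubgroup) := AddSubgroup.quotient_finite_of_isOpen _ U.isOpen'
    refine ⟨Nat.card (K ⧸ U.toAddSubgroup), Nat.card_pos.ne', fun x => ?_⟩
    have h1 : Nat.card (K ⧸ U.toAddSubgroup) • (QuotientAddGroup.mk x : K ⧸ U.toAddSubgroup) = 0 :=
      card_nsmul_eq_zero'
    exact (QuotientAddGroup.eq_zero_iff _).mp h1
  rcases o with _ | g
  · exfalso
    have h0' : x0 ∈ f none := interior_subset hx0
    have h0 : x0 = 0 := h0'
    have h1 : x0 + n • (⟨x1, hP1 hx1⟩ : PTS K p) ∈ f none := hUf _ (hnU x1)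
    have h1' : x0 + n • (⟨x1, hP1 hx1⟩ : PTS K p) = 0 := h1
    rw [h0, zero_add] at h1'
    have h2 : n • x1 = 0 := congrArg Subtype.val h1'
    exact hx10 (htf _ _ hn0 h2)
  · have hx0f : x0 ∈ f (some g) := interior_subset hx0
    have hx0f' : g ≠ 0 ∧ (g : K) ∈ clz (x0 : K) := hx0f
    have hg0 : g ≠ 0 := hx0f'.1
    have hg0' : (g : K) ≠ 0 := fun h1 => hg0 (Subtype.ext h1)
    have hgx0 : (g : K) ∈ clz (x0 : K) := hx0f'.2
    have hgP : (g : K) ∈ PTS K p := clz_le hLc x0.2 hgx0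
    obtain ⟨m0, hm0⟩ := lemF hp x0.2 hgx0 hg0'
    have hkey : ∀ x ∈ PTS K p, x ≠ 0 → ∀ N : AddSubgroup K, IsClosed (N : Set K) → x ∈ N →
        ∃ a : ℕ, p ^ a • (g : K) ∈ N := by
      intro x hx hx0' N hN hxN
      have h1 : g ≠ 0 ∧ (g : K) ∈ clz ((x0 : K) + n • x) := by
        have h1' : x0 + n • (⟨x, hx⟩ : PTS K p) ∈ f (some g) := hUf _ (hnU x)
        exact h1'
      obtain ⟨m1, hm1⟩ := lemF hp ((PTS K p).add_mem x0.2 ((PTS K p).nsmul_mem hx n)) h1.2 hg0'
      have h2 : p ^ (m0 + m1) • n • x ∈ clz (g : K) := by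
        have h4 := (clz (g : K)).sub_mem ((clz (g : K)).nsmul_mem hm1 (p ^ m0))
          ((clz (g : K)).nsmul_mem hm0 (p ^ m1))
        have h5 : p ^ m0 • p ^ m1 • ((x0 : K) + n • x) - p ^ m1 • p ^ m0 • (x0 : K) =
            p ^ (m0 + m1) • n • x := by
          rw [smul_add, smul_add, smul_comm (p ^ m0) (p ^ m1) (x0 : K), add_sub_cancel_left, pow_add,
            mul_smul]
        rw [h5] at h4
        exact h4
      have h3 : p ^ (m0 + m1) • n • x ≠ 0 := by
        intro h0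
        exact hx0' (htf _ _ hn0 (htf _ _ (pow_ne_zero _ hp.ne_zero) h0))
      obtain ⟨a, ha⟩ := lemF hp hgP h2 h3
      exact ⟨a, clz_le hN (N.nsmul_mem (N.nsmul_mem hxN n) _) ha⟩
    obtain ⟨a1, ha1⟩ := hkey x1 (hP1 hx1) hx10 N1 hN1 hx1
    obtain ⟨a2, ha2⟩ := hkey x2 (hP2 hx2) hx20 N2 hN2 hx2
    refine ⟨p ^ (a1 + a2) • (g : K), ?_, ?_, ?_⟩
    · intro h0
      exact hg0' (htf _ _ (pow_ne_zero _ hp.ne_zero) h0)
    · rw [add_comm, pow_add, mul_smul]
      exact N1.nsmul_mem ha1 _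
    · rw [pow_add, mul_smul]
      exact N2.nsmul_mem ha2 _

/-- Claim U. -/
lemma claimU (hX : TX K) (htf : TFK K) {p : ℕ} (hp : p.Prime)
    (hpi : ∀ N1 N2 : AddSubgroup K, IsClosed (N1 : Set K) → IsClosed (N2 : Set K) →
      N1 ≤ PTS K p → N2 ≤ PTS K p → ∀ x1 ∈ N1, ∀ x2 ∈ N2, x1 ≠ 0 → x2 ≠ 0 →
      ∃ y, y ≠ 0 ∧ y ∈ N1 ∧ y ∈ N2)
    (θ1 θ2 : K →+ UnitAddCircle) (hθ1 : Continuous θ1)
    (hp1 : p • θ1 = 0) (hp2 : p • θ2 = 0) (y0 : K) (hy0 : θ1 y0 ≠ 0) (x : K)
    (hx : x ∈ PTS K p) (hx1 : θ1 x = 0) : θ2 x = 0 := by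
  classical
  by_cases hx0 : x = 0
  · rw [hx0, map_zero]
  obtain ⟨y, hyP, -, hyθ⟩ := exists_comp hX hp y0
  have hy : θ1 y ≠ 0 := by
    rw [hyθ θ1 hθ1 1 (by rw [pow_one]; exact hp1)]
    exact hy0
  have hyne : y ≠ 0 := by
    rintro rfl
    rw [map_zero] at hy
    exact hy rfl
  have hLc : IsClosed (PTS K p : Set K) := isClosed_PTS hX hp
  obtain ⟨g, hg0, hgx, hgy⟩ := hpi (clz x) (clz y) (isClosed_clz x) (isClosed_clz y)
    (clz_le hLc hx) (clz_le hLc hyP) x (mem_clz x) y (mem_clz y) hx0 hyne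
  have hex : ∃ a : ℕ, p ^ a • x ∈ clz y := by
    obtain ⟨a, ha⟩ := lemF hp hx hgx hg0
    exact ⟨a, clz_le (isClosed_clz y) hgy ha⟩
  have hw := Nat.find_spec hex
  have hyw : y ∉ clz (p ^ Nat.find hex • x) := by
    intro h1
    apply hy
    exact clz_char h1 θ1 hθ1 (by rw [map_nsmul, hx1, smul_zero])
  obtain ⟨w', hw', hww⟩ := lemBL hp hyP hw hyw
  rcases Nat.eq_zero_or_pos (Nat.find hex) with h0 | h0
  · rw [h0, pow_zero, one_smul] at hww
    rw [hww, map_nsmul]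
    exact DFunLike.congr_fun hp2 w'
  · exfalso
    obtain ⟨a', ha'⟩ := Nat.exists_eq_succ_of_ne_zero h0.ne'
    have h1 : p ^ a' • x ∉ clz y := Nat.find_min hex (by omega)
    apply h1
    rw [ha', Nat.succ_eq_add_one, pow_succ', mul_smul] at hww
    have h2 : p • (p ^ a' • x - w') = 0 := by rw [smul_sub, hww, sub_self]
    have h3 := htf _ _ hp.ne_zero h2
    rw [sub_eq_zero] at h3
    rw [h3]
    exact hw'

end Tools

end Pool.Agent.H519DM
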