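import Pool.Agent.H519_DM.C2

set_option autoImplicit false

namespace Pool.Agent.H519DM

open Topology

section RR

variable {K : Type*} [AddCommGroup K] [TopologicalSpace K] [IsTopologicalAddGroup K]
  [CompactSpace K] [T2Space K] {G : AddSubgroup K}

lemma HDM.lemR (h : HDM G) (hX : TX K) (htf : TFK K) (N : AddSubgroup K)
    (hN : IsClosed (N : Set K)) (hN0 : ∃ y ∈ N, y ≠ 0) {s : Type*} (b : s → G)
    (hbmax : ∀ x : G, (x : K) ∈ N → ∃ a : ℤ, a ≠ 0 ∧ ∃ y : s →₀ ℤ,
      Finsupp.linearCombination ℤ b y = a • x)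
    (c : s × ℕ → G) (hli : LinearIndependent ℤ (Sum.elim b c)) : False := by
  classical
  let Φ : (s ⊕ s × ℕ →₀ ℤ) →ₗ[ℤ] G := Finsupp.linearCombination ℤ (Sum.elim b c)
  have hΦ : Function.Injective Φ := hli
  let v : s ⊕ s × ℕ → (s →₀ ℚ) := Sum.elim (fun i => Finsupp.single i 1)
    (fun im => Finsupp.single im.1 (1 / ((im.2 : ℚ) + 1)))
  let β : (s ⊕ s × ℕ →₀ ℤ) →ₗ[ℤ] (s →₀ ℚ) := Finsupp.linearCombination ℤ v
  obtain ⟨f, hf⟩ := feQ Φ.toAddMonoidHom β.toAddMonoidHom (by
    intro m hm
    have h1 : m = 0 := (injective_iff_map_eq_zero Φ).mp hΦ m hm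
    rw [h1, map_zero])
  have hfb : ∀ i, f (b i) = Finsupp.single i 1 := by
    intro i
    have h1 := hf (Finsupp.single (Sum.inl i) 1)
    have h2 : Φ.toAddMonoidHom (Finsupp.single (Sum.inl i) 1) = b i := by
      show Finsupp.linearCombination ℤ (Sum.elim b c) _ = _
      rw [Finsupp.linearCombination_single, one_smul]; rfl
    have h3 : β.toAddMonoidHom (Finsupp.single (Sum.inl i) 1) = Finsupp.single i (1 : ℚ) := by
      show Finsupp.linearCombination ℤ v _ = _
      rw [Finsupp.linearCombination_single, one_smul]; rfl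
    rw [h2, h3] at h1
    exact h1
  have hfc : ∀ i (m : ℕ), f (c (i, m)) = Finsupp.single i (1 / ((m : ℚ) + 1)) := by
    intro i m
    have h1 := hf (Finsupp.single (Sum.inr (i, m)) 1)
    have h2 : Φ.toAddMonoidHom (Finsupp.single (Sum.inr (i, m)) 1) = c (i, m) := by
      show Finsupp.linearCombination ℤ (Sum.elim b c) _ = _
      rw [Finsupp.linearCombination_single, one_smul]; rfl
    have h3 : β.toAddMonoidHom (Finsupp.single (Sum.inr (i, m)) 1) =
        Finsupp.single i (1 / ((m : ℚ) + 1)) := by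
      show Finsupp.linearCombination ℤ v _ = _
      rw [Finsupp.linearCombination_single, one_smul]; rfl
    rw [h2, h3] at h1
    exact h1
  have hsurj : ∀ w : s →₀ ℚ, w ∈ f.range := by
    intro w
    induction w using Finsupp.induction_linear with
    | zero => exact f.range.zero_mem
    | add a b ha hb => exact f.range.add_mem ha hb
    | single i q =>
      have h1 : Finsupp.single i q = q.num • f (c (i, q.den - 1)) := by
        rw [hfc, Finsupp.smul_single]
        congr 1
        have h2 : ((q.den - 1 : ℕ) : ℚ) + 1 = q.den := by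
          have h3 : 1 ≤ q.den := q.den_pos
          push_cast [h3]
          ring
        rw [h2, zsmul_eq_mul, mul_one_div]
        exact (Rat.num_div_den q).symm
      rw [h1]
      exact f.range.zsmul_mem ⟨_, rfl⟩ _
  have hdense : Dense ((f.ker.map G.subtype : AddSubgroup K) : Set K) := by
    by_contra hnd
    obtain ⟨θ, hθ, hθ0, hθk⟩ := exists_char_of_not_dense _ hnd
    obtain ⟨φ, hφ⟩ := feT f (θ.comp G.subtype) (fun g hg => hθk g ⟨g, hg, rfl⟩)
    obtain ⟨n, hn, hnθ⟩ := hX.nat θ hθ
    apply hθ0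
    ext x
    refine char_eq_zero h.dense θ hθ (fun g hg => ?_) x
    have h1 := hφ ⟨g, hg⟩
    have hn' : (n : ℚ) ≠ 0 := by exact_mod_cast hn
    obtain ⟨g', hg'⟩ := hsurj ((1 / (n : ℚ)) • f ⟨g, hg⟩)
    have h2 : f ⟨g, hg⟩ = n • f g' := by
      rw [hg', ← Nat.cast_smul_eq_nsmul ℚ n, smul_smul, mul_one_div_cancel hn', one_smul]
    rw [h2, map_nsmul, hφ g'] at h1
    have h3 : n • (θ.comp G.subtype) g' = 0 := DFunLike.congr_fun hnθ (g' : K)
    rw [h3] at h1
    exact h1.symm
  obtain ⟨x, hxD, hxN, hx0⟩ := h.ess _ (by rintro _ ⟨x, _, rfl⟩; exact x.2) hdense N hN hN0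
  obtain ⟨g, hg, rfl⟩ := hxD
  have hgf : f g = 0 := hg
  obtain ⟨a, ha, y, hy⟩ := hbmax g hxN
  let β1 : (s →₀ ℤ) →+ (s →₀ ℚ) := Finsupp.mapRange.addMonoidHom (Int.castAddHom ℚ)
  have hβ1inj : Function.Injective β1 := by
    apply Finsupp.mapRange_injective
    · simp
    · exact Int.cast_injective
  have hcomp : f.comp (Finsupp.linearCombination ℤ b).toAddMonoidHom = β1 := by
    apply Finsupp.addHom_ext
    intro i n
    have h1 : (f.comp (Finsupp.linearCombination ℤ b).toAddMonoidHom) (Finsupp.single i n) =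
        f (Finsupp.linearCombination ℤ b (Finsupp.single i n)) := rfl
    have h2 : β1 (Finsupp.single i n) = Finsupp.mapRange (Int.castAddHom ℚ)
      (map_zero (Int.castAddHom ℚ)) (Finsupp.single i n) := rfl
    rw [h1, h2, Finsupp.mapRange_single, Finsupp.linearCombination_single, map_zsmul, hfb,
      Finsupp.smul_single]
    congr 1
    simp
  have h1 : β1 y = 0 := by
    rw [← hcomp]
    show f (Finsupp.linearCombination ℤ b y) = 0
    rw [hy, map_zsmul, hgf, smul_zero]
  have h2 : y = 0 := (injective_iff_map_eq_zero β1).mp hβ1inj y h1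
  rw [h2, map_zero] at hy
  have h3 : a • (g : K) = 0 := by
    have := congrArg (fun x : G => (x : K)) hy
    simpa using this.symm
  apply hx0
  have h4 : a.natAbs • (g : K) = 0 := by
    rcases Int.natAbs_eq a with h | h
    · rw [h, natCast_zsmul] at h3
      exact h3
    · rw [h, neg_smul, natCast_zsmul, neg_eq_zero] at h3
      exact h3
  exact htf _ _ (by omega) h4

/-- maximal independent families in the trace of `N` -/
lemma exists_max (N : AddSubgroup K) : ∃ s : Set (N.comap G.subtype : AddSubgroup G),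
    LinearIndependent ℤ (fun i : s => ((i : (N.comap G.subtype : AddSubgroup G)) : G)) ∧
    ∀ x : G, (x : K) ∈ N → ∃ a : ℤ, a ≠ 0 ∧ ∃ y : s →₀ ℤ,
      Finsupp.linearCombination ℤ (fun i : s => ((i : (N.comap G.subtype : AddSubgroup G)) : G)) y
        = a • x := by
  obtain ⟨s, hs, hs2⟩ := exists_maximal_linearIndepOn ℤ
    (fun x : (N.comap G.subtype : AddSubgroup G) => (x : G))
  refine ⟨s, hs, fun x hx => ?_⟩
  by_cases hxs : (⟨x, hx⟩ : (N.comap G.subtype : AddSubgroup G)) ∈ s
  · refine ⟨1, one_ne_zero, Finsupp.single ⟨⟨x, hx⟩, hxs⟩ 1, ?_⟩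
    rw [Finsupp.linearCombination_single]
  · obtain ⟨a, ha, hax⟩ := hs2 ⟨x, hx⟩ hxs
    refine ⟨a, ha, ?_⟩
    have h1 : (fun x : (N.comap G.subtype : AddSubgroup G) => (x : G)) '' s =
        Set.range (fun i : s => ((i : (N.comap G.subtype : AddSubgroup G)) : G)) := by
      ext z
      constructor
      · rintro ⟨w, hw, rfl⟩
        exact ⟨⟨w, hw⟩, rfl⟩
      · rintro ⟨w, rfl⟩
        exact ⟨w, w.2, rfl⟩
    rw [h1] at hax
    exact Finsupp.mem_span_range_iff_exists_finsupp.mp hax

lemma tf_G (htf : TFK K) (x : G) (a : ℤ) (ha : a ≠ 0) (h : a • x = 0) : x = 0 := by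
  have h3 : a • (x : K) = 0 := by
    have := congrArg (fun x : G => (x : K)) h
    simpa using this
  have h4 : a.natAbs • (x : K) = 0 := by
    rcases Int.natAbs_eq a with h | h
    · rw [h, natCast_zsmul] at h3
      exact h3
    · rw [h, neg_smul, natCast_zsmul, neg_eq_zero] at h3
      exact h3
  exact Subtype.ext (htf _ _ (by omega) h4)

lemma HDM.countable (h : HDM G) (hX : TX K) (htf : TFK K) (N1 N2 : AddSubgroup K)
    (hN1 : IsClosed (N1 : Set K)) (hN2 : IsClosed (N2 : Set K)) (h10 : ∃ y ∈ N1, y ≠ 0)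
    (h20 : ∃ y ∈ N2, y ≠ 0) (hdis : ∀ x ∈ N1, x ∈ N2 → x = 0) : Countable G := by
  classical
  obtain ⟨s1, hs1, hm1⟩ := exists_max (G := G) N1
  obtain ⟨s2, hs2, hm2⟩ := exists_max (G := G) N2
  -- the reduction to finite rank
  have key : ∀ (N1 N2 : AddSubgroup K) (s1 : Set (N1.comap G.subtype : AddSubgroup G))
      (s2 : Set (N2.comap G.subtype : AddSubgroup G)), IsClosed (N1 : Set K) →
      (∃ y ∈ N1, y ≠ 0) → (∀ x ∈ N1, x ∈ N2 → x = 0) →
      LinearIndependent ℤ (fun i : s1 => ((i : (N1.comap G.subtype : AddSubgroup G)) : G)) →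
      LinearIndependent ℤ (fun i : s2 => ((i : (N2.comap G.subtype : AddSubgroup G)) : G)) →
      (∀ x : G, (x : K) ∈ N1 → ∃ a : ℤ, a ≠ 0 ∧ ∃ y : s1 →₀ ℤ, Finsupp.linearCombination ℤ
        (fun i : s1 => ((i : (N1.comap G.subtype : AddSubgroup G)) : G)) y = a • x) →
      Cardinal.mk s1 ≤ Cardinal.mk s2 → Cardinal.mk s1 < Cardinal.aleph0 := by
    intro N1 N2 s1 s2 hN1 h10 hdis hs1 hs2 hm1 hle
    by_contra hcon
    push Not at hcon
    have h2 : Cardinal.aleph0 ≤ Cardinal.mk s2 := hcon.trans hle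
    have h3 : Cardinal.mk (s1 × ℕ) ≤ Cardinal.mk s2 := by
      rw [Cardinal.mk_prod, Cardinal.lift_id', Cardinal.mk_nat, Cardinal.lift_aleph0]
      exact Cardinal.mul_le_of_le h2 (by simpa using hle) h2
    obtain ⟨u⟩ := (Cardinal.le_def _ _).mp h3
    refine h.lemR hX htf N1 hN1 h10 _ hm1
      (fun j => ((u j : (N2.comap G.subtype : AddSubgroup G)) : G)) ?_
    apply LinearIndependent.sum_type hs1 (hs2.comp u u.injective)
    rw [Submodule.disjoint_def]
    intro x hx1 hx2
    have h4 : x ∈ (N1.comap G.subtype : AddSubgroup G) := by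
      have h5 : Submodule.span ℤ (Set.range
          (fun i : s1 => ((i : (N1.comap G.subtype : AddSubgroup G)) : G))) ≤
          AddSubgroup.toIntSubmodule (N1.comap G.subtype : AddSubgroup G) := by
        rw [Submodule.span_le]
        rintro _ ⟨i, rfl⟩
        exact i.1.2
      exact h5 hx1
    have h5 : x ∈ (N2.comap G.subtype : AddSubgroup G) := by
      have h6 : Submodule.span ℤ (Set.range
          ((fun i : s2 => ((i : (N2.comap G.subtype : AddSubgroup G)) : G)) ∘ u)) ≤
          AddSubgroup.toIntSubmodule (N2.comap G.subtype : AddSubgroup G) := by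
        rw [Submodule.span_le]
        rintro _ ⟨i, rfl⟩
        exact (u i).1.2
      exact h6 hx2
    exact Subtype.ext (hdis _ h4 h5)
  -- a countable rank quotient
  have key2 : ∀ (N1 : AddSubgroup K) (s1 : Set (N1.comap G.subtype : AddSubgroup G)),
      IsClosed (N1 : Set K) → (∃ y ∈ N1, y ≠ 0) →
      LinearIndependent ℤ (fun i : s1 => ((i : (N1.comap G.subtype : AddSubgroup G)) : G)) →
      (∀ x : G, (x : K) ∈ N1 → ∃ a : ℤ, a ≠ 0 ∧ ∃ y : s1 →₀ ℤ, Finsupp.linearCombination ℤ
        (fun i : s1 => ((i : (N1.comap G.subtype : AddSubgroup G)) : G)) y = a • x) →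
      Cardinal.mk s1 < Cardinal.aleph0 → Countable G := by
    intro N1 s1 hN1 h10 hs1 hm1 hlt
    haveI hs1c : Countable s1 := Cardinal.mk_le_aleph0_iff.mp hlt.le
    let b : s1 → G := fun i => ((i : (N1.comap G.subtype : AddSubgroup G)) : G)
    let W : Submodule ℤ G := Submodule.span ℤ (Set.range b)
    obtain ⟨t, ht, ht2⟩ := exists_maximal_linearIndepOn ℤ (fun x : G ⧸ W => x)
    have htc : Countable t := by
      by_contra hcon
      have h1 : Cardinal.aleph0 ≤ Cardinal.mk t := by
        by_contra h2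
        push Not at h2
        exact hcon (Cardinal.mk_le_aleph0_iff.mp h2.le)
      have h2 : Cardinal.mk (s1 × ℕ) ≤ Cardinal.mk t :=
        (Cardinal.mk_le_aleph0_iff.mpr inferInstance).trans h1
      obtain ⟨u⟩ := (Cardinal.le_def _ _).mp h2
      have hsurj := Submodule.Quotient.mk_surjective W
      choose out hout using hsurj
      refine h.lemR hX htf N1 hN1 h10 b hm1 (fun j => out (u j)) ?_
      have hb' : LinearIndependent ℤ (fun i : s1 => (⟨b i, Submodule.subset_span ⟨i, rfl⟩⟩ : W)) := by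
        apply LinearIndependent.of_comp W.subtype
        exact hs1
      have hq : LinearIndependent ℤ (Submodule.Quotient.mk (p := W) ∘ (fun j => out (u j))) := by
        have h3 : (Submodule.Quotient.mk (p := W) ∘ (fun j => out (u j))) =
            (fun i : t => (i : G ⧸ W)) ∘ u := by
          ext j
          exact hout _
        rw [h3]
        exact LinearIndependent.comp ht u u.injective
      exact LinearIndependent.sumElim_of_quotient hb' _ hq
    have hsurj := Submodule.Quotient.mk_surjective W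
    choose out hout using hsurj
    have hrep : ∀ x : G, ∃ (a : ℤ) (y : t →₀ ℤ) (z : s1 →₀ ℤ), a ≠ 0 ∧
        a • x = Finsupp.linearCombination ℤ (fun i : t => out i) y +
          Finsupp.linearCombination ℤ b z := by
      intro x
      have h1 : ∃ a : ℤ, a ≠ 0 ∧ ∃ y : t →₀ ℤ,
          Finsupp.linearCombination ℤ (fun i : t => (i : G ⧸ W)) y =
            a • (Submodule.Quotient.mk x : G ⧸ W) := by
        by_cases hxt : (Submodule.Quotient.mk x : G ⧸ W) ∈ t
        · refine ⟨1, one_ne_zero, Finsupp.single ⟨_, hxt⟩ 1, ?_⟩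
          rw [Finsupp.linearCombination_single]
        · obtain ⟨a, ha, hax⟩ := ht2 _ hxt
          refine ⟨a, ha, ?_⟩
          rw [Set.image_id'] at hax
          rw [← Subtype.range_coe (s := t)] at hax
          exact Finsupp.mem_span_range_iff_exists_finsupp.mp hax
      obtain ⟨a, ha, y, hy⟩ := h1
      have h2 : a • x - Finsupp.linearCombination ℤ (fun i : t => out i) y ∈ W := by
        rw [← Submodule.Quotient.mk_eq_zero W]
        have h3 : (Submodule.Quotient.mk (Finsupp.linearCombination ℤ (fun i : t => out i) y) :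
            G ⧸ W) = Finsupp.linearCombination ℤ (fun i : t => (i : G ⧸ W)) y := by
          have h4 : W.mkQ (Finsupp.linearCombination ℤ (fun i : t => out i) y) =
              Finsupp.linearCombination ℤ (W.mkQ ∘ (fun i : t => out i)) y := by
            rw [Finsupp.apply_linearCombination]
          have h5 : (W.mkQ ∘ (fun i : t => out i)) = (fun i : t => (i : G ⧸ W)) := by
            ext i
            exact hout _
          rw [h5] at h4
          exact h4
        rw [Submodule.Quotient.mk_sub, Submodule.Quotient.mk_smul, h3, hy, sub_self]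
      obtain ⟨z, hz⟩ := Finsupp.mem_span_range_iff_exists_finsupp.mp h2
      refine ⟨a, y, z, ha, ?_⟩
      have h6 : Finsupp.linearCombination ℤ b z =
          a • x - Finsupp.linearCombination ℤ (fun i : t => out i) y := hz
      rw [h6]
      abel
    choose a y z ha hrep using hrep
    have hinj : Function.Injective (fun x : G => (a x, y x, z x)) := by
      intro x x' hxx
      have h1 : a x = a x' := congrArg Prod.fst hxx
      have h2 : y x = y x' := congrArg (fun q => q.2.1) hxx
      have h3 : z x = z x' := congrArg (fun q => q.2.2) hxx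
      have h4 : a x • (x - x') = 0 := by
        rw [smul_sub, hrep x, h2, h3, ← hrep x', h1, sub_self]
      exact sub_eq_zero.mp (tf_G htf _ _ (ha x) h4)
    exact hinj.countable
  rcases le_total (Cardinal.mk s1) (Cardinal.mk s2) with hle | hle
  · exact key2 N1 s1 hN1 h10 hs1 hm1 (key N1 N2 s1 s2 hN1 h10 hdis hs1 hs2 hm1 hle)
  · exact key2 N2 s2 hN2 h20 hs2 hm2 (key N2 N1 s2 s1 hN2 h20 (fun x h2 h1 => hdis x h1 h2)
      hs2 hs1 hm2 hle)

end RR

end Pool.Agent.H519DM
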