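import Pool.Agent.H519_DM.C3

set_option autoImplicit false

namespace Pool.Agent.H519DM

open Topology

section Fin

variable {K : Type*} [AddCommGroup K] [TopologicalSpace K] [IsTopologicalAddGroup K]
  [CompactSpace K] [T2Space K] {G : AddSubgroup K}

lemma PTS_disj {p q : ℕ} (hp : p.Prime) (hq : q.Prime) (hpq : p ≠ q) {x : K}
    (h1 : x ∈ PTS K p) (h2 : x ∈ PTS K q) : x = 0 := by
  by_contra hx
  obtain ⟨θ, hθ, hθx⟩ := pw K x hx
  obtain ⟨n, hn⟩ := h1 θ hθ
  obtain ⟨m, hm⟩ := h2 θ hθ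
  apply hθx
  refine nsmul_eq_zero_of_coprime (q := p) (n := q ^ m) _ n hn hm ?_
  apply Nat.Coprime.pow_left
  rw [Nat.coprime_primes hq hp]
  exact hpq.symm

/-- an element of prime order below an element of finite order -/
lemma exists_prime_mul {A : Type*} [AddCommGroup A] (x : A) (hx : x ≠ 0) (n : ℕ) (hn : n ≠ 0)
    (hnx : n • x = 0) : ∃ (p m : ℕ), p.Prime ∧ p ∣ n ∧ p • (m • x) = 0 ∧ m • x ≠ 0 := by
  have hord : addOrderOf x ≠ 1 := by
    intro h1
    exact hx (AddMonoid.addOrderOf_eq_one_iff.mp h1)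
  have hdn : addOrderOf x ∣ n := addOrderOf_dvd_of_nsmul_eq_zero hnx
  obtain ⟨q, hq, m, hm⟩ := Nat.exists_prime_and_dvd hord
  have hpos : addOrderOf x ≠ 0 := by
    intro h0
    rw [h0] at hdn
    exact hn (Nat.eq_zero_of_zero_dvd hdn)
  have hmpos : 0 < m := by
    rcases Nat.eq_zero_or_pos m with h0 | h0
    · exact absurd (by rw [hm, h0, mul_zero]) hpos
    · exact h0
  refine ⟨q, m, hq, (Dvd.intro m hm.symm).trans hdn, ?_, ?_⟩
  · rw [← mul_smul, ← hm, addOrderOf_nsmul_eq_zero]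
  · intro h0
    have h1 : addOrderOf x ∣ m := addOrderOf_dvd_of_nsmul_eq_zero h0
    have h2 := Nat.le_of_dvd hmpos h1
    have h3 : m * 2 ≤ q * m := by
      rw [mul_comm m 2]; exact Nat.mul_le_mul_right m hq.two_le
    omega

/-- Each nonzero element has a nonzero primary component. -/
lemma exists_prime_comp (hX : TX K) {x : K} (hx : x ≠ 0) :
    ∃ p : ℕ, p.Prime ∧ ∃ k : K, k ∈ PTS K p ∧ k ∈ clz x ∧ k ≠ 0 := by
  obtain ⟨θ, hθ, hθx⟩ := pw K x hx
  obtain ⟨n, hn, hnθ⟩ := hX.nat θ hθ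
  have hnx : n • θ x = 0 := DFunLike.congr_fun hnθ x
  obtain ⟨p, m, hp, hpn, hpm, hm0⟩ := exists_prime_mul (θ x) hθx n hn hnx
  obtain ⟨e, n', hn', hnn⟩ := Nat.exists_eq_pow_mul_and_not_dvd hn p hp.ne_one
  obtain ⟨k, hk, hkx, hkθ⟩ := exists_comp hX hp x
  refine ⟨p, hp, k, hk, hkx, ?_⟩
  rintro rfl
  have h1 := hkθ (n' • θ) (cont_nsmul _ hθ) e (by rw [← mul_smul, ← hnn, hnθ])
  rw [map_zero, AddMonoidHom.nsmul_apply] at h1
  apply hm0
  refine nsmul_eq_zero_of_coprime (q := p) (n := n') _ 1 (by rw [pow_one]; exact hpm) ?_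
    ((Nat.Prime.coprime_iff_not_dvd hp).mpr hn').symm
  rw [smul_comm, ← h1, smul_zero]

/-- A character of order `p`. -/
lemma exists_char_p (hX : TX K) {p : ℕ} (hp : p.Prime) {x : K} (hx : x ∈ PTS K p) (hx0 : x ≠ 0) :
    ∃ (θ : K →+ UnitAddCircle) (y : K), Continuous θ ∧ p • θ = 0 ∧ θ y ≠ 0 := by
  classical
  obtain ⟨χ, hχ, hχx⟩ := pw K x hx0
  obtain ⟨n, hn, hnχ⟩ := hX.nat χ hχ
  obtain ⟨j, hj⟩ := hx χ hχ
  obtain ⟨e, n', hn', hnn⟩ := Nat.exists_eq_pow_mul_and_not_dvd hn p hp.ne_one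
  have h1 : n' • χ ≠ 0 := by
    intro h0
    apply hχx
    refine nsmul_eq_zero_of_coprime (q := p) (n := n') _ j hj ?_
      ((Nat.Prime.coprime_iff_not_dvd hp).mpr hn').symm
    exact DFunLike.congr_fun h0 x
  have hex : ∃ i : ℕ, p ^ i • (n' • χ) = 0 := ⟨e, by rw [← mul_smul, ← hnn, hnχ]⟩
  have hi0 : Nat.find hex ≠ 0 := by
    intro h0
    have h2 := Nat.find_spec hex
    rw [h0, pow_zero, one_smul] at h2
    exact h1 h2
  obtain ⟨i, hi⟩ := Nat.exists_eq_succ_of_ne_zero hi0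
  have hi1 : p ^ (i + 1) • (n' • χ) = 0 := by
    have h2 := Nat.find_spec hex
    rw [hi] at h2
    exact h2
  have hi2 : p ^ i • (n' • χ) ≠ 0 := Nat.find_min hex (by omega)
  obtain ⟨y, hy⟩ : ∃ y, (p ^ i • (n' • χ)) y ≠ 0 := by
    by_contra hcon
    push Not at hcon
    exact hi2 (AddMonoidHom.ext hcon)
  exact ⟨p ^ i • (n' • χ), y, cont_nsmul _ (cont_nsmul _ hχ), by
    rw [← mul_smul, ← pow_succ', hi1], hy⟩

/-- Any two nonzero closed subgroups intersect. -/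
theorem HDM.pairwise (h : HDM G) (hX : TX K) (htf : TFK K) (N1 N2 : AddSubgroup K)
    (hN1 : IsClosed (N1 : Set K)) (hN2 : IsClosed (N2 : Set K)) (x1 x2 : K) (hx1 : x1 ∈ N1)
    (hx2 : x2 ∈ N2) (hx10 : x1 ≠ 0) (hx20 : x2 ≠ 0) : ∃ y, y ≠ 0 ∧ y ∈ N1 ∧ y ∈ N2 := by
  classical
  by_contra hcon
  have hdis : ∀ x ∈ N1, x ∈ N2 → x = 0 := by
    intro x h1 h2
    by_contra h0
    exact hcon ⟨x, h0, h1, h2⟩
  have hG : Countable G := h.countable hX htf N1 N2 hN1 hN2 ⟨x1, hx1, hx10⟩ ⟨x2, hx2, hx20⟩ hdis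
  obtain ⟨p1, hp1, k1, hk1, hk1x, hk10⟩ := exists_prime_comp hX hx10
  obtain ⟨p2, hp2, k2, hk2, hk2x, hk20⟩ := exists_prime_comp hX hx20
  have hpp : p1 ≠ p2 := by
    rintro rfl
    obtain ⟨y, hy0, hy1, hy2⟩ := h.baire hX htf hG hp1 (clz k1) (clz k2) (isClosed_clz _)
      (isClosed_clz _) (clz_le (isClosed_PTS hX hp1) hk1) (clz_le (isClosed_PTS hX hp1) hk2)
      k1 k2 (mem_clz _) (mem_clz _) hk10 hk20
    exact hcon ⟨y, hy0, clz_le hN1 (clz_le hN1 hx1 hk1x) hy1,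
      clz_le hN2 (clz_le hN2 hx2 hk2x) hy2⟩
  let P : Set ℕ := {p | p.Prime ∧ ∃ x ∈ PTS K p, x ≠ 0}
  have hP : P.Finite := by
    by_contra hinf
    refine h.noInf P hinf (fun r hr => hr.1) (fun r => PTS K r)
      (fun r hr => isClosed_PTS hX hr.1) (fun r _ => le_rfl) ?_ (fun r hr => hr.2)
    intro r _ x _ n hn hnx
    have h4 : n.natAbs • x = 0 := by
      rcases Int.natAbs_eq n with h | h
      · rw [h, natCast_zsmul] at hnx
        exact hnx
      · rw [h, neg_smul, natCast_zsmul, neg_eq_zero] at hnx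
        exact hnx
    exact htf _ _ (by omega) h4
  haveI : Finite P := hP
  haveI : Fintype P := Fintype.ofFinite P
  have hch : ∀ i : P, ∃ (θ : K →+ UnitAddCircle) (y : K), Continuous θ ∧ (i : ℕ) • θ = 0 ∧
      θ y ≠ 0 := by
    rintro ⟨p, hp, x, hx, hx0⟩
    exact exists_char_p hX hp hx hx0
  choose Θ Y hΘc hΘp hΘY using hch
  have hOo : IsOpen (⋂ i : P, {x : K | Θ i x ≠ 0}) := by
    apply isOpen_iInter_of_finite
    intro i
    exact isOpen_compl_singleton.preimage (hΘc i)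
  have hOne : (⋂ i : P, {x : K | Θ i x ≠ 0}).Nonempty := by
    let c : P → ℕ := fun i => ∏ j ∈ Finset.univ.erase i, (j : ℕ)
    refine ⟨∑ i, c i • Y i, ?_⟩
    rw [Set.mem_iInter]
    intro i
    show Θ i (∑ j, c j • Y j) ≠ 0
    have h1 : Θ i (∑ j, c j • Y j) = c i • Θ i (Y i) := by
      rw [map_sum, ← Finset.add_sum_erase Finset.univ _ (Finset.mem_univ i), map_nsmul,
        Finset.sum_eq_zero, add_zero]
      intro j hj
      have h2 : (i : ℕ) ∣ c j := by
        apply Finset.dvd_prod_of_mem (fun j : P => (j : ℕ))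
        exact Finset.mem_erase.mpr ⟨(Finset.ne_of_mem_erase hj).symm, Finset.mem_univ i⟩
      obtain ⟨d, hd⟩ := h2
      have h3 : (i : ℕ) • Θ i (Y j) = 0 := DFunLike.congr_fun (hΘp i) (Y j)
      rw [map_nsmul, hd, mul_comm, mul_smul, h3, smul_zero]
    rw [h1]
    intro h0
    apply hΘY i
    refine nsmul_eq_zero_of_coprime (q := (i : ℕ)) (n := c i) _ 1 ?_ h0 ?_
    · rw [pow_one]
      exact DFunLike.congr_fun (hΘp i) (Y i)
    · apply Nat.Coprime.prod_left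
      intro j hj
      rw [Nat.coprime_primes j.2.1 i.2.1]
      intro hji
      exact (Finset.ne_of_mem_erase hj) (Subtype.ext hji)
  obtain ⟨d, hdO, hdG⟩ := h.dense.inter_open_nonempty _ hOo hOne
  rw [Set.mem_iInter] at hdO
  have hDG : AddSubgroup.zmultiples d ≤ G := by
    rw [AddSubgroup.zmultiples_le]; exact hdG
  have hDd : Dense ((AddSubgroup.zmultiples d : AddSubgroup K) : Set K) := by
    by_contra hnd
    obtain ⟨θ, hθ, hθ0, hθk⟩ := exists_char_of_not_dense _ hnd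
    obtain ⟨n, hn, hnθ⟩ := hX.nat θ hθ
    obtain ⟨p, m, hp, -, hpm, hm0⟩ := exists_prime_mul θ hθ0 n hn hnθ
    obtain ⟨y0, hy0⟩ : ∃ y, (m • θ) y ≠ 0 := by
      by_contra hcon
      push Not at hcon
      exact hm0 (AddMonoidHom.ext hcon)
    have hmθ : Continuous (m • θ) := cont_nsmul m hθ
    obtain ⟨k, hk, -, hkθ⟩ := exists_comp hX hp y0
    have hk0 : k ≠ 0 := by
      rintro rfl
      apply hy0
      rw [← hkθ _ hmθ 1 (by rw [pow_one]; exact hpm), map_zero]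
    let i : P := ⟨p, hp, k, hk, hk0⟩
    obtain ⟨kd, hkd, -, hkdθ⟩ := exists_comp hX hp d
    have h1 : (m • θ) kd = 0 := by
      rw [hkdθ _ hmθ 1 (by rw [pow_one]; exact hpm), AddMonoidHom.nsmul_apply,
        hθk d (AddSubgroup.mem_zmultiples d), smul_zero]
    have h2 : Θ i kd = 0 := claimU hX htf hp
      (fun M1 M2 hM1 hM2 hMP1 hMP2 z1 hz1 z2 hz2 hz10 hz20 =>
        h.baire hX htf hG hp M1 M2 hM1 hM2 hMP1 hMP2 z1 z2 hz1 hz2 hz10 hz20)
      (m • θ) (Θ i) hmθ hpm (hΘp i) y0 hy0 kd hkd h1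
    have h3 : Θ i kd = Θ i d := hkdθ (Θ i) (hΘc i) 1 (by rw [pow_one]; exact hΘp i)
    apply hdO i
    rw [← h3]
    exact h2
  obtain ⟨z1, hz1D, hz1N, hz10⟩ := h.ess _ hDG hDd (PTS K p1) (isClosed_PTS hX hp1)
    ⟨k1, hk1, hk10⟩
  obtain ⟨z2, hz2D, hz2N, hz20⟩ := h.ess _ hDG hDd (PTS K p2) (isClosed_PTS hX hp2)
    ⟨k2, hk2, hk20⟩
  obtain ⟨a, rfl⟩ := AddSubgroup.mem_zmultiples_iff.mp hz1D
  obtain ⟨b, rfl⟩ := AddSubgroup.mem_zmultiples_iff.mp hz2D
  have hab : (b * a) • d = 0 := by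
    apply PTS_disj hp1 hp2 hpp
    · rw [mul_smul]
      exact (PTS K p1).zsmul_mem hz1N b
    · rw [mul_comm, mul_smul]
      exact (PTS K p2).zsmul_mem hz2N a
  have hb0 : b ≠ 0 := by
    rintro rfl
    rw [zero_smul] at hz20
    exact hz20 rfl
  apply hz10
  have h4 : b.natAbs • (a • d) = 0 := by
    rw [mul_smul] at hab
    rcases Int.natAbs_eq b with h | h
    · rw [h, natCast_zsmul] at hab
      exact hab
    · rw [h, neg_smul, natCast_zsmul, neg_eq_zero] at hab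
      exact hab
  exact htf _ _ (by omega) h4

/-- Essentiality in the torsion-free case. -/
theorem HDM.essential_tf (h : HDM G) (hX : TX K) (htf : TFK K) (S : AddSubgroup K)
    (N : AddSubgroup K) (hN : IsClosed (N : Set K))
    (hNS : (N : Set K) ⊆ closure (S : Set K)) (hdis : ∀ x ∈ S, x ∈ N → x = 0) :
    ∀ y ∈ N, y = 0 := by
  by_contra hcon
  push Not at hcon
  obtain ⟨y, hy, hy0⟩ := hcon
  obtain ⟨x, hxS, hx0⟩ : ∃ x ∈ S, x ≠ 0 := by
    by_contra hno
    push Not at hno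
    have h1 : (S : Set K) ⊆ {0} := fun x hx => hno x hx
    have h2 : closure (S : Set K) ⊆ {0} := closure_minimal h1 isClosed_singleton
    exact hy0 (h2 (hNS hy))
  obtain ⟨p, hp, k, hk, hkx, hk0⟩ := exists_prime_comp hX hx0
  have hother : ∀ q : ℕ, q.Prime → q ≠ p → ∀ z ∈ PTS K q, z = 0 := by
    intro q hq hqp z hz
    by_contra hz0
    obtain ⟨w, hw0, hw1, hw2⟩ := h.pairwise hX htf (clz k) (clz z) (isClosed_clz _)
      (isClosed_clz _) k z (mem_clz _) (mem_clz _) hk0 hz0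
    exact hw0 (PTS_disj hp hq hqp.symm (clz_le (isClosed_PTS hX hp) hk hw1)
      (clz_le (isClosed_PTS hX hq) hz hw2))
  have hxP : x ∈ PTS K p := by
    obtain ⟨x', hx'P, -, hx'θ⟩ := exists_comp hX hp x
    have hz : x - x' = 0 := by
      by_contra hz0
      obtain ⟨q, hq, k', hk', hk'z, hk'0⟩ := exists_prime_comp hX hz0
      by_cases hqp : q = p
      · subst hqp
        obtain ⟨χ, hχ, hχk⟩ := pw K k' hk'0
        obtain ⟨n, hn, hnχ⟩ := hX.nat χ hχ
        obtain ⟨e, n', hn', hnn⟩ := Nat.exists_eq_pow_mul_and_not_dvd hn q hq.ne_one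
        obtain ⟨j, hj⟩ := hk' χ hχ
        apply hχk
        refine nsmul_eq_zero_of_coprime (q := q) (n := n') _ j hj ?_
          ((Nat.Prime.coprime_iff_not_dvd hq).mpr hn').symm
        have h1 : (n' • χ) (x - x') = 0 := by
          rw [map_sub, hx'θ (n' • χ) (cont_nsmul _ hχ) e (by rw [← mul_smul, ← hnn, hnχ]),
            sub_self]
        exact clz_char hk'z (n' • χ) (cont_nsmul _ hχ) h1
      · exact hk'0 (hother q hq hqp k' hk')
    rw [sub_eq_zero] at hz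
    rw [hz]
    exact hx'P
  obtain ⟨g, hg0, hgx, hgN⟩ := h.pairwise hX htf (clz x) N (isClosed_clz _) hN x y (mem_clz _) hy
    hx0 hy0
  obtain ⟨m, hm⟩ := lemF hp hxP hgx hg0
  have h1 : p ^ m • x = 0 := hdis _ (S.nsmul_mem hxS _) (clz_le hN hgN hm)
  exact hx0 (htf _ _ (pow_ne_zero _ hp.ne_zero) h1)

/-- Q1 for groups with a dense embedding in a compact nonarchimedean group. -/
theorem q1_core {G : Type*} [AddCommGroup G] [TopologicalSpace G]
    [IsTopologicalAddGroup G] (h : DMinimal G)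
    {K : Type*} [AddCommGroup K] [TopologicalSpace K] [NonarchimedeanAddGroup K]
    [CompactSpace K] [T2Space K] (j : G →+ K) (hj : IsInducing j)
    (hinj : Function.Injective j) (hd : DenseRange j) : HMinimal G := by
  have hH := hdm_of_dm' hj hinj hd h
  have hX : TX K := fun χ hχ => hH.char_torsion χ hχ
  by_cases htor : ∃ (q : ℕ) (s : K), q.Prime ∧ q • s = 0 ∧ s ≠ 0
  · obtain ⟨q, s, hq, hs, hs0⟩ := htor
    exact hm_of_ess hj hinj (fun S hS N hN hNc hdis =>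
      hH.essential_of_torsion q hq s hs hs0 S hS N hN hNc hdis)
  · have htf : TFK K := by
      intro x n hn hnx
      by_contra hx0
      obtain ⟨p, m, hp, -, hpm, hm0⟩ := exists_prime_mul x hx0 n hn hnx
      exact htor ⟨p, m • x, hp, hpm, hm0⟩
    exact hm_of_ess hj hinj (fun S hS N hN hNc hdis =>
      hH.essential_tf hX htf S N hN hNc hdis)

end Fin

universe u

/-- Q1 for precompact groups. -/
theorem q1_precompact {G : Type u} [AddCommGroup G] [TopologicalSpace G]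
    [IsTopologicalAddGroup G] [T2Space G] (hp : Precpt G) (h : DMinimal G) : HMinimal G := by
  obtain ⟨K, _, _, _, _, _, j, hj, hinj, hd⟩ := exists_profinite_embedding hp h
  exact q1_core h j hj hinj hd

/-- Q1 for nonarchimedean groups. -/
theorem q1_nonarch {G : Type u} [AddCommGroup G] [TopologicalSpace G]
    [NonarchimedeanAddGroup G] (h : DMinimal G) : HMinimal G := by
  obtain ⟨K, _, _, _, _, _, j, hj, hinj, hd⟩ := exists_compact_embedding h.minimal
  exact q1_core h j hj hinj hd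

end Pool.Agent.H519DM
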