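import Pool.Agent.H519_DM.C4

set_option autoImplicit false

namespace Pool.Agent.H519DM

open Topology

universe u

/-- The continuous characters separate the points. -/
def MAPG (G : Type*) [AddCommGroup G] [TopologicalSpace G] : Prop :=
  ∀ g : G, g ≠ 0 → ∃ χ : G →+ UnitAddCircle, Continuous χ ∧ χ g ≠ 0

/-- A minimal group whose continuous characters separate the points is precompact. -/
lemma precpt_of_map {G : Type*} [AddCommGroup G] [TopologicalSpace G] [IsTopologicalAddGroup G]
    (hmin : Minimal' G) (hG : MAPG G) : Precpt G := by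
  classical
  let Ch := {χ : G →+ UnitAddCircle // Continuous χ}
  let e : G →+ (Ch → UnitAddCircle) :=
    { toFun := fun g χ => χ.1 g
      map_zero' := by ext χ; simp
      map_add' := by intro a b; ext χ; simp }
  have hec : Continuous e := continuous_pi (fun χ => χ.2)
  have heinj : Function.Injective e := by
    rw [injective_iff_map_eq_zero]
    intro g hg
    by_contra hg0
    obtain ⟨χ, hχ, hχg⟩ := hG g hg0
    exact hχg (congrFun hg ⟨χ, hχ⟩)
  have hind := hmin.inducing e hec heinj
  intro U hUn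
  rw [hind.nhds_eq_comap, map_zero] at hUn
  obtain ⟨V, hV, hVU⟩ := Filter.mem_comap.mp hUn
  have hsub : Filter.Tendsto (fun p : (Ch → UnitAddCircle) × (Ch → UnitAddCircle) =>
      p.1 - p.2) (nhds (0, 0)) (nhds 0) := by
    have h1 : Continuous (fun p : (Ch → UnitAddCircle) × (Ch → UnitAddCircle) =>
      p.1 - p.2) := continuous_fst.sub continuous_snd
    have h2 := h1.tendsto (0, 0)
    simpa using h2
  have hmem := hsub hV
  rw [nhds_prod_eq, Filter.mem_map, Filter.mem_prod_iff] at hmem
  obtain ⟨W1, hW1, W2, hW2, hW⟩ := hmem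
  obtain ⟨F, hF⟩ := CompactSpace.elim_nhds_subcover
    (fun x : (Ch → UnitAddCircle) => (fun y => y - x) ⁻¹' (W1 ∩ W2)) (by
      intro x
      have hc : Continuous (fun y : (Ch → UnitAddCircle) => y - x) :=
        continuous_id.sub continuous_const
      apply hc.continuousAt.preimage_mem_nhds
      rw [sub_self]
      exact Filter.inter_mem hW1 hW2)
  have hcov : ∀ g : G, ∃ x ∈ F, e g - x ∈ W1 ∩ W2 := by
    intro g
    have h1 : e g ∈ ⋃ x ∈ F, (fun y => y - x) ⁻¹' (W1 ∩ W2) := by
      rw [hF]; trivial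
    simp only [Set.mem_iUnion] at h1
    obtain ⟨x, hx, hgx⟩ := h1
    exact ⟨x, hx, hgx⟩
  have hrep : ∀ x : (Ch → UnitAddCircle), ∃ g : G, (∃ g', e g' - x ∈ W1 ∩ W2) →
      e g - x ∈ W1 ∩ W2 := by
    intro x
    by_cases hx : ∃ g', e g' - x ∈ W1 ∩ W2
    · obtain ⟨g', hg'⟩ := hx
      exact ⟨g', fun _ => hg'⟩
    · exact ⟨0, fun h => absurd h hx⟩
  choose rep hrep using hrep
  refine ⟨F.image rep, fun g => ?_⟩
  obtain ⟨x, hx, hgx⟩ := hcov g
  refine ⟨rep x, Finset.mem_image_of_mem _ hx, ?_⟩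
  apply hVU
  show e (g - rep x) ∈ V
  have h1 : (e g - x, e (rep x) - x) ∈ W1 ×ˢ W2 := ⟨hgx.1, (hrep x ⟨g, hgx⟩).2⟩
  have h2 : (e g - x) - (e (rep x) - x) ∈ V := hW h1
  rw [map_sub]
  simpa using h2

/-- Q1 for groups whose continuous characters separate the points. -/
theorem q1_map {G : Type u} [AddCommGroup G] [TopologicalSpace G]
    [IsTopologicalAddGroup G] [T2Space G] (hG : MAPG G) (h : DMinimal G) : HMinimal G :=
  q1_precompact (precpt_of_map h.minimal hG) h

end Pool.Agent.H519DM
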