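import Pool.Agent.H519_DM.C5
import Pool.Agent.R658.LQ.Core

set_option autoImplicit false

namespace Pool.Agent.H519DM

open Topology

/-- Density step. -/
lemma completion_step {G : Type*} [AddCommGroup G] [TopologicalSpace G]
    {K : Type*} [AddCommGroup K] [TopologicalSpace K]
    [IsTopologicalAddGroup K] (j : G →+ K) (hd : DenseRange j) (U : Set K)
    (hU : U ∈ nhds (0 : K)) : ∃ W : Set K, IsOpen W ∧ (0 : K) ∈ W ∧
      ∀ O : Set K, IsOpen O → (∀ g, j g ∈ O → j g ∈ W) → O ⊆ U := by
  have hsub : Filter.Tendsto (fun p : K × K => p.1 - p.2) (nhds 0 ×ˢ nhds 0)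
      (nhds (0 : K)) := by
    have h1 : Continuous (fun p : K × K => p.1 - p.2) := continuous_fst.sub continuous_snd
    have h2 := h1.tendsto (0, 0)
    rw [nhds_prod_eq] at h2
    simpa using h2
  obtain ⟨W1, hW1, W2, hW2, hW⟩ := Filter.mem_prod_iff.mp (hsub hU)
  obtain ⟨W, hWsub, hWo, h0W⟩ := mem_nhds_iff.mp (Filter.inter_mem hW1 hW2)
  refine ⟨W, hWo, h0W, fun O hO hOW x hx => ?_⟩
  have hcont : Continuous (fun y : K => y - x) := continuous_id.sub continuous_const
  have hopen : IsOpen (((fun y : K => y - x) ⁻¹' W) ∩ O) := (hWo.preimage hcont).inter hO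
  obtain ⟨g, hg⟩ := hd.exists_mem_open hopen ⟨x, by
    refine ⟨?_, hx⟩
    show x - x ∈ W
    rw [sub_self]; exact h0W⟩
  have hgW : j g ∈ W := hOW g hg.2
  have h5 : (j g, j g - x) ∈ W1 ×ˢ W2 := ⟨(hWsub hgW).1, (hWsub hg.1).2⟩
  have h6 : j g - (j g - x) ∈ U := hW h5
  rwa [sub_sub_cancel] at h6

/-- The completion of a minimal group is minimal (in the form needed). -/
lemma completion_minimal {G : Type*} [AddCommGroup G] [tG : TopologicalSpace G]
    (hmin : Minimal' G) {K : Type*} [AddCommGroup K] [tK : TopologicalSpace K]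
    [IsTopologicalAddGroup K] (j : G →+ K) (hj : IsInducing j)
    (hinj : Function.Injective j) (hd : DenseRange j) : ∀ σ : TopologicalSpace K,
    @IsTopologicalAddGroup K σ _ → @T2Space K σ → tK ≤ σ → σ = tK := by
  have hgK : @IsTopologicalAddGroup K tK _ := inferInstance
  have hej := hj.eq_induced
  have hstep := completion_step j hd
  have hpre : ∀ W : Set K, IsOpen W → IsOpen (j ⁻¹' W) := fun W hW => hW.preimage hj.continuous
  intro σ hσ hσ2 hle
  have h1 : TopologicalSpace.induced j σ = tG := by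
    apply hmin.2
    · haveI := hσ
      exact topologicalAddGroup_induced j
    · exact @T2Space.of_injective_continuous G K (TopologicalSpace.induced j σ) σ hσ2 j hinj
        (@continuous_induced_dom G K j σ)
    · rw [hej]
      exact induced_mono hle
  apply IsTopologicalAddGroup.ext hσ hgK
  apply le_antisymm
  · intro U hU
    obtain ⟨W, hWo, h0W, hW⟩ := hstep U hU
    have hjW := hpre W hWo
    rw [← h1] at hjW
    obtain ⟨O, hO, hOW⟩ := (@isOpen_induced_iff G K σ _ j).mp hjW
    have h0O : (0 : K) ∈ O := by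
      have h2 : (0 : G) ∈ j ⁻¹' O := by
        rw [hOW]
        show j 0 ∈ W
        rw [map_zero]; exact h0W
      have h3 : j 0 ∈ O := h2
      rwa [map_zero] at h3
    have hOU : O ⊆ U := by
      apply hW O (hle O hO)
      intro g hg
      have h4 : g ∈ j ⁻¹' O := hg
      rw [hOW] at h4
      exact h4
    exact Filter.mem_of_superset (@IsOpen.mem_nhds K σ 0 O hO h0O) hOU
  · exact nhds_mono hle

/-- The theorem of Prodanov and Stoyanov: minimal abelian groups are precompact. -/
theorem precpt_of_minimal {G : Type} [AddCommGroup G] [TopologicalSpace G]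
    [IsTopologicalAddGroup G] (hmin : Minimal' G) : Precpt G := by
  classical
  haveI := hmin.1
  letI : UniformSpace G := IsTopologicalAddGroup.rightUniformSpace G
  haveI : IsUniformAddGroup G := isUniformAddGroup_of_addCommGroup
  let K := UniformSpace.Completion G
  let j : G →+ K := UniformSpace.Completion.toCompl
  have hj : IsInducing j := (UniformSpace.Completion.isDenseInducing_coe (α := G)).isInducing
  have hinj : Function.Injective j := UniformSpace.Completion.coe_injective G
  have hd : DenseRange j := UniformSpace.Completion.denseRange_coe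
  have hcm := completion_minimal hmin j hj hinj hd
  have hsml := R658.LQ.chain_small K Set.univ
    (fun σ hσ hσ2 hle _ => hcm σ hσ hσ2 hle)
    (fun _ => Set.univ) ⟨fun _ => trivial, fun _ _ _ => trivial, fun _ _ _ _ _ => trivial⟩
    (fun _ => Filter.univ_mem) (Set.subset_univ _)
  intro V hV
  rw [hj.nhds_eq_comap, map_zero] at hV
  obtain ⟨U, hU, hUV⟩ := Filter.mem_comap.mp hV
  have hsub : Filter.Tendsto (fun p : K × K => p.1 - p.2) (nhds 0 ×ˢ nhds 0)
      (nhds (0 : K)) := by
    have h1 : Continuous (fun p : K × K => p.1 - p.2) := continuous_fst.sub continuous_snd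
    have h2 := h1.tendsto (0, 0)
    rw [nhds_prod_eq] at h2
    simpa using h2
  obtain ⟨W1, hW1, W2, hW2, hW⟩ := Filter.mem_prod_iff.mp (hsub hU)
  obtain ⟨n, F, hF⟩ := hsml (W1 ∩ W2) (Filter.inter_mem hW1 hW2)
  have hrep : ∀ x : K, ∃ g : G, (∃ g', j g' - x ∈ W1 ∩ W2) → j g - x ∈ W1 ∩ W2 := by
    intro x
    by_cases hx : ∃ g', j g' - x ∈ W1 ∩ W2
    · obtain ⟨g', hg'⟩ := hx
      exact ⟨g', fun _ => hg'⟩
    · exact ⟨0, fun h => absurd h hx⟩
  choose rep hrep using hrep
  refine ⟨F.image rep, fun g => ?_⟩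
  obtain ⟨x, hx, hgx⟩ := hF (j g) trivial
  refine ⟨rep x, Finset.mem_image_of_mem _ hx, ?_⟩
  apply hUV
  show j (g - rep x) ∈ U
  have h1 : (j g - x, j (rep x) - x) ∈ W1 ×ˢ W2 := ⟨hgx.1, (hrep x ⟨g, hgx⟩).2⟩
  have h2 : (j g - x) - (j (rep x) - x) ∈ U := hW h1
  rw [map_sub]
  simpa using h2

/-- Q1 in full. -/
theorem q1_full {G : Type} [AddCommGroup G] [TopologicalSpace G]
    [IsTopologicalAddGroup G] (h : DMinimal G) : HMinimal G := by
  haveI := h.minimal.1
  exact q1_precompact (precpt_of_minimal h.minimal) h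

end Pool.Agent.H519DM
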